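import Mathlib

/-!
The Calderon-Zygmund theorem on the integers: a kernel with a Hoermander condition whose
convolution operator is bounded on square summable sequences is bounded on `l^p` for
`1 < p < 2`.
-/

set_option autoImplicit false

noncomputable section

namespace Pool.Agent.Work.MP_bd9a46_an

open Finset MeasureTheory
open scoped ENNReal

/-- Convolution of a kernel with a finitely supported sequence. -/
def conv (K : ℤ → ℂ) (a : ℤ →₀ ℂ) (n : ℤ) : ℂ := ∑ k ∈ a.support, a k * K (n - k)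

namespace CZ

/-- The convolution as a linear map. -/
def TT (K : ℤ → ℂ) : (ℤ →₀ ℂ) →ₗ[ℂ] (ℤ → ℂ) :=
  Finsupp.linearCombination ℂ (fun k n => K (n - k))

lemma TT_apply (K : ℤ → ℂ) (a : ℤ →₀ ℂ) (n : ℤ) : TT K a n = conv K a n := by
  unfold TT conv
  rw [Finsupp.linearCombination_apply, Finsupp.sum, Finset.sum_apply]
  rfl

lemma TT_single (K : ℤ → ℂ) (y : ℤ) (c : ℂ) (n : ℤ) :
    TT K (Finsupp.single y c) n = c * K (n - y) := by
  unfold TT
  rw [Finsupp.linearCombination_single]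
  rfl

/-- The `l^1` norm. -/
def l1 (a : ℤ →₀ ℂ) : ℝ := ∑ k ∈ a.support, ‖a k‖

lemma l1_nonneg (a : ℤ →₀ ℂ) : 0 ≤ l1 a := Finset.sum_nonneg fun _ _ => norm_nonneg _

lemma sum_le_l1 (a : ℤ →₀ ℂ) (F : Finset ℤ) : ∑ y ∈ F, ‖a y‖ ≤ l1 a := by
  classical
  unfold l1
  calc ∑ y ∈ F, ‖a y‖ = ∑ y ∈ F.filter (fun y => y ∈ a.support), ‖a y‖ := by
        rw [Finset.sum_filter]
        apply Finset.sum_congr rfl
        intro y _
        split_ifs with h
        · rfl
        · rw [Finsupp.notMem_support_iff.1 h, norm_zero]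
    _ ≤ ∑ y ∈ a.support, ‖a y‖ := by
        apply Finset.sum_le_sum_of_subset_of_nonneg
        · intro y hy
          exact (Finset.mem_filter.1 hy).2
        · intro _ _ _
          exact norm_nonneg _

/-- Dyadic intervals. -/
def iv (q : ℕ × ℤ) : Finset ℤ := Finset.Ico (q.2 * 2 ^ q.1) ((q.2 + 1) * 2 ^ q.1)

lemma two_pow_pos' (k : ℕ) : (0 : ℤ) < 2 ^ k := by positivity

lemma mem_iv {q : ℕ × ℤ} {y : ℤ} : y ∈ iv q ↔ y / 2 ^ q.1 = q.2 := by
  unfold iv
  rw [Finset.mem_Ico]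
  have h := two_pow_pos' q.1
  constructor
  · rintro ⟨h1, h2⟩
    have h3 : q.2 ≤ y / 2 ^ q.1 := (Int.le_ediv_iff_mul_le h).2 h1
    have h4 : y / 2 ^ q.1 < q.2 + 1 := (Int.ediv_lt_iff_lt_mul h).2 h2
    omega
  · intro h1
    constructor
    · exact (Int.le_ediv_iff_mul_le h).1 h1.ge
    · exact (Int.ediv_lt_iff_lt_mul h).1 (by omega)

lemma card_iv (q : ℕ × ℤ) : (iv q).card = 2 ^ q.1 := by
  unfold iv
  rw [Int.card_Ico]
  have : (q.2 + 1) * 2 ^ q.1 - q.2 * 2 ^ q.1 = 2 ^ q.1 := by ring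
  rw [this]
  have h : ((2 : ℤ) ^ q.1) = ((2 ^ q.1 : ℕ) : ℤ) := by push_cast; rfl
  rw [h, Int.toNat_natCast]

/-- Dyadic sums. -/
def SS (a : ℤ →₀ ℂ) (q : ℕ × ℤ) : ℝ := ∑ y ∈ iv q, ‖a y‖

lemma SS_nonneg (a : ℤ →₀ ℂ) (q : ℕ × ℤ) : 0 ≤ SS a q := Finset.sum_nonneg fun _ _ => norm_nonneg _

lemma SS_le_l1 (a : ℤ →₀ ℂ) (q : ℕ × ℤ) : SS a q ≤ l1 a := sum_le_l1 a _

lemma div_pow_add (y : ℤ) (k m : ℕ) : y / 2 ^ k / 2 ^ m = y / 2 ^ (k + m) := by
  rw [pow_add, Int.ediv_ediv_of_nonneg (two_pow_pos' k).le]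

lemma SS_parent (a : ℤ →₀ ℂ) (k : ℕ) (j : ℤ) : SS a (k, j) ≤ SS a (k + 1, j / 2) := by
  unfold SS
  apply Finset.sum_le_sum_of_subset_of_nonneg
  · intro y hy
    rw [mem_iv] at hy ⊢
    simp only at hy ⊢
    rw [← hy, ← div_pow_add]
    norm_num
  · intro _ _ _
    exact norm_nonneg _

/-- The stopping condition. -/
def Sel (a : ℤ →₀ ℂ) (t : ℝ) (q : ℕ × ℤ) : Prop :=
  t * 2 ^ q.1 < SS a q ∧ ∀ m : ℕ, 0 < m → SS a (q.1 + m, q.2 / 2 ^ m) ≤ t * 2 ^ (q.1 + m)

lemma exists_big (a : ℤ →₀ ℂ) {t : ℝ} (ht : 0 < t) : ∃ N : ℕ, ∀ q : ℕ × ℤ, N ≤ q.1 → SS a q ≤ t * 2 ^ q.1 := by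
  obtain ⟨N, hN⟩ := pow_unbounded_of_one_lt (l1 a / t) (by norm_num : (1 : ℝ) < 2)
  refine ⟨N, fun q hq => ?_⟩
  have h1 := SS_le_l1 a q
  have h2 : (2 : ℝ) ^ N ≤ 2 ^ q.1 := pow_le_pow_right₀ (by norm_num) hq
  rw [div_lt_iff₀ ht] at hN
  nlinarith

lemma sel_finite (a : ℤ →₀ ℂ) {t : ℝ} (ht : 0 < t) : {q : ℕ × ℤ | Sel a t q}.Finite := by
  classical
  obtain ⟨N, hN⟩ := exists_big a ht
  apply Set.Finite.subset (((Finset.range N) ×ˢ a.support).image
    (fun q : ℕ × ℤ => (q.1, q.2 / 2 ^ q.1))).finite_toSet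
  rintro ⟨k, j⟩ ⟨h1, _⟩
  have hk : k < N := by
    by_contra hcon
    have := hN (k, j) (not_lt.1 hcon)
    linarith
  have h2 : 0 < SS a (k, j) := by
    have : 0 < t * 2 ^ k := by positivity
    linarith
  obtain ⟨y, hy, hy0⟩ : ∃ y ∈ iv (k, j), ‖a y‖ ≠ 0 := by
    by_contra hcon
    push Not at hcon
    have : SS a (k, j) = 0 := Finset.sum_eq_zero hcon
    linarith
  rw [mem_iv] at hy
  simp only [Finset.coe_image, Set.mem_image, Finset.mem_coe, Finset.mem_product, Finset.mem_range]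
  refine ⟨(k, y), ⟨hk, ?_⟩, ?_⟩
  · rw [Finsupp.mem_support_iff]
    exact norm_ne_zero_iff.1 hy0
  · simp only [Prod.mk.injEq, true_and]
    exact hy

/-- The selected intervals. -/
def sel (a : ℤ →₀ ℂ) {t : ℝ} (ht : 0 < t) : Finset (ℕ × ℤ) := (sel_finite a ht).toFinset

lemma mem_sel {a : ℤ →₀ ℂ} {t : ℝ} {ht : 0 < t} {q : ℕ × ℤ} : q ∈ sel a ht ↔ Sel a t q := by
  unfold sel
  simp

lemma sel_unique {a : ℤ →₀ ℂ} {t : ℝ} {q q' : ℕ × ℤ} (h : Sel a t q) (h' : Sel a t q') {y : ℤ}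
    (hy : y ∈ iv q) (hy' : y ∈ iv q') : q = q' := by
  wlog hle : q.1 ≤ q'.1 generalizing q q'
  · exact (this h' h hy' hy (by omega)).symm
  rw [mem_iv] at hy hy'
  rcases eq_or_lt_of_le hle with he | hlt
  · apply Prod.ext he
    rw [← hy, ← hy', he]
  · exfalso
    have h1 := h.2 (q'.1 - q.1) (by omega)
    have h2 := h'.1
    rw [← hy, div_pow_add, show q.1 + (q'.1 - q.1) = q'.1 by omega, hy'] at h1
    linarith

lemma sel_outside {a : ℤ →₀ ℂ} {t : ℝ} (ht : 0 < t) {y : ℤ} (hy : ∀ q ∈ sel a ht, y ∉ iv q) :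
    ‖a y‖ ≤ t := by
  classical
  by_contra hcon
  push Not at hcon
  obtain ⟨N, hN⟩ := exists_big a ht
  let P : ℕ → Prop := fun k => t * 2 ^ k < SS a (k, y / 2 ^ k)
  have hP0 : P 0 := by
    show t * 2 ^ 0 < SS a (0, y / 2 ^ 0)
    unfold SS iv
    simp only [pow_zero, mul_one, Int.ediv_one]
    have : Finset.Ico y (y + 1) = {y} := by
      ext z; simp only [Finset.mem_Ico, Finset.mem_singleton]; omega
    rw [this, Finset.sum_singleton]
    exact hcon
  have hPN : ∀ k, P k → k < N := by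
    intro k hk
    by_contra hc
    have h1 := hN (k, y / 2 ^ k) (not_lt.1 hc)
    have h2 : t * 2 ^ k < SS a (k, y / 2 ^ k) := hk
    simp only at h1
    linarith
  set k := Nat.findGreatest P N with hk
  have hPk : P k := Nat.findGreatest_spec (m := 0) (Nat.zero_le _) hP0
  have hmax : ∀ m, 0 < m → ¬ P (k + m) := by
    intro m hm hPm
    have h1 := hPN _ hPm
    have h2 := Nat.le_findGreatest h1.le hPm
    omega
  have hsel : Sel a t (k, y / 2 ^ k) := by
    refine ⟨hPk, fun m hm => ?_⟩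
    have h1 := hmax m hm
    simp only [P, not_lt] at h1
    rw [div_pow_add]
    exact h1
  exact hy _ (mem_sel.2 hsel) (mem_iv.2 rfl)

lemma sel_upper {a : ℤ →₀ ℂ} {t : ℝ} {q : ℕ × ℤ} (h : Sel a t q) : SS a q ≤ 2 * t * 2 ^ q.1 := by
  have h1 := h.2 1 (by norm_num)
  have h2 := SS_parent a q.1 q.2
  rw [pow_one] at h1
  rw [pow_succ] at h1
  have h3 : SS a (q.1, q.2) = SS a q := rfl
  rw [h3] at h2
  linarith

lemma sel_disjoint (a : ℤ →₀ ℂ) {t : ℝ} (ht : 0 < t) :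
    Set.PairwiseDisjoint (sel a ht : Set (ℕ × ℤ)) iv := by
  intro q hq q' hq' hne
  rw [Function.onFun, Finset.disjoint_left]
  intro y hy hy'
  exact hne (sel_unique (mem_sel.1 hq) (mem_sel.1 hq') hy hy')

/-- The union of the selected intervals. -/
def UU (a : ℤ →₀ ℂ) {t : ℝ} (ht : 0 < t) : Finset ℤ := (sel a ht).biUnion iv

lemma sum_SS_add (a : ℤ →₀ ℂ) {t : ℝ} (ht : 0 < t) :
    ∑ q ∈ sel a ht, SS a q + ∑ y ∈ a.support \ UU a ht, ‖a y‖ ≤ l1 a := by
  classical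
  have h1 : ∑ q ∈ sel a ht, SS a q = ∑ y ∈ UU a ht, ‖a y‖ := by
    unfold UU
    rw [Finset.sum_biUnion (sel_disjoint a ht)]
    rfl
  rw [h1, ← Finset.sum_union (Finset.disjoint_sdiff)]
  exact sum_le_l1 a _

lemma sum_SS_le (a : ℤ →₀ ℂ) {t : ℝ} (ht : 0 < t) : ∑ q ∈ sel a ht, SS a q ≤ l1 a := by
  have h1 := sum_SS_add a ht
  have h2 : 0 ≤ ∑ y ∈ a.support \ UU a ht, ‖a y‖ := Finset.sum_nonneg fun _ _ => norm_nonneg _
  linarith

/-- The mean of `a` over a dyadic interval. -/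
def mean (a : ℤ →₀ ℂ) (q : ℕ × ℤ) : ℂ := (∑ y ∈ iv q, a y) / 2 ^ q.1

lemma norm_mean_le (a : ℤ →₀ ℂ) (q : ℕ × ℤ) : ‖mean a q‖ * 2 ^ q.1 ≤ SS a q := by
  unfold mean SS
  rw [norm_div, norm_pow, Complex.norm_ofNat, div_mul_cancel₀ _ (by positivity)]
  exact norm_sum_le _ _

lemma sum_sub_mean (a : ℤ →₀ ℂ) (q : ℕ × ℤ) : ∑ y ∈ iv q, (a y - mean a q) = 0 := by
  rw [Finset.sum_sub_distrib, Finset.sum_const, card_iv, nsmul_eq_mul]
  unfold mean
  push_cast
  rw [mul_div_cancel₀ _ (pow_ne_zero _ two_ne_zero), sub_self]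

lemma sum_norm_sub_mean (a : ℤ →₀ ℂ) (q : ℕ × ℤ) : ∑ y ∈ iv q, ‖a y - mean a q‖ ≤ 2 * SS a q := by
  calc ∑ y ∈ iv q, ‖a y - mean a q‖ ≤ ∑ y ∈ iv q, (‖a y‖ + ‖mean a q‖) :=
        Finset.sum_le_sum fun y _ => norm_sub_le _ _
    _ = SS a q + ‖mean a q‖ * 2 ^ q.1 := by
        rw [Finset.sum_add_distrib, Finset.sum_const, card_iv, nsmul_eq_mul]
        push_cast
        rw [mul_comm (2 ^ q.1 : ℝ)]
        rfl
    _ ≤ 2 * SS a q := by linarith [norm_mean_le a q]

/-- The bad part on one interval. -/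
def bI (a : ℤ →₀ ℂ) (q : ℕ × ℤ) : ℤ →₀ ℂ := ∑ y ∈ iv q, Finsupp.single y (a y - mean a q)

lemma bI_apply (a : ℤ →₀ ℂ) (q : ℕ × ℤ) (y : ℤ) :
    bI a q y = if y ∈ iv q then a y - mean a q else 0 := by
  classical
  unfold bI
  rw [Finsupp.finsetSum_apply]
  simp only [Finsupp.single_apply]
  rw [Finset.sum_ite_eq' (iv q) y (fun z => a z - mean a q)]

lemma TT_bI (K : ℤ → ℂ) (a : ℤ →₀ ℂ) (q : ℕ × ℤ) (n : ℤ) :
    TT K (bI a q) n = ∑ y ∈ iv q, (a y - mean a q) * (K (n - y) - K (n - q.2 * 2 ^ q.1)) := by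
  unfold bI
  rw [map_sum, Finset.sum_apply]
  simp only [TT_single]
  simp only [mul_sub]
  rw [Finset.sum_sub_distrib, ← Finset.sum_mul, sum_sub_mean, zero_mul, sub_zero]

/-- The enlarged interval. -/
def star (q : ℕ × ℤ) : Finset ℤ :=
  Finset.Ioo (q.2 * 2 ^ q.1 - 2 * 2 ^ q.1) (q.2 * 2 ^ q.1 + 2 * 2 ^ q.1)

lemma card_star (q : ℕ × ℤ) : ((star q).card : ℝ) ≤ 4 * 2 ^ q.1 := by
  unfold star
  rw [Int.card_Ioo]
  have h1 : (q.2 * 2 ^ q.1 + 2 * 2 ^ q.1 - (q.2 * 2 ^ q.1 - 2 * 2 ^ q.1) - 1 : ℤ)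
      = 4 * 2 ^ q.1 - 1 := by ring
  rw [h1]
  have h2 : (4 * (2 : ℤ) ^ q.1 - 1).toNat ≤ 4 * 2 ^ q.1 := by
    rw [Int.toNat_le]
    push_cast
    omega
  exact_mod_cast h2

/-- The kernel hypothesis. -/
def Horm (K : ℤ → ℂ) (B : ℝ) : Prop :=
  ∀ (y : ℤ) (S : Finset ℤ), (∀ n ∈ S, 2 * |y| ≤ |n|) → ∑ n ∈ S, ‖K (n - y) - K n‖ ≤ B

lemma bad_one {K : ℤ → ℂ} {B : ℝ} (hK : Horm K B) (a : ℤ →₀ ℂ) (q : ℕ × ℤ) (F : Finset ℤ)
    (hF : ∀ n ∈ F, n ∉ star q) : ∑ n ∈ F, ‖TT K (bI a q) n‖ ≤ B * (2 * SS a q) := by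
  classical
  have hB : 0 ≤ B := by
    have := hK 0 ∅ (by simp)
    simpa using this
  set y0 : ℤ := q.2 * 2 ^ q.1 with hy0
  calc ∑ n ∈ F, ‖TT K (bI a q) n‖
      ≤ ∑ n ∈ F, ∑ y ∈ iv q, ‖a y - mean a q‖ * ‖K (n - y) - K (n - y0)‖ := by
        apply Finset.sum_le_sum
        intro n _
        rw [TT_bI]
        refine le_trans (norm_sum_le _ _) ?_
        apply Finset.sum_le_sum
        intro y _
        rw [norm_mul]
    _ = ∑ y ∈ iv q, ‖a y - mean a q‖ * ∑ n ∈ F, ‖K (n - y) - K (n - y0)‖ := by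
        rw [Finset.sum_comm]
        simp only [Finset.mul_sum]
    _ ≤ ∑ y ∈ iv q, ‖a y - mean a q‖ * B := by
        apply Finset.sum_le_sum
        intro y hy
        apply mul_le_mul_of_nonneg_left _ (norm_nonneg _)
        have h1 := hK (y - y0) (F.image (fun n => n - y0)) (by
          intro n hn
          rw [Finset.mem_image] at hn
          obtain ⟨m, hm, rfl⟩ := hn
          have h2 := hF m hm
          unfold star at h2
          rw [Finset.mem_Ioo, not_and_or, ← hy0] at h2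
          unfold iv at hy
          rw [Finset.mem_Ico, ← hy0] at hy
          have h3 := two_pow_pos' q.1
          have h4 : (q.2 + 1) * 2 ^ q.1 = y0 + 2 ^ q.1 := by rw [hy0]; ring
          rw [h4] at hy
          rw [abs_of_nonneg (by linarith [hy.1])]
          rcases h2 with h2 | h2
          · rw [abs_of_nonpos (by omega)]; omega
          · rw [abs_of_nonneg (by omega)]; omega)
        rw [Finset.sum_image (by intro u _ v _ h; simpa using h)] at h1
        refine le_trans (le_of_eq ?_) h1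
        apply Finset.sum_congr rfl
        intro n _
        congr 3
        ring
    _ = B * ∑ y ∈ iv q, ‖a y - mean a q‖ := by rw [← Finset.sum_mul, mul_comm]
    _ ≤ B * (2 * SS a q) := mul_le_mul_of_nonneg_left (sum_norm_sub_mean a q) hB

/-- The good part. -/
def good (a : ℤ →₀ ℂ) {t : ℝ} (ht : 0 < t) : ℤ →₀ ℂ := a - ∑ q ∈ sel a ht, bI a q

lemma good_of_mem {a : ℤ →₀ ℂ} {t : ℝ} {ht : 0 < t} {q : ℕ × ℤ} (hq : q ∈ sel a ht) {y : ℤ}
    (hy : y ∈ iv q) : good a ht y = mean a q := by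
  classical
  unfold good
  rw [Finsupp.sub_apply, Finsupp.finsetSum_apply]
  rw [Finset.sum_eq_single q]
  · rw [bI_apply, if_pos hy]; ring
  · intro q' hq' hne
    rw [bI_apply, if_neg]
    intro hy'
    exact hne (sel_unique (mem_sel.1 hq') (mem_sel.1 hq) hy' hy)
  · intro h; exact absurd hq h

lemma good_of_notMem {a : ℤ →₀ ℂ} {t : ℝ} {ht : 0 < t} {y : ℤ}
    (hy : y ∉ UU a ht) : good a ht y = a y := by
  classical
  unfold good
  rw [Finsupp.sub_apply, Finsupp.finsetSum_apply]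
  rw [Finset.sum_eq_zero]
  · ring
  · intro q hq
    rw [bI_apply, if_neg]
    intro h
    apply hy
    unfold UU
    rw [Finset.mem_biUnion]
    exact ⟨q, hq, h⟩

lemma good_l2 (a : ℤ →₀ ℂ) {t : ℝ} (ht : 0 < t) :
    ∑ y ∈ (good a ht).support, ‖good a ht y‖ ^ 2 ≤ 2 * t * l1 a := by
  classical
  have hsub : (good a ht).support ⊆ (UU a ht) ∪ (a.support \ UU a ht) := by
    intro y hy
    rw [Finset.mem_union, Finset.mem_sdiff]
    by_cases h : y ∈ UU a ht
    · left; exact h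
    · right
      refine ⟨?_, h⟩
      rw [Finsupp.mem_support_iff] at hy ⊢
      rwa [good_of_notMem h] at hy
  calc ∑ y ∈ (good a ht).support, ‖good a ht y‖ ^ 2
      ≤ ∑ y ∈ (UU a ht) ∪ (a.support \ UU a ht), ‖good a ht y‖ ^ 2 :=
        Finset.sum_le_sum_of_subset_of_nonneg hsub (fun _ _ _ => by positivity)
    _ = ∑ y ∈ UU a ht, ‖good a ht y‖ ^ 2 + ∑ y ∈ a.support \ UU a ht, ‖good a ht y‖ ^ 2 :=
        Finset.sum_union Finset.disjoint_sdiff
    _ ≤ 2 * t * (∑ q ∈ sel a ht, SS a q) + 2 * t * ∑ y ∈ a.support \ UU a ht, ‖a y‖ := by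
        apply add_le_add
        · unfold UU
          rw [Finset.sum_biUnion (sel_disjoint a ht), Finset.mul_sum]
          apply Finset.sum_le_sum
          intro q hq
          have h1 : ∑ y ∈ iv q, ‖good a ht y‖ ^ 2 = 2 ^ q.1 * ‖mean a q‖ ^ 2 := by
            rw [Finset.sum_congr rfl (fun y hy => by rw [good_of_mem hq hy])]
            rw [Finset.sum_const, card_iv, nsmul_eq_mul]
            push_cast
            rfl
          rw [h1]
          have h2 := norm_mean_le a q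
          have h3 := sel_upper (mem_sel.1 hq)
          have h4 : (0 : ℝ) < 2 ^ q.1 := by positivity
          have h5 : ‖mean a q‖ ≤ 2 * t := by
            have : ‖mean a q‖ * 2 ^ q.1 ≤ 2 * t * 2 ^ q.1 := h2.trans h3
            exact le_of_mul_le_mul_right this h4
          calc 2 ^ q.1 * ‖mean a q‖ ^ 2 = ‖mean a q‖ * (‖mean a q‖ * 2 ^ q.1) := by ring
            _ ≤ 2 * t * SS a q := mul_le_mul h5 h2 (by positivity) (by positivity)
        · rw [Finset.mul_sum]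
          apply Finset.sum_le_sum
          intro y hy
          rw [Finset.mem_sdiff] at hy
          rw [good_of_notMem hy.2]
          have h1 : ‖a y‖ ≤ t := sel_outside ht (fun q hq hyq => hy.2 (by
            unfold UU
            rw [Finset.mem_biUnion]
            exact ⟨q, hq, hyq⟩))
          nlinarith [norm_nonneg (a y)]
    _ = 2 * t * (∑ q ∈ sel a ht, SS a q + ∑ y ∈ a.support \ UU a ht, ‖a y‖) := by ring
    _ ≤ 2 * t * l1 a := mul_le_mul_of_nonneg_left (sum_SS_add a ht) (by positivity)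

lemma sum_two_pow_le (a : ℤ →₀ ℂ) {t : ℝ} (ht : 0 < t) :
    ∑ q ∈ sel a ht, (2 : ℝ) ^ q.1 ≤ l1 a / t := by
  rw [le_div_iff₀ ht, mul_comm, Finset.mul_sum]
  refine le_trans ?_ (sum_SS_le a ht)
  apply Finset.sum_le_sum
  intro q hq
  exact (mem_sel.1 hq).1.le

/-- A bound for the counting measure from finite subsets. -/
lemma count_le {s : Set ℤ} {c : ℝ} (h : ∀ F : Finset ℤ, (↑F : Set ℤ) ⊆ s → (F.card : ℝ) ≤ c) :
    Measure.count s ≤ ENNReal.ofReal c := by
  have hfin : s.Finite := by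
    by_contra hinf
    obtain ⟨F, hF, hc⟩ := Set.Infinite.exists_subset_card_eq hinf (⌈c⌉₊ + 1)
    have h1 := h F hF
    rw [hc] at h1
    push_cast at h1
    linarith [Nat.le_ceil c]
  rw [Measure.count_apply_finite s hfin]
  have h1 := h hfin.toFinset (by simp)
  calc ((hfin.toFinset.card : ℕ) : ℝ≥0∞) = ENNReal.ofReal (hfin.toFinset.card : ℝ) := by simp
    _ ≤ ENNReal.ofReal c := ENNReal.ofReal_le_ofReal h1

/-- The `L^2` hypothesis. -/
def Bdd2 (K : ℤ → ℂ) (A : ℝ) : Prop :=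
  ∀ (a : ℤ →₀ ℂ) (F : Finset ℤ), ∑ n ∈ F, ‖conv K a n‖ ^ 2 ≤ A * ∑ k ∈ a.support, ‖a k‖ ^ 2

lemma cheb2 {K : ℤ → ℂ} {A : ℝ} (hK : Bdd2 K A) (a : ℤ →₀ ℂ) {t : ℝ} (ht : 0 < t) :
    Measure.count {n : ℤ | t < ‖TT K a n‖} ≤
      ENNReal.ofReal (A * (∑ k ∈ a.support, ‖a k‖ ^ 2) / t ^ 2) := by
  apply count_le
  intro F hF
  rw [le_div_iff₀ (by positivity)]
  refine le_trans ?_ (hK a F)
  rw [← nsmul_eq_mul, ← Finset.sum_const]
  apply Finset.sum_le_sum
  intro n hn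
  have h1 : t < ‖TT K a n‖ := hF hn
  rw [TT_apply] at h1
  exact pow_le_pow_left₀ ht.le h1.le 2

/-- The weak type bound. -/
lemma weak {K : ℤ → ℂ} {A B : ℝ} (hA : 0 ≤ A) (hK : Bdd2 K A) (hH : Horm K B) (a : ℤ →₀ ℂ)
    {t : ℝ} (ht : 0 < t) :
    Measure.count {n : ℤ | 2 * t < ‖TT K a n‖} ≤
      ENNReal.ofReal ((2 * A + 4 + 2 * B) * l1 a / t) := by
  classical
  have hB : 0 ≤ B := by
    have := hH 0 ∅ (by simp)
    simpa using this
  have hl := l1_nonneg a
  set b : ℤ →₀ ℂ := ∑ q ∈ sel a ht, bI a q with hb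
  set E : Finset ℤ := (sel a ht).biUnion star with hE
  have hsum : ∀ n, TT K a n = TT K (good a ht) n + TT K b n := by
    intro n
    have h1 : a = good a ht + b := by
      rw [hb]; unfold good; abel
    conv_lhs => rw [h1]
    rw [map_add]
    rfl
  have hsub : {n : ℤ | 2 * t < ‖TT K a n‖} ⊆ {n : ℤ | t < ‖TT K (good a ht) n‖} ∪
      ((↑E : Set ℤ) ∪ {n : ℤ | n ∉ E ∧ t < ‖TT K b n‖}) := by
    intro n hn
    have hn' : 2 * t < ‖TT K a n‖ := hn
    rw [hsum n] at hn'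
    by_cases h1 : t < ‖TT K (good a ht) n‖
    · left; exact h1
    · right
      by_cases h2 : n ∈ E
      · left; exact h2
      · right
        refine ⟨h2, ?_⟩
        have h3 := norm_add_le (TT K (good a ht) n) (TT K b n)
        push Not at h1
        linarith
  have e1 : Measure.count {n : ℤ | t < ‖TT K (good a ht) n‖} ≤
      ENNReal.ofReal (2 * A * l1 a / t) := by
    refine le_trans (cheb2 hK (good a ht) ht) (ENNReal.ofReal_le_ofReal ?_)
    rw [div_le_div_iff₀ (by positivity) ht]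
    have h1 := good_l2 a ht
    have h2 := mul_le_mul_of_nonneg_left h1 hA
    nlinarith
  have e2 : Measure.count (↑E : Set ℤ) ≤ ENNReal.ofReal (4 * l1 a / t) := by
    apply count_le
    intro F hF
    have h1 : (F.card : ℝ) ≤ (E.card : ℝ) := by
      exact_mod_cast Finset.card_le_card (by exact_mod_cast hF)
    have h2 : (E.card : ℝ) ≤ ∑ q ∈ sel a ht, ((star q).card : ℝ) := by
      exact_mod_cast Finset.card_biUnion_le
    have h3 : ∑ q ∈ sel a ht, ((star q).card : ℝ) ≤ ∑ q ∈ sel a ht, 4 * (2 : ℝ) ^ q.1 :=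
      Finset.sum_le_sum fun q _ => card_star q
    rw [← Finset.mul_sum] at h3
    have h4 := sum_two_pow_le a ht
    have h5 : 4 * l1 a / t = 4 * (l1 a / t) := by ring
    rw [h5]
    linarith
  have e3 : Measure.count {n : ℤ | n ∉ E ∧ t < ‖TT K b n‖} ≤ ENNReal.ofReal (2 * B * l1 a / t) := by
    apply count_le
    intro F hF
    rw [le_div_iff₀ ht]
    calc (F.card : ℝ) * t = ∑ n ∈ F, t := by rw [Finset.sum_const, nsmul_eq_mul]
      _ ≤ ∑ n ∈ F, ‖TT K b n‖ := Finset.sum_le_sum fun n hn => (hF hn).2.le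
      _ ≤ ∑ n ∈ F, ∑ q ∈ sel a ht, ‖TT K (bI a q) n‖ := by
          apply Finset.sum_le_sum
          intro n _
          rw [hb, map_sum, Finset.sum_apply]
          exact norm_sum_le _ _
      _ = ∑ q ∈ sel a ht, ∑ n ∈ F, ‖TT K (bI a q) n‖ := Finset.sum_comm
      _ ≤ ∑ q ∈ sel a ht, B * (2 * SS a q) := by
          apply Finset.sum_le_sum
          intro q hq
          apply bad_one hH
          intro n hn hns
          apply (hF hn).1
          rw [hE, Finset.mem_biUnion]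
          exact ⟨q, hq, hns⟩
      _ = 2 * B * ∑ q ∈ sel a ht, SS a q := by rw [Finset.mul_sum]; congr 1; ext q; ring
      _ ≤ 2 * B * l1 a := mul_le_mul_of_nonneg_left (sum_SS_le a ht) (by positivity)
  calc Measure.count {n : ℤ | 2 * t < ‖TT K a n‖}
      ≤ Measure.count {n : ℤ | t < ‖TT K (good a ht) n‖} +
        (Measure.count (↑E : Set ℤ) + Measure.count {n : ℤ | n ∉ E ∧ t < ‖TT K b n‖}) := by
        refine le_trans (measure_mono hsub) (le_trans (measure_union_le _ _) ?_)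
        gcongr
        exact measure_union_le _ _
    _ ≤ ENNReal.ofReal (2 * A * l1 a / t) +
        (ENNReal.ofReal (4 * l1 a / t) + ENNReal.ofReal (2 * B * l1 a / t)) := by gcongr
    _ = ENNReal.ofReal ((2 * A + 4 + 2 * B) * l1 a / t) := by
        rw [← ENNReal.ofReal_add (by positivity) (by positivity),
          ← ENNReal.ofReal_add (by positivity) (by positivity)]
        congr 1
        ring

/-- Splitting at height `t`. -/
lemma split {K : ℤ → ℂ} {A B : ℝ} (hA : 0 ≤ A) (hK : Bdd2 K A) (hH : Horm K B) (a : ℤ →₀ ℂ)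
    {t : ℝ} (ht : 0 < t) :
    Measure.count {n : ℤ | t < ‖TT K a n‖ / 3} ≤
      ∑ k ∈ a.support, ENNReal.ofReal (if t < ‖a k‖ then (2 * A + 4 + 2 * B) * ‖a k‖ / t
        else A * ‖a k‖ ^ 2 / t ^ 2) := by
  classical
  have hB : 0 ≤ B := by
    have := hH 0 ∅ (by simp)
    simpa using this
  set a1 : ℤ →₀ ℂ := a.filter (fun k => t < ‖a k‖) with ha1
  set a2 : ℤ →₀ ℂ := a.filter (fun k => ¬ t < ‖a k‖) with ha2
  have hsum : ∀ n, TT K a n = TT K a1 n + TT K a2 n := by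
    intro n
    have h1 : a1 + a2 = a := Finsupp.filter_add_filter_not a _
    conv_lhs => rw [← h1]
    rw [map_add]
    rfl
  have hsub : {n : ℤ | t < ‖TT K a n‖ / 3} ⊆ {n : ℤ | 2 * t < ‖TT K a1 n‖} ∪
      {n : ℤ | t < ‖TT K a2 n‖} := by
    intro n hn
    have hn' : t < ‖TT K a n‖ / 3 := hn
    rw [hsum n] at hn'
    by_cases h1 : 2 * t < ‖TT K a1 n‖
    · left; exact h1
    · right
      have h3 := norm_add_le (TT K a1 n) (TT K a2 n)
      push Not at h1
      show t < ‖TT K a2 n‖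
      linarith
  have hl : l1 a1 = ∑ k ∈ a.support, if t < ‖a k‖ then ‖a k‖ else 0 := by
    unfold l1
    rw [ha1, Finsupp.support_filter, Finset.sum_filter]
    apply Finset.sum_congr rfl
    intro k _
    split_ifs with h
    · rw [Finsupp.filter_apply_pos (fun k => t < ‖a k‖) a h]
    · rfl
  have hl2 : ∑ k ∈ a2.support, ‖a2 k‖ ^ 2 = ∑ k ∈ a.support, if t < ‖a k‖ then 0 else ‖a k‖ ^ 2 := by
    rw [ha2, Finsupp.support_filter, Finset.sum_filter]
    apply Finset.sum_congr rfl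
    intro k _
    by_cases h : t < ‖a k‖
    · rw [if_neg (not_not.2 h), if_pos h]
    · rw [if_pos h, if_neg h, Finsupp.filter_apply_pos (fun k => ¬ t < ‖a k‖) a h]
  refine le_trans (measure_mono hsub) (le_trans (measure_union_le _ _) ?_)
  refine le_trans (add_le_add (weak hA hK hH a1 ht) (cheb2 hK a2 ht)) ?_
  rw [← ENNReal.ofReal_add (by have := l1_nonneg a1; positivity)
    (by have : 0 ≤ ∑ k ∈ a2.support, ‖a2 k‖ ^ 2 := Finset.sum_nonneg fun _ _ => by positivity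
        positivity)]
  rw [← ENNReal.ofReal_sum_of_nonneg (fun k _ => by split_ifs <;> positivity)]
  apply ENNReal.ofReal_le_ofReal
  rw [hl, hl2, Finset.mul_sum, Finset.mul_sum, Finset.sum_div, Finset.sum_div,
    ← Finset.sum_add_distrib]
  apply Finset.sum_le_sum
  intro k _
  split_ifs with h
  · simp
  · simp

lemma meas_piece (r c1 c2 p : ℝ) : Measurable fun t : ℝ =>
    ENNReal.ofReal (if t < r then c1 * r / t else c2 * r ^ 2 / t ^ 2) * ENNReal.ofReal (t ^ (p - 1)) := by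
  have h1 : Measurable fun t : ℝ => (if t < r then c1 * r / t else c2 * r ^ 2 / t ^ 2) := by
    apply Measurable.ite measurableSet_Iio
    · fun_prop
    · fun_prop
  have h2 : Measurable fun t : ℝ => t ^ (p - 1) := by fun_prop
  exact h1.ennreal_ofReal.mul h2.ennreal_ofReal

lemma int_piece {r c1 c2 p : ℝ} (hr : 0 < r) (hc1 : 0 ≤ c1) (hc2 : 0 ≤ c2) (hp1 : 1 < p)
    (hp2 : p < 2) :
    ∫⁻ t in Set.Ioi (0:ℝ), ENNReal.ofReal (if t < r then c1 * r / t else c2 * r ^ 2 / t ^ 2) *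
      ENNReal.ofReal (t ^ (p - 1)) = ENNReal.ofReal ((c1 / (p - 1) + c2 / (2 - p)) * r ^ p) := by
  have hset : Set.Ioi (0:ℝ) = Set.Ioc 0 r ∪ Set.Ioi r := (Set.Ioc_union_Ioi_eq_Ioi hr.le).symm
  rw [hset, lintegral_union measurableSet_Ioi (Set.disjoint_left.2 fun t h1 h2 =>
    absurd h1.2 (not_le.2 h2))]
  have e1 : ∫⁻ t in Set.Ioc 0 r, ENNReal.ofReal (if t < r then c1 * r / t else c2 * r ^ 2 / t ^ 2) *
      ENNReal.ofReal (t ^ (p - 1)) = ENNReal.ofReal (c1 / (p - 1) * r ^ p) := by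
    have h1 : ∫⁻ t in Set.Ioc 0 r, ENNReal.ofReal (if t < r then c1 * r / t else
        c2 * r ^ 2 / t ^ 2) * ENNReal.ofReal (t ^ (p - 1)) =
        ∫⁻ t in Set.Ioc 0 r, ENNReal.ofReal (c1 * r * t ^ (p - 2)) := by
      rw [← restrict_Ioo_eq_restrict_Ioc]
      apply setLIntegral_congr_fun measurableSet_Ioo
      intro t ht
      simp only
      rw [if_pos ht.2, ← ENNReal.ofReal_mul (by have := ht.1; positivity)]
      congr 1
      have : t ^ (p - 1) = t ^ (p - 2) * t := by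
        rw [← Real.rpow_add_one ht.1.ne']
        congr 1; ring
      rw [this]
      have := ht.1.ne'
      field_simp
    have hint : IntegrableOn (fun t : ℝ => c1 * r * t ^ (p - 2)) (Set.Ioc 0 r) := by
      have := (intervalIntegral.intervalIntegrable_rpow' (a := 0) (b := r)
        (show -1 < p - 2 by linarith)).const_mul (c1 * r)
      rwa [intervalIntegrable_iff_integrableOn_Ioc_of_le hr.le] at this
    rw [h1, ← ofReal_integral_eq_lintegral_ofReal hint]
    · congr 1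
      rw [← intervalIntegral.integral_of_le hr.le, intervalIntegral.integral_const_mul,
        integral_rpow (Or.inl (by linarith)), Real.zero_rpow (by linarith)]
      have : r ^ p = r ^ (p - 2 + 1) * r := by
        rw [← Real.rpow_add_one hr.ne']
        congr 1; ring
      rw [this, show p - 2 + 1 = p - 1 by ring]
      ring
    · rw [Filter.EventuallyLE, ae_restrict_iff' measurableSet_Ioc]
      refine Filter.Eventually.of_forall fun t ht => ?_
      have := ht.1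
      simp only [Pi.zero_apply]
      positivity
  have e2 : ∫⁻ t in Set.Ioi r, ENNReal.ofReal (if t < r then c1 * r / t else c2 * r ^ 2 / t ^ 2) *
      ENNReal.ofReal (t ^ (p - 1)) = ENNReal.ofReal (c2 / (2 - p) * r ^ p) := by
    have h1 : ∫⁻ t in Set.Ioi r, ENNReal.ofReal (if t < r then c1 * r / t else
        c2 * r ^ 2 / t ^ 2) * ENNReal.ofReal (t ^ (p - 1)) =
        ∫⁻ t in Set.Ioi r, ENNReal.ofReal (c2 * r ^ 2 * t ^ (p - 3)) := by
      apply setLIntegral_congr_fun measurableSet_Ioi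
      intro t ht
      have ht' : r < t := ht
      have ht0 : 0 < t := hr.trans ht'
      simp only
      rw [if_neg (not_lt.2 ht'.le), ← ENNReal.ofReal_mul (by positivity)]
      congr 1
      have : t ^ (p - 1) = t ^ (p - 3) * t ^ 2 := by
        rw [← Real.rpow_add_natCast ht0.ne']
        congr 1; push_cast; ring
      rw [this]
      field_simp
    have hint : IntegrableOn (fun t : ℝ => c2 * r ^ 2 * t ^ (p - 3)) (Set.Ioi r) :=
      (integrableOn_Ioi_rpow_of_lt (by linarith) hr).const_mul _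
    rw [h1, ← ofReal_integral_eq_lintegral_ofReal hint]
    · congr 1
      rw [integral_const_mul, integral_Ioi_rpow_of_lt (by linarith) hr]
      have : r ^ p = r ^ (p - 3 + 1) * r ^ 2 := by
        rw [← Real.rpow_add_natCast hr.ne']
        congr 1; push_cast; ring
      rw [this]
      have h2 : p - 3 + 1 ≠ 0 := by linarith
      have h3 : 2 - p ≠ 0 := by linarith
      have h4 : p - 3 + 1 = -(2 - p) := by ring
      rw [h4]
      field_simp
    · rw [Filter.EventuallyLE, ae_restrict_iff' measurableSet_Ioi]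
      refine Filter.Eventually.of_forall fun t ht => ?_
      have : 0 < t := hr.trans ht
      simp only [Pi.zero_apply]
      positivity
  rw [e1, e2, ← ENNReal.ofReal_add
    (mul_nonneg (div_nonneg hc1 (by linarith)) (Real.rpow_nonneg hr.le _))
    (mul_nonneg (div_nonneg hc2 (by linarith)) (Real.rpow_nonneg hr.le _))]
  congr 1
  ring

end CZ

open CZ

/-- The constant in the Calderon-Zygmund theorem. -/
def czC (A B p : ℝ) : ℝ := 3 ^ p * p * ((2 * A + 4 + 2 * B) / (p - 1) + A / (2 - p))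

/-- **Calderon-Zygmund theorem on the integers.** -/
theorem cz_Z {K : ℤ → ℂ} {A B p : ℝ} (hA : 0 ≤ A)
    (hK : ∀ (a : ℤ →₀ ℂ) (F : Finset ℤ),
      ∑ n ∈ F, ‖conv K a n‖ ^ 2 ≤ A * ∑ k ∈ a.support, ‖a k‖ ^ 2)
    (hH : ∀ (y : ℤ) (S : Finset ℤ), (∀ n ∈ S, 2 * |y| ≤ |n|) → ∑ n ∈ S, ‖K (n - y) - K n‖ ≤ B)
    (hp1 : 1 < p) (hp2 : p < 2) (a : ℤ →₀ ℂ) :
    ∑' n, ENNReal.ofReal (‖conv K a n‖ ^ p) ≤
      ENNReal.ofReal (czC A B p * ∑ k ∈ a.support, ‖a k‖ ^ p) := by
  classical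
  have hB : 0 ≤ B := by
    have := hH 0 ∅ (by simp)
    simpa using this
  have hp0 : 0 < p := by linarith
  have h1 : ∑' n, ENNReal.ofReal (‖conv K a n‖ ^ p) =
      ENNReal.ofReal (3 ^ p) * ∫⁻ n, ENNReal.ofReal ((‖TT K a n‖ / 3) ^ p) ∂(Measure.count : Measure ℤ) := by
    rw [lintegral_count, ← ENNReal.tsum_mul_left]
    congr 1
    ext n
    rw [← ENNReal.ofReal_mul (by positivity), ← Real.mul_rpow (by norm_num) (by positivity),
      mul_div_cancel₀ _ (by norm_num : (3:ℝ) ≠ 0), TT_apply]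
  rw [h1, lintegral_rpow_eq_lintegral_meas_lt_mul (Measure.count : Measure ℤ)
    (f := fun n => ‖TT K a n‖ / 3) (Filter.Eventually.of_forall fun n => by
      simp only [Pi.zero_apply]; positivity) (measurable_of_countable _).aemeasurable hp0]
  have h2 : ∫⁻ t in Set.Ioi (0:ℝ), (Measure.count : Measure ℤ) {n | t < ‖TT K a n‖ / 3} *
      ENNReal.ofReal (t ^ (p - 1)) ≤
      ∑ k ∈ a.support, ∫⁻ t in Set.Ioi (0:ℝ), ENNReal.ofReal (if t < ‖a k‖ then
        (2 * A + 4 + 2 * B) * ‖a k‖ / t else A * ‖a k‖ ^ 2 / t ^ 2) * ENNReal.ofReal (t ^ (p - 1)) := by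
    rw [← lintegral_finsetSum _ (fun k _ => meas_piece _ _ _ _)]
    apply setLIntegral_mono' measurableSet_Ioi
    intro t ht
    rw [← Finset.sum_mul]
    gcongr
    exact split hA hK hH a ht
  have h3 : ∀ k ∈ a.support, ∫⁻ t in Set.Ioi (0:ℝ), ENNReal.ofReal (if t < ‖a k‖ then
        (2 * A + 4 + 2 * B) * ‖a k‖ / t else A * ‖a k‖ ^ 2 / t ^ 2) * ENNReal.ofReal (t ^ (p - 1)) =
      ENNReal.ofReal (((2 * A + 4 + 2 * B) / (p - 1) + A / (2 - p)) * ‖a k‖ ^ p) := by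
    intro k hk
    apply int_piece (norm_pos_iff.2 (Finsupp.mem_support_iff.1 hk)) (by positivity) hA hp1 hp2
  rw [Finset.sum_congr rfl h3] at h2
  have hc : 0 ≤ (2 * A + 4 + 2 * B) / (p - 1) + A / (2 - p) :=
    add_nonneg (div_nonneg (by positivity) (by linarith)) (div_nonneg hA (by linarith))
  calc ENNReal.ofReal (3 ^ p) * (ENNReal.ofReal p *
        ∫⁻ t in Set.Ioi (0:ℝ), (Measure.count : Measure ℤ) {n | t < ‖TT K a n‖ / 3} *
          ENNReal.ofReal (t ^ (p - 1)))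
      ≤ ENNReal.ofReal (3 ^ p) * (ENNReal.ofReal p * ∑ k ∈ a.support,
        ENNReal.ofReal (((2 * A + 4 + 2 * B) / (p - 1) + A / (2 - p)) * ‖a k‖ ^ p)) := by gcongr
    _ = ENNReal.ofReal (czC A B p * ∑ k ∈ a.support, ‖a k‖ ^ p) := by
        rw [← ENNReal.ofReal_sum_of_nonneg (fun k _ => mul_nonneg hc (by positivity)),
          ← ENNReal.ofReal_mul (by positivity), ← ENNReal.ofReal_mul (by positivity)]
        congr 1
        rw [← Finset.mul_sum]
        unfold czC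
        ring

end Pool.Agent.Work.MP_bd9a46_an
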