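import Mathlib

/-!
# Definitions: multipliers of `ℓ_p`, `H^∞`, and the space `X_p`

The unit circle is `UnitAddCircle = ℝ / ℤ`, a point `x` standing for `exp (2 π i x)`, with the
normalised Haar measure, and `fourierCoeff f n` is the `n`-th Fourier coefficient.
-/

open MeasureTheory AddCircle
open scoped ENNReal NNReal

namespace Pool.Agent.Work.MP_bd9a46_an

/-- Convolution of a sequence `K` with a finitely supported sequence `c`. -/
noncomputable def conv (K : ℤ → ℂ) (c : ℤ →₀ ℂ) (n : ℤ) : ℂ := c.sum fun m a => K (n - m) * a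

/-- Essentially bounded (measurable) functions on the circle. -/
def IsLinf (f : UnitAddCircle → ℂ) : Prop := MemLp f ∞ haarAddCircle

/-- `φ` is a multiplier of `ℓ_p`: it is essentially bounded, and convolution with its sequence of
Fourier coefficients is bounded in the `ℓ^p` norm on finitely supported sequences. -/
def IsMult (p : ℝ≥0∞) (φ : UnitAddCircle → ℂ) : Prop :=
  IsLinf φ ∧ ∃ C : ℝ≥0, ∀ c : ℤ →₀ ℂ,
    eLpNorm (conv (fourierCoeff φ) c) p Measure.count ≤ C * eLpNorm (c : ℤ → ℂ) p Measure.count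

/-- `H^∞`: essentially bounded functions without negative Fourier coefficients. -/
def IsHinf (g : UnitAddCircle → ℂ) : Prop :=
  IsLinf g ∧ ∀ n : ℤ, n < 0 → fourierCoeff g n = 0

/-- The space `X_p`: the uniform closure of `H^∞ + M_p` in `L^∞`. -/
def InX (p : ℝ≥0∞) (u : UnitAddCircle → ℂ) : Prop :=
  IsLinf u ∧ ∀ ε : ℝ≥0, 0 < ε → ∃ g φ : UnitAddCircle → ℂ, IsHinf g ∧ IsMult p φ ∧
    eLpNorm (u - (g + φ)) ∞ haarAddCircle ≤ ε

/-- `X_p` is an algebra: it is closed under pointwise multiplication. -/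
def IsAlg (p : ℝ≥0∞) : Prop :=
  ∀ u v : UnitAddCircle → ℂ, InX p u → InX p v → InX p (u * v)

end Pool.Agent.Work.MP_bd9a46_an
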