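import Pool.Agent.Work.MP_bd9a46_an.L2

/-!
# One-sided Dirichlet averages and Fejér kernels
-/

open MeasureTheory AddCircle
open scoped ENNReal NNReal ComplexConjugate

namespace Pool.Agent.Work.MP_bd9a46_an

/-- The coordinate `z = exp (2 π i x)`. -/
noncomputable def zz (x : UnitAddCircle) : ℂ := (fourier 1 x : ℂ)

lemma norm_fourier (n : ℤ) (x : UnitAddCircle) : ‖(fourier n x : ℂ)‖ = 1 := by
  rw [fourier_apply, Circle.norm_coe]

lemma norm_zz (x : UnitAddCircle) : ‖zz x‖ = 1 := norm_fourier 1 x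

lemma zz_cont : Continuous zz := map_continuous (fourier 1)

lemma zz_add (x y : UnitAddCircle) : zz (x + y) = zz x * zz y := by
  unfold zz
  simp only [fourier_one, toCircle_add, Circle.coe_mul]

lemma zz_zero : zz 0 = 1 := by unfold zz; simp

lemma fourier_nat (n : ℕ) (x : UnitAddCircle) : (fourier (n : ℤ) x : ℂ) = zz x ^ n := by
  induction n with
  | zero => simp
  | succ n ih =>
    push_cast
    rw [fourier_add, ih, pow_succ]
    rfl

/-- `τ x = |1 - z|`. -/
noncomputable def tau (x : UnitAddCircle) : ℝ := ‖1 - zz x‖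

lemma tau_nonneg (x : UnitAddCircle) : 0 ≤ tau x := norm_nonneg _

lemma tau_cont : Continuous tau := by
  unfold tau
  exact (continuous_const.sub zz_cont).norm

lemma tau_sub (x y : UnitAddCircle) : tau (x - y) = ‖zz x - zz y‖ := by
  have h : zz x = zz (x - y) * zz y := by rw [← zz_add, sub_add_cancel]
  unfold tau
  rw [h]
  have : zz (x - y) * zz y - zz y = -((1 - zz (x - y)) * zz y) := by ring
  rw [this, norm_neg, norm_mul, norm_zz, mul_one]

/-- The average of the first `L` powers of `z`. -/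
noncomputable def dir (L : ℕ) (x : UnitAddCircle) : ℂ :=
  (1 / (L : ℂ)) * ∑ l ∈ Finset.range L, zz x ^ l

lemma dir_cont (L : ℕ) : Continuous (dir L) := by
  unfold dir
  apply continuous_const.mul
  apply continuous_finsetSum
  intro l _
  exact zz_cont.pow l

lemma norm_dir_le (L : ℕ) (x : UnitAddCircle) : ‖dir L x‖ ≤ 1 := by
  unfold dir
  rcases Nat.eq_zero_or_pos L with rfl | hL
  · simp
  · have hL' : (0 : ℝ) < L := by exact_mod_cast hL
    rw [norm_mul]
    calc ‖1 / (L : ℂ)‖ * ‖∑ l ∈ Finset.range L, zz x ^ l‖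
        ≤ (1 / L) * ∑ l ∈ Finset.range L, ‖zz x ^ l‖ := by
          gcongr
          · simp
          · exact norm_sum_le _ _
      _ = (1 / L) * L := by
          congr 1
          simp [norm_pow, norm_zz]
      _ = 1 := by field_simp

lemma dir_decay {L : ℕ} (hL : 0 < L) (x : UnitAddCircle) : L * tau x * ‖dir L x‖ ≤ 2 := by
  have hL' : (0 : ℝ) < L := by exact_mod_cast hL
  have h : (1 - zz x) * ((L : ℂ) * dir L x) = 1 - zz x ^ L := by
    unfold dir
    have hLc : (L : ℂ) ≠ 0 := by exact_mod_cast hL.ne'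
    rw [← mul_assoc (L : ℂ), mul_one_div_cancel hLc, one_mul, mul_neg_geom_sum]
  have h2 : ‖(1 - zz x) * ((L : ℂ) * dir L x)‖ ≤ 2 := by
    rw [h]
    calc ‖1 - zz x ^ L‖ ≤ ‖(1 : ℂ)‖ + ‖zz x ^ L‖ := norm_sub_le _ _
      _ = 2 := by rw [norm_pow, norm_zz]; norm_num
  rw [norm_mul, norm_mul] at h2
  unfold tau
  simp only [Complex.norm_natCast] at h2
  linarith

lemma norm_one_sub_pow_le (z : ℂ) (hz : ‖z‖ = 1) (l : ℕ) : ‖1 - z ^ l‖ ≤ l * ‖1 - z‖ := by
  rw [← mul_neg_geom_sum z l, norm_mul, mul_comm]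
  gcongr
  calc ‖∑ i ∈ Finset.range l, z ^ i‖ ≤ ∑ i ∈ Finset.range l, ‖z ^ i‖ := norm_sum_le _ _
    _ = l := by simp [norm_pow, hz]

lemma dir_near {L : ℕ} (hL : 0 < L) (x : UnitAddCircle) : ‖1 - dir L x‖ ≤ L * tau x := by
  have hL' : (0 : ℝ) < L := by exact_mod_cast hL
  have hLc : (L : ℂ) ≠ 0 := by exact_mod_cast hL.ne'
  have h : 1 - dir L x = (1 / (L : ℂ)) * ∑ l ∈ Finset.range L, (1 - zz x ^ l) := by
    unfold dir
    rw [Finset.sum_sub_distrib]
    simp only [Finset.sum_const, Finset.card_range, nsmul_eq_mul, mul_one]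
    rw [mul_sub, one_div_mul_cancel hLc]
  rw [h, norm_mul]
  calc ‖1 / (L : ℂ)‖ * ‖∑ l ∈ Finset.range L, (1 - zz x ^ l)‖
      ≤ (1 / L) * ∑ l ∈ Finset.range L, ‖1 - zz x ^ l‖ := by
        gcongr
        · simp
        · exact norm_sum_le _ _
    _ ≤ (1 / L) * ∑ l ∈ Finset.range L, (L * tau x) := by
        gcongr with l hl
        refine (norm_one_sub_pow_le _ (norm_zz x) l).trans ?_
        have : (l : ℝ) ≤ L := by exact_mod_cast (Finset.mem_range.1 hl).le
        unfold tau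
        gcongr
    _ = L * tau x := by
        simp only [Finset.sum_const, Finset.card_range, nsmul_eq_mul]
        field_simp

lemma norm_pow_sub_pow_le {z w : ℂ} (hz : ‖z‖ = 1) (hw : ‖w‖ = 1) (l : ℕ) :
    ‖z ^ l - w ^ l‖ ≤ l * ‖z - w‖ := by
  induction l with
  | zero => simp
  | succ l ih =>
    have : z ^ (l + 1) - w ^ (l + 1) = (z ^ l - w ^ l) * z + w ^ l * (z - w) := by ring
    rw [this]
    calc ‖(z ^ l - w ^ l) * z + w ^ l * (z - w)‖
        ≤ ‖(z ^ l - w ^ l) * z‖ + ‖w ^ l * (z - w)‖ := norm_add_le _ _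
      _ = ‖z ^ l - w ^ l‖ + ‖z - w‖ := by
          rw [norm_mul, norm_mul, norm_pow, hz, hw]; ring
      _ ≤ l * ‖z - w‖ + ‖z - w‖ := by gcongr
      _ = (l + 1 : ℕ) * ‖z - w‖ := by push_cast; ring

lemma dir_lip {L : ℕ} (hL : 0 < L) (x y : UnitAddCircle) :
    ‖dir L x - dir L y‖ ≤ L * tau (x - y) := by
  have hL' : (0 : ℝ) < L := by exact_mod_cast hL
  have h : dir L x - dir L y = (1 / (L : ℂ)) * ∑ l ∈ Finset.range L, (zz x ^ l - zz y ^ l) := by
    unfold dir
    rw [Finset.sum_sub_distrib]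
    ring
  rw [h, norm_mul, tau_sub]
  calc ‖1 / (L : ℂ)‖ * ‖∑ l ∈ Finset.range L, (zz x ^ l - zz y ^ l)‖
      ≤ (1 / L) * ∑ l ∈ Finset.range L, ‖zz x ^ l - zz y ^ l‖ := by
        gcongr
        · simp
        · exact norm_sum_le _ _
    _ ≤ (1 / L) * ∑ l ∈ Finset.range L, (L * ‖zz x - zz y‖) := by
        gcongr with l hl
        refine (norm_pow_sub_pow_le (norm_zz x) (norm_zz y) l).trans ?_
        have : (l : ℝ) ≤ L := by exact_mod_cast (Finset.mem_range.1 hl).le
        gcongr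
    _ = L * ‖zz x - zz y‖ := by
        simp only [Finset.sum_const, Finset.card_range, nsmul_eq_mul]
        field_simp

/-- The coefficient sequence of `dir L`. -/
noncomputable def bc (L : ℕ) (n : ℤ) : ℂ := if 0 ≤ n ∧ n < L then 1 / (L : ℂ) else 0

lemma fourierCoeff_dir (L : ℕ) (n : ℤ) : fourierCoeff (dir L) n = bc L n := by
  have e1 : dir L = ∑ l ∈ Finset.range L, fun x => (1 / (L : ℂ)) * (1 * (fourier (l : ℤ) x : ℂ)) := by
    funext x
    rw [Finset.sum_apply]
    unfold dir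
    rw [Finset.mul_sum]
    apply Finset.sum_congr rfl
    intro l _
    rw [fourier_nat, one_mul]
  have hint : ∀ l ∈ Finset.range L, Integrable
      (fun x : UnitAddCircle => (1 / (L : ℂ)) * (1 * (fourier (l : ℤ) x : ℂ))) haarAddCircle := by
    intro l _
    exact (integrable_mul_fourier (integrable_const 1) (l : ℤ)).const_mul _
  rw [e1, fourierCoeff.sum _ _ hint, Finset.sum_apply]
  have e2 : ∀ l ∈ Finset.range L, fourierCoeff
      (fun x : UnitAddCircle => (1 / (L : ℂ)) * (1 * (fourier (l : ℤ) x : ℂ))) n =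
        if (l : ℤ) = n then 1 / (L : ℂ) else 0 := by
    intro l _
    rw [fourierCoeff.const_mul, fourierCoeff_mul_fourier, fourierCoeff_one]
    by_cases h : (l : ℤ) = n
    · rw [if_pos h, if_pos (by omega), mul_one]
    · rw [if_neg h, if_neg (by omega), mul_zero]
  rw [Finset.sum_congr rfl e2]
  unfold bc
  by_cases h : 0 ≤ n ∧ n < L
  · rw [if_pos h]
    obtain ⟨h1, h2⟩ := h
    obtain ⟨k, rfl⟩ := Int.eq_ofNat_of_zero_le h1
    rw [Finset.sum_eq_single k]
    · simp
    · intro l _ hl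
      rw [if_neg (by exact_mod_cast hl)]
    · intro hk
      exfalso
      apply hk
      rw [Finset.mem_range]
      exact_mod_cast h2
  · rw [if_neg h]
    apply Finset.sum_eq_zero
    intro l hl
    rw [if_neg]
    rintro rfl
    apply h
    exact ⟨by positivity, by exact_mod_cast Finset.mem_range.1 hl⟩

/-- The Fejér kernel centred at `x0`. -/
noncomputable def fej (M : ℕ) (x0 x : UnitAddCircle) : ℝ := M * ‖dir M (x - x0)‖ ^ 2

lemma fej_nonneg (M : ℕ) (x0 x : UnitAddCircle) : 0 ≤ fej M x0 x := by unfold fej; positivity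

lemma fej_cont (M : ℕ) (x0 : UnitAddCircle) : Continuous (fej M x0) := by
  unfold fej
  have := dir_cont M
  fun_prop

lemma fej_expand (M : ℕ) (x0 x : UnitAddCircle) :
    (fej M x0 x : ℂ) = ∑ a ∈ Finset.range M, ∑ b ∈ Finset.range M,
      (1 / (M : ℂ)) * ((fourier ((a : ℤ) - b) (-x0) : ℂ) * (fourier ((a : ℤ) - b) x : ℂ)) := by
  rcases Nat.eq_zero_or_pos M with rfl | hM
  · simp [fej]
  have hMc : (M : ℂ) ≠ 0 := by exact_mod_cast hM.ne'
  unfold fej
  have h1 : (((M : ℝ) * ‖dir M (x - x0)‖ ^ 2 : ℝ) : ℂ) =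
      M * (dir M (x - x0) * conj (dir M (x - x0))) := by
    rw [Complex.mul_conj, Complex.normSq_eq_norm_sq]
    push_cast
    ring
  rw [h1]
  have h2 : conj (dir M (x - x0)) = (1 / (M : ℂ)) * ∑ b ∈ Finset.range M, conj (zz (x - x0)) ^ b := by
    unfold dir
    rw [map_mul, map_sum]
    simp
  rw [h2]
  unfold dir
  rw [show (M : ℂ) * ((1 / (M : ℂ)) * (∑ l ∈ Finset.range M, zz (x - x0) ^ l) *
    ((1 / (M : ℂ)) * ∑ b ∈ Finset.range M, conj (zz (x - x0)) ^ b)) =
    (1 / (M : ℂ)) * ((∑ l ∈ Finset.range M, zz (x - x0) ^ l) *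
      ∑ b ∈ Finset.range M, conj (zz (x - x0)) ^ b) by field_simp]
  rw [Finset.sum_mul_sum, Finset.mul_sum]
  apply Finset.sum_congr rfl
  intro a _
  rw [Finset.mul_sum]
  apply Finset.sum_congr rfl
  intro b _
  congr 1
  have h3 : (fourier ((a : ℤ) - b) (-x0) : ℂ) * (fourier ((a : ℤ) - b) x : ℂ) =
      (fourier ((a : ℤ) - b) (x - x0) : ℂ) := by
    simp only [fourier_apply]
    rw [← Circle.coe_mul, ← toCircle_add, ← smul_add]
    congr 3
    abel
  have h4 : (fourier ((a : ℤ) - b) (x - x0) : ℂ) = (fourier ((a : ℤ) + -b) (x - x0) : ℂ) := by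
    rw [sub_eq_add_neg (a : ℤ)]
  rw [h3, h4, fourier_add, fourier_nat, fourier_neg, fourier_nat, map_pow]

/-- Integrating against a Fejér kernel. -/
lemma integral_mul_fej {G : UnitAddCircle → ℂ} (hG : Integrable G haarAddCircle) (M : ℕ)
    (x0 : UnitAddCircle) :
    ∫ x, G x * (fej M x0 x : ℂ) ∂haarAddCircle = ∑ a ∈ Finset.range M, ∑ b ∈ Finset.range M,
      (1 / (M : ℂ)) * ((fourier ((a : ℤ) - b) (-x0) : ℂ) * fourierCoeff G ((b : ℤ) - a)) := by
  have e : ∀ x, G x * (fej M x0 x : ℂ) = ∑ a ∈ Finset.range M, ∑ b ∈ Finset.range M,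
      (1 / (M : ℂ)) * ((fourier ((a : ℤ) - b) (-x0) : ℂ) * (G x * (fourier ((a : ℤ) - b) x : ℂ))) := by
    intro x
    rw [fej_expand, Finset.mul_sum]
    apply Finset.sum_congr rfl
    intro a _
    rw [Finset.mul_sum]
    apply Finset.sum_congr rfl
    intro b _
    ring
  have hint : ∀ a b : ℕ, Integrable (fun x => (1 / (M : ℂ)) *
      ((fourier ((a : ℤ) - b) (-x0) : ℂ) * (G x * (fourier ((a : ℤ) - b) x : ℂ)))) haarAddCircle := by
    intro a b
    exact ((integrable_mul_fourier hG _).const_mul _).const_mul _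
  simp only [e]
  rw [integral_finsetSum _ (fun a _ => integrable_finsetSum _ (fun b _ => hint a b))]
  apply Finset.sum_congr rfl
  intro a _
  rw [integral_finsetSum _ (fun b _ => hint a b)]
  apply Finset.sum_congr rfl
  intro b _
  rw [integral_const_mul, integral_const_mul]
  congr 2
  unfold fourierCoeff
  apply integral_congr_ae
  filter_upwards with x
  rw [neg_sub, smul_eq_mul, mul_comm]

lemma norm_integral_mul_fej_le {G : UnitAddCircle → ℂ} (hG : Integrable G haarAddCircle) {M : ℕ}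
    (hM : 0 < M) (x0 : UnitAddCircle) {δ : ℝ}
    (hδ : ∀ n : ℤ, |n| < M → ‖fourierCoeff G n‖ ≤ δ) :
    ‖∫ x, G x * (fej M x0 x : ℂ) ∂haarAddCircle‖ ≤ M * δ := by
  have hM' : (0 : ℝ) < M := by exact_mod_cast hM
  rw [integral_mul_fej hG]
  calc ‖∑ a ∈ Finset.range M, ∑ b ∈ Finset.range M,
      (1 / (M : ℂ)) * ((fourier ((a : ℤ) - b) (-x0) : ℂ) * fourierCoeff G ((b : ℤ) - a))‖
      ≤ ∑ a ∈ Finset.range M, ∑ b ∈ Finset.range M, ‖(1 / (M : ℂ)) *
        ((fourier ((a : ℤ) - b) (-x0) : ℂ) * fourierCoeff G ((b : ℤ) - a))‖ :=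
        (norm_sum_le _ _).trans (Finset.sum_le_sum fun a _ => norm_sum_le _ _)
    _ ≤ ∑ a ∈ Finset.range M, ∑ b ∈ Finset.range M, (1 / (M : ℝ)) * δ := by
        apply Finset.sum_le_sum
        intro a ha
        apply Finset.sum_le_sum
        intro b hb
        rw [norm_mul, norm_mul, norm_fourier, one_mul]
        have h1 : ‖1 / (M : ℂ)‖ = 1 / M := by simp
        rw [h1]
        gcongr
        apply hδ
        have ha' := Finset.mem_range.1 ha
        have hb' := Finset.mem_range.1 hb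
        rw [abs_lt]
        constructor <;> omega
    _ = M * δ := by
        simp only [Finset.sum_const, Finset.card_range, nsmul_eq_mul]
        field_simp

lemma integral_fej {M : ℕ} (hM : 0 < M) (x0 : UnitAddCircle) :
    ∫ x, fej M x0 x ∂haarAddCircle = 1 := by
  have hMc : (M : ℂ) ≠ 0 := by exact_mod_cast hM.ne'
  have h := integral_mul_fej (G := fun _ => 1) (integrable_const 1) M x0
  simp only [one_mul, fourierCoeff_one] at h
  have h2 : ∑ a ∈ Finset.range M, ∑ b ∈ Finset.range M,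
      (1 / (M : ℂ)) * ((fourier ((a : ℤ) - b) (-x0) : ℂ) * (if (b : ℤ) - a = 0 then 1 else 0)) = 1 := by
    have : ∀ a ∈ Finset.range M, ∑ b ∈ Finset.range M,
      (1 / (M : ℂ)) * ((fourier ((a : ℤ) - b) (-x0) : ℂ) * (if (b : ℤ) - a = 0 then 1 else 0)) =
        1 / (M : ℂ) := by
      intro a ha
      rw [Finset.sum_eq_single a]
      · simp
      · intro b _ hb
        rw [if_neg]
        · simp
        · intro h
          apply hb
          omega
      · intro h; exact absurd ha h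
    rw [Finset.sum_congr rfl this]
    simp only [Finset.sum_const, Finset.card_range, nsmul_eq_mul]
    field_simp
  rw [h2, integral_complex_ofReal] at h
  exact_mod_cast h

lemma integrable_fej (M : ℕ) (x0 : UnitAddCircle) : Integrable (fej M x0) haarAddCircle :=
  (fej_cont M x0).integrable_of_hasCompactSupport (HasCompactSupport.of_compactSpace _)

/-- The mass of the Fejér kernel away from its centre. -/
lemma fej_far {M : ℕ} (hM : 0 < M) {x0 x : UnitAddCircle} {ρ : ℝ} (hρ : 0 < ρ)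
    (h : ρ ≤ tau (x - x0)) : fej M x0 x ≤ 4 / (M * ρ ^ 2) := by
  have hM' : (0 : ℝ) < M := by exact_mod_cast hM
  have h1 := dir_decay hM (x - x0)
  have ht : 0 < tau (x - x0) := hρ.trans_le h
  have h2 : M * ρ * ‖dir M (x - x0)‖ ≤ 2 := by
    refine le_trans ?_ h1
    gcongr
  have h3 : (M * ρ * ‖dir M (x - x0)‖) ^ 2 ≤ 2 ^ 2 := by gcongr
  unfold fej
  rw [le_div_iff₀ (by positivity)]
  nlinarith

end Pool.Agent.Work.MP_bd9a46_an
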