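import Mathlib
import Pool.Agent.Work.MP_bd9a46_an.Defs

/-!
# Duality of `l^p` bounds for convolutions on the integers
-/

set_option autoImplicit false

open MeasureTheory
open scoped ENNReal NNReal

namespace Pool.Agent.Work.MP_bd9a46_an

namespace DualAux

theorem eLp_eq {p : ℝ} (hp : 1 < p) (f : ℤ → ℂ) :
    eLpNorm f (ENNReal.ofReal p) Measure.count = (∑' n, ‖f n‖ₑ ^ p) ^ (1 / p) := by
  have h0 : ENNReal.ofReal p ≠ 0 := by
    simp only [ne_eq, ENNReal.ofReal_eq_zero, not_le]; linarith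
  rw [eLpNorm_eq_lintegral_rpow_enorm_toReal h0 ENNReal.ofReal_ne_top, lintegral_count,
    ENNReal.toReal_ofReal (by linarith)]

/-- the dual weight -/
noncomputable def w (q : ℝ) (z : ℂ) : ℂ := (starRingEnd ℂ) z * ((‖z‖ ^ (q - 2) : ℝ) : ℂ)

theorem w_mul {q : ℝ} (hq : 1 < q) (z : ℂ) : w q z * z = ((‖z‖ ^ q : ℝ) : ℂ) := by
  unfold w
  by_cases hz : z = 0
  · subst hz
    simp [Real.zero_rpow (by linarith : q ≠ 0)]
  · have hz' : 0 < ‖z‖ := norm_pos_iff.2 hz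
    have h1 : (starRingEnd ℂ) z * z = ((‖z‖ ^ (2 : ℝ) : ℝ) : ℂ) := by
      rw [mul_comm, Complex.mul_conj, Complex.normSq_eq_norm_sq]
      norm_num
    calc (starRingEnd ℂ) z * ((‖z‖ ^ (q - 2) : ℝ) : ℂ) * z
        = ((starRingEnd ℂ) z * z) * ((‖z‖ ^ (q - 2) : ℝ) : ℂ) := by ring
      _ = ((‖z‖ ^ (2 : ℝ) : ℝ) : ℂ) * ((‖z‖ ^ (q - 2) : ℝ) : ℂ) := by rw [h1]
      _ = ((‖z‖ ^ q : ℝ) : ℂ) := by
          rw [← Complex.ofReal_mul, ← Real.rpow_add hz']
          ring_nf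

theorem norm_w {q : ℝ} (hq : 1 < q) (z : ℂ) : ‖w q z‖ = ‖z‖ ^ (q - 1) := by
  unfold w
  by_cases hz : z = 0
  · subst hz
    simp [Real.zero_rpow (by linarith : q - 1 ≠ 0)]
  · have hz' : 0 < ‖z‖ := norm_pos_iff.2 hz
    rw [norm_mul, RCLike.norm_conj, Complex.norm_real, Real.norm_eq_abs,
      abs_of_nonneg (by positivity)]
    nth_rewrite 1 [← Real.rpow_one ‖z‖]
    rw [← Real.rpow_add hz']
    ring_nf

theorem enorm_w {p q : ℝ} (hpq : p.HolderConjugate q) (z : ℂ) : ‖w q z‖ₑ ^ p = ‖z‖ₑ ^ q := by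
  have hp : 1 < p := hpq.lt
  have hq : 1 < q := hpq.symm.lt
  rw [← ofReal_norm (w q z), norm_w hq, ← ofReal_norm z,
    ENNReal.ofReal_rpow_of_nonneg (by positivity) (by linarith),
    ENNReal.ofReal_rpow_of_nonneg (by positivity) (by linarith), ← Real.rpow_mul (norm_nonneg z)]
  congr 2
  have := hpq.symm.sub_one_mul_conj
  exact this

theorem conv_eq_sum (K : ℤ → ℂ) (b : ℤ →₀ ℂ) (I : Finset ℤ) (hI : b.support ⊆ I) (n : ℤ) :
    conv K b n = ∑ m ∈ I, K (n - m) * b m := by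
  unfold conv
  rw [Finsupp.sum_of_support_subset b hI]
  intro m _; simp

theorem finite_bound {K : ℤ → ℂ} {C : ℝ≥0} {p q : ℝ} (hpq : p.HolderConjugate q)
    (h : ∀ c : ℤ →₀ ℂ, eLpNorm (conv K c) (ENNReal.ofReal p) Measure.count ≤
      C * eLpNorm (c : ℤ → ℂ) (ENNReal.ofReal p) Measure.count) (d : ℤ →₀ ℂ) (F : Finset ℤ) :
    ∑ n ∈ F, ‖conv K d n‖ₑ ^ q ≤ (C * (∑' n, ‖d n‖ₑ ^ q) ^ (1 / q)) *
      (∑ n ∈ F, ‖conv K d n‖ₑ ^ q) ^ (1 / p) := by
  have hp : 1 < p := hpq.lt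
  have hq : 1 < q := hpq.symm.lt
  set z : ℤ → ℂ := fun n => conv K d n with hz
  set c' : ℤ →₀ ℂ := Finsupp.indicator (F.image (fun n => -n)) (fun n _ => w q (z (-n))) with hc'
  have hc'v : ∀ n, c' n = if n ∈ F.image (fun n => -n) then w q (z (-n)) else 0 := by
    intro n
    rw [hc', Finsupp.indicator_apply]
    by_cases hn : n ∈ F.image (fun n => -n) <;> simp only [hn, dite_true, dite_false, if_true,
      if_false]
  have hinj : Set.InjOn (fun n : ℤ => -n) F := fun x _ y _ hxy => by simpa using hxy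
  have hconv : ∀ m, conv K c' (-m) = ∑ n ∈ F, K (n - m) * w q (z n) := by
    intro m
    rw [conv_eq_sum K c' (F.image (fun n => -n))]
    · rw [Finset.sum_image hinj]
      apply Finset.sum_congr rfl
      intro n hn
      rw [hc'v, if_pos (Finset.mem_image_of_mem _ hn), neg_neg,
        show -m - -n = n - m by ring]
    · intro n hn
      by_contra hcon
      apply Finsupp.mem_support_iff.1 hn
      rw [hc'v, if_neg hcon]
  -- the pairing identity
  have hpair : ∑ n ∈ F, w q (z n) * z n = ∑ m ∈ d.support, d m * conv K c' (-m) := by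
    have h1 : ∀ n, z n = ∑ m ∈ d.support, K (n - m) * d m := by
      intro n; exact conv_eq_sum K d d.support (Finset.Subset.refl _) n
    calc ∑ n ∈ F, w q (z n) * z n
        = ∑ n ∈ F, ∑ m ∈ d.support, w q (z n) * (K (n - m) * d m) := by
          apply Finset.sum_congr rfl
          intro n _
          nth_rewrite 2 [h1 n]
          rw [Finset.mul_sum]
      _ = ∑ m ∈ d.support, ∑ n ∈ F, w q (z n) * (K (n - m) * d m) := Finset.sum_comm
      _ = ∑ m ∈ d.support, d m * conv K c' (-m) := by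
          apply Finset.sum_congr rfl
          intro m _
          rw [hconv, Finset.mul_sum]
          apply Finset.sum_congr rfl
          intro n _; ring
  have hleft : ‖∑ n ∈ F, w q (z n) * z n‖ₑ = ∑ n ∈ F, ‖z n‖ₑ ^ q := by
    have h1 : ∑ n ∈ F, w q (z n) * z n = ((∑ n ∈ F, ‖z n‖ ^ q : ℝ) : ℂ) := by
      rw [Complex.ofReal_sum]
      exact Finset.sum_congr rfl (fun n _ => w_mul hq (z n))
    rw [h1, ← ofReal_norm, Complex.norm_real, Real.norm_eq_abs,
      abs_of_nonneg (Finset.sum_nonneg (fun n _ => by positivity)),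
      ENNReal.ofReal_sum_of_nonneg (fun n _ => by positivity)]
    apply Finset.sum_congr rfl
    intro n _
    rw [← ofReal_norm (z n), ENNReal.ofReal_rpow_of_nonneg (norm_nonneg _) (by linarith)]
  have hc'p : ∑' n, ‖c' n‖ₑ ^ p = ∑ n ∈ F, ‖z n‖ₑ ^ q := by
    rw [tsum_eq_sum (s := F.image (fun n => -n))]
    · rw [Finset.sum_image hinj]
      apply Finset.sum_congr rfl
      intro n hn
      rw [hc'v, if_pos (Finset.mem_image_of_mem _ hn), neg_neg, enorm_w hpq]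
    · intro n hn
      rw [hc'v, if_neg hn, enorm_zero, ENNReal.zero_rpow_of_pos (by linarith)]
  calc ∑ n ∈ F, ‖z n‖ₑ ^ q = ‖∑ m ∈ d.support, d m * conv K c' (-m)‖ₑ := by
        rw [← hleft, hpair]
    _ ≤ ∑ m ∈ d.support, ‖d m‖ₑ * ‖conv K c' (-m)‖ₑ := by
        refine (enorm_sum_le _ _).trans (le_of_eq ?_)
        exact Finset.sum_congr rfl (fun m _ => enorm_mul _ _)
    _ ≤ (∑ m ∈ d.support, ‖d m‖ₑ ^ q) ^ (1 / q) *
          (∑ m ∈ d.support, ‖conv K c' (-m)‖ₑ ^ p) ^ (1 / p) :=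
        ENNReal.inner_le_Lp_mul_Lq _ _ _ hpq.symm
    _ ≤ (∑' n, ‖d n‖ₑ ^ q) ^ (1 / q) * eLpNorm (conv K c') (ENNReal.ofReal p) Measure.count := by
        apply mul_le_mul'
        · exact ENNReal.rpow_le_rpow (ENNReal.sum_le_tsum _) (by positivity)
        · rw [eLp_eq hp]
          apply ENNReal.rpow_le_rpow _ (by positivity)
          calc ∑ m ∈ d.support, ‖conv K c' (-m)‖ₑ ^ p ≤ ∑' m : ℤ, ‖conv K c' (-m)‖ₑ ^ p :=
                ENNReal.sum_le_tsum _
            _ = ∑' m : ℤ, ‖conv K c' m‖ₑ ^ p :=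
                (Equiv.neg ℤ).tsum_eq (fun m => ‖conv K c' m‖ₑ ^ p)
    _ ≤ (∑' n, ‖d n‖ₑ ^ q) ^ (1 / q) *
          (C * eLpNorm (c' : ℤ → ℂ) (ENNReal.ofReal p) Measure.count) :=
        mul_le_mul' le_rfl (h c')
    _ = (C * (∑' n, ‖d n‖ₑ ^ q) ^ (1 / q)) * (∑ n ∈ F, ‖z n‖ₑ ^ q) ^ (1 / p) := by
        rw [eLp_eq hp, hc'p]; ring

end DualAux

open DualAux in
theorem dual {K : ℤ → ℂ} {C : ℝ≥0} {p q : ℝ} (hpq : p.HolderConjugate q)
    (h : ∀ c : ℤ →₀ ℂ, eLpNorm (conv K c) (ENNReal.ofReal p) Measure.count ≤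
      C * eLpNorm (c : ℤ → ℂ) (ENNReal.ofReal p) Measure.count) :
    ∀ c : ℤ →₀ ℂ, eLpNorm (conv K c) (ENNReal.ofReal q) Measure.count ≤
      C * eLpNorm (c : ℤ → ℂ) (ENNReal.ofReal q) Measure.count := by
  intro d
  have hp : 1 < p := hpq.lt
  have hq : 1 < q := hpq.symm.lt
  rw [eLp_eq hq, eLp_eq hq]
  set R : ℝ≥0∞ := C * (∑' n, ‖d n‖ₑ ^ q) ^ (1 / q) with hR
  have hfin : ∀ F : Finset ℤ, ∑ n ∈ F, ‖conv K d n‖ₑ ^ q ≤ R ^ q := by
    intro F
    have h1 := finite_bound hpq h d F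
    set X := ∑ n ∈ F, ‖conv K d n‖ₑ ^ q with hX
    have hXtop : X ≠ ∞ := by
      rw [hX]
      apply (ENNReal.sum_lt_top.2 (fun n _ => ?_)).ne
      exact ENNReal.rpow_lt_top_of_nonneg (by linarith) enorm_ne_top
    by_cases hX0 : X = 0
    · rw [hX0]; exact zero_le
    · have hXp0 : X ^ (1 / p) ≠ 0 := by
        rw [Ne, ENNReal.rpow_eq_zero_iff]
        push Not
        exact ⟨fun h => absurd h hX0, fun h => absurd h hXtop⟩
      have hXpt : X ^ (1 / p) ≠ ∞ := ENNReal.rpow_ne_top_of_nonneg (by positivity) hXtop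
      have h2 : X ^ (1 / q) ≤ R := by
        have h3 : X ^ (1 / q) * X ^ (1 / p) ≤ R * X ^ (1 / p) := by
          rw [← ENNReal.rpow_add _ _ hX0 hXtop]
          have : 1 / q + 1 / p = 1 := by
            have := hpq.inv_add_inv_eq_one
            rw [one_div, one_div]; linarith
          rw [this, ENNReal.rpow_one]
          exact h1
        exact (ENNReal.mul_le_mul_iff_left hXp0 hXpt).1 h3
      calc X = (X ^ (1 / q)) ^ q := by
            rw [← ENNReal.rpow_mul, one_div, inv_mul_cancel₀ (by linarith), ENNReal.rpow_one]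
        _ ≤ R ^ q := ENNReal.rpow_le_rpow h2 (by linarith)
  have htot : ∑' n, ‖conv K d n‖ₑ ^ q ≤ R ^ q := by
    rw [ENNReal.tsum_eq_iSup_sum]
    exact iSup_le hfin
  calc (∑' n, ‖conv K d n‖ₑ ^ q) ^ (1 / q) ≤ (R ^ q) ^ (1 / q) :=
        ENNReal.rpow_le_rpow htot (by positivity)
    _ = R := by
        rw [← ENNReal.rpow_mul, mul_one_div, div_self (by linarith), ENNReal.rpow_one]

end Pool.Agent.Work.MP_bd9a46_an
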