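import Mathlib
import Pool.Agent.Work.MP_bd9a46_an.Defs

/-!
# Marcinkiewicz interpolation for a convolution operator on `ℤ`

A convolution operator which is bounded on `ℓ²` and of weak type `(1,1)` is bounded on `ℓᵖ` for
`1 < p < 2`.
-/

set_option autoImplicit false

open MeasureTheory Set
open scoped ENNReal NNReal

namespace Pool.Agent.Work.MP_bd9a46_an

theorem conv_add_fun (K : ℤ → ℂ) (c d : ℤ →₀ ℂ) (n : ℤ) :
    conv K (c + d) n = conv K c n + conv K d n := by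
  unfold conv
  rw [Finsupp.sum_add_index']
  · intro m; simp
  · intro m a b; ring

/-- The `q`-th power sum of a finitely supported sequence. -/
theorem lintegral_finsupp_rpow (c : ℤ →₀ ℂ) {q : ℝ} (hq : 0 < q) :
    ∫⁻ n, ‖c n‖ₑ ^ q ∂(Measure.count : Measure ℤ) = ∑ m ∈ c.support, ‖c m‖ₑ ^ q := by
  rw [lintegral_count, tsum_eq_sum]
  intro m hm
  rw [Finsupp.notMem_support_iff] at hm
  rw [hm]
  simp [hq]

/-- The integral `∫_a^∞ t^{p-3} dt`. -/
theorem lintegral_tail {a p : ℝ} (ha : 0 < a) (hp2 : p < 2) :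
    ∫⁻ t in Ioi (0 : ℝ), (if a ≤ t then ENNReal.ofReal (t ^ (p - 3)) else 0) =
      ENNReal.ofReal (a ^ (p - 2) / (2 - p)) := by
  have h1 : ∫⁻ t in Ioi (0 : ℝ), (if a ≤ t then ENNReal.ofReal (t ^ (p - 3)) else 0) =
      ∫⁻ t in Ici a, ENNReal.ofReal (t ^ (p - 3)) := by
    rw [← lintegral_indicator measurableSet_Ioi, ← lintegral_indicator measurableSet_Ici]
    congr 1
    funext t
    by_cases h : a ≤ t
    · have h0 : (0 : ℝ) < t := lt_of_lt_of_le ha h
      simp [Set.indicator, h, h0]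
    · simp [Set.indicator, h]
  rw [h1, setLIntegral_congr (Ioi_ae_eq_Ici' (by simp)).symm]
  have hlt : p - 3 < -1 := by linarith
  have hint := integrableOn_Ioi_rpow_of_lt hlt ha
  rw [← ofReal_integral_eq_lintegral_ofReal hint]
  · rw [integral_Ioi_rpow_of_lt hlt ha]
    congr 1
    have h2 : p - 3 + 1 = p - 2 := by ring
    rw [h2]
    have : (2 : ℝ) - p ≠ 0 := by linarith
    have h3 : p - 2 ≠ 0 := by intro h; linarith
    field_simp
    ring
  · rw [Filter.EventuallyLE, ae_restrict_iff' measurableSet_Ioi]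
    refine Filter.Eventually.of_forall fun t ht => ?_
    exact Real.rpow_nonneg (le_of_lt (lt_trans ha ht)) _

/-- The integral `∫_0^a t^{p-2} dt`. -/
theorem lintegral_head {a p : ℝ} (ha : 0 < a) (hp1 : 1 < p) :
    ∫⁻ t in Ioi (0 : ℝ), (if t < a then ENNReal.ofReal (t ^ (p - 2)) else 0) =
      ENNReal.ofReal (a ^ (p - 1) / (p - 1)) := by
  have h1 : ∫⁻ t in Ioi (0 : ℝ), (if t < a then ENNReal.ofReal (t ^ (p - 2)) else 0) =
      ∫⁻ t in Ioo 0 a, ENNReal.ofReal (t ^ (p - 2)) := by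
    rw [← lintegral_indicator measurableSet_Ioi, ← lintegral_indicator measurableSet_Ioo]
    congr 1
    funext t
    by_cases h : t < a <;> by_cases h0 : 0 < t <;> simp [Set.indicator, h, h0]
  rw [h1, setLIntegral_congr Ioo_ae_eq_Ioc]
  have hlt : -1 < p - 2 := by linarith
  have hint : IntegrableOn (fun t : ℝ => t ^ (p - 2)) (Ioc 0 a) := by
    have := intervalIntegral.intervalIntegrable_rpow' (a := 0) (b := a) hlt
    rwa [intervalIntegrable_iff_integrableOn_Ioc_of_le ha.le] at this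
  rw [← ofReal_integral_eq_lintegral_ofReal hint]
  · rw [← intervalIntegral.integral_of_le ha.le, integral_rpow (Or.inl hlt)]
    congr 1
    have h2 : p - 2 + 1 = p - 1 := by ring
    rw [h2, Real.zero_rpow (by intro h; linarith), sub_zero]
  · rw [Filter.EventuallyLE, ae_restrict_iff' measurableSet_Ioc]
    refine Filter.Eventually.of_forall fun t ht => ?_
    exact Real.rpow_nonneg ht.1.le _

/-- The weak type estimate for the part of `c` with `‖c m‖ ≤ t`. -/
theorem meas_low {K : ℤ → ℂ} {A : ℝ≥0}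
    (h2 : ∀ c : ℤ →₀ ℂ, eLpNorm (conv K c) 2 Measure.count ≤ A * eLpNorm (c : ℤ → ℂ) 2 Measure.count)
    (c : ℤ →₀ ℂ) {t : ℝ} (ht : 0 < t) :
    (Measure.count : Measure ℤ) {n : ℤ | t < ‖conv K c n‖} ≤
      (A : ℝ≥0∞) ^ 2 * ENNReal.ofReal (t ^ (-2 : ℝ)) * ∑ m ∈ c.support, ‖c m‖ₑ ^ (2 : ℝ) := by
  have hch := mul_meas_ge_le_lintegral (μ := (Measure.count : Measure ℤ))
    (f := fun n => ‖conv K c n‖ₑ ^ (2 : ℝ)) (measurable_of_countable _) (ENNReal.ofReal t ^ (2 : ℝ))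
  have hsub : {n : ℤ | t < ‖conv K c n‖} ⊆
      {n : ℤ | ENNReal.ofReal t ^ (2 : ℝ) ≤ ‖conv K c n‖ₑ ^ (2 : ℝ)} := by
    intro n hn
    have h1 : t < ‖conv K c n‖ := hn
    show ENNReal.ofReal t ^ (2 : ℝ) ≤ ‖conv K c n‖ₑ ^ (2 : ℝ)
    apply ENNReal.rpow_le_rpow _ (by norm_num)
    rw [← ofReal_norm]
    exact ENNReal.ofReal_le_ofReal h1.le
  have hA : ∫⁻ n, ‖conv K c n‖ₑ ^ (2 : ℝ) ∂(Measure.count : Measure ℤ) ≤
      (A : ℝ≥0∞) ^ 2 * ∑ m ∈ c.support, ‖c m‖ₑ ^ (2 : ℝ) := by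
    have h := h2 c
    rw [eLpNorm_eq_lintegral_rpow_enorm_toReal (by norm_num) (by norm_num),
      eLpNorm_eq_lintegral_rpow_enorm_toReal (by norm_num) (by norm_num)] at h
    simp only [ENNReal.toReal_ofNat] at h
    rw [lintegral_finsupp_rpow c (by norm_num : (0 : ℝ) < 2)] at h
    have h' := ENNReal.rpow_le_rpow h (by norm_num : (0 : ℝ) ≤ 2)
    rw [← ENNReal.rpow_mul, ENNReal.mul_rpow_of_nonneg _ _ (by norm_num : (0 : ℝ) ≤ 2),
      ← ENNReal.rpow_mul] at h'
    norm_num at h'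
    simpa using h'
  have h3 : ENNReal.ofReal t ^ (2 : ℝ) * (Measure.count : Measure ℤ) {n : ℤ | t < ‖conv K c n‖} ≤
      (A : ℝ≥0∞) ^ 2 * ∑ m ∈ c.support, ‖c m‖ₑ ^ (2 : ℝ) :=
    le_trans (mul_le_mul_right (measure_mono hsub) _) (le_trans hch hA)
  have h4 : ENNReal.ofReal (t ^ (-2 : ℝ)) * ENNReal.ofReal t ^ (2 : ℝ) = 1 := by
    rw [ENNReal.ofReal_rpow_of_pos ht, ← ENNReal.ofReal_mul (by positivity), ← Real.rpow_add ht]
    norm_num
  calc (Measure.count : Measure ℤ) {n : ℤ | t < ‖conv K c n‖}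
      = ENNReal.ofReal (t ^ (-2 : ℝ)) * (ENNReal.ofReal t ^ (2 : ℝ) *
          (Measure.count : Measure ℤ) {n : ℤ | t < ‖conv K c n‖}) := by
        rw [← mul_assoc, h4, one_mul]
    _ ≤ ENNReal.ofReal (t ^ (-2 : ℝ)) *
          ((A : ℝ≥0∞) ^ 2 * ∑ m ∈ c.support, ‖c m‖ₑ ^ (2 : ℝ)) := by gcongr
    _ = _ := by ring

/-- The weak type estimate for the part of `c` with `t < ‖c m‖`. -/
theorem meas_high {K : ℤ → ℂ} {W : ℝ≥0}
    (h1 : ∀ c : ℤ →₀ ℂ, ∀ t : ℝ≥0, 0 < t →
      (t : ℝ≥0∞) * Measure.count {n : ℤ | t < ‖conv K c n‖₊} ≤ W * ∑ m ∈ c.support, ‖c m‖ₑ)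
    (c : ℤ →₀ ℂ) {t : ℝ} (ht : 0 < t) :
    (Measure.count : Measure ℤ) {n : ℤ | t < ‖conv K c n‖} ≤
      (W : ℝ≥0∞) * ENNReal.ofReal (t ^ (-1 : ℝ)) * ∑ m ∈ c.support, ‖c m‖ₑ := by
  have h := h1 c t.toNNReal (Real.toNNReal_pos.mpr ht)
  have hset : {n : ℤ | t.toNNReal < ‖conv K c n‖₊} = {n : ℤ | t < ‖conv K c n‖} := by
    ext n
    change t.toNNReal < ‖conv K c n‖₊ ↔ t < ‖conv K c n‖
    rw [← NNReal.coe_lt_coe, Real.coe_toNNReal _ ht.le, coe_nnnorm]
  have hco : (t.toNNReal : ℝ≥0∞) = ENNReal.ofReal t := rfl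
  rw [hset, hco] at h
  have h4 : ENNReal.ofReal (t ^ (-1 : ℝ)) * ENNReal.ofReal t = 1 := by
    rw [← ENNReal.ofReal_mul (by positivity), Real.rpow_neg_one, inv_mul_cancel₀ ht.ne']
    simp
  calc (Measure.count : Measure ℤ) {n : ℤ | t < ‖conv K c n‖}
      = ENNReal.ofReal (t ^ (-1 : ℝ)) * (ENNReal.ofReal t *
          (Measure.count : Measure ℤ) {n : ℤ | t < ‖conv K c n‖}) := by
        rw [← mul_assoc, h4, one_mul]
    _ ≤ ENNReal.ofReal (t ^ (-1 : ℝ)) * (W * ∑ m ∈ c.support, ‖c m‖ₑ) := by gcongr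
    _ = _ := by ring

/-- The sum over the support of a filtered sequence. -/
theorem sum_filter_support (c : ℤ →₀ ℂ) (P : ℤ → Prop) [DecidablePred P] {q : ℝ} :
    ∑ m ∈ (c.filter P).support, ‖(c.filter P) m‖ₑ ^ q =
      ∑ m ∈ c.support, if P m then ‖c m‖ₑ ^ q else 0 := by
  rw [Finsupp.support_filter, Finset.sum_filter]
  apply Finset.sum_congr rfl
  intro m hm
  by_cases h : P m
  · simp [h]
  · simp [h]

/-- The combined estimate of the distribution function. -/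
theorem meas_both {K : ℤ → ℂ} {A W : ℝ≥0}
    (h2 : ∀ c : ℤ →₀ ℂ, eLpNorm (conv K c) 2 Measure.count ≤ A * eLpNorm (c : ℤ → ℂ) 2 Measure.count)
    (h1 : ∀ c : ℤ →₀ ℂ, ∀ t : ℝ≥0, 0 < t →
      (t : ℝ≥0∞) * Measure.count {n : ℤ | t < ‖conv K c n‖₊} ≤ W * ∑ m ∈ c.support, ‖c m‖ₑ)
    (c : ℤ →₀ ℂ) {t : ℝ} (ht : 0 < t) :
    (Measure.count : Measure ℤ) {n : ℤ | t < ‖conv K c n‖ / 2} ≤
      (A : ℝ≥0∞) ^ 2 * ENNReal.ofReal (t ^ (-2 : ℝ)) *
        (∑ m ∈ c.support, if ‖c m‖ ≤ t then ‖c m‖ₑ ^ (2 : ℝ) else 0) +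
      (W : ℝ≥0∞) * ENNReal.ofReal (t ^ (-1 : ℝ)) *
        (∑ m ∈ c.support, if t < ‖c m‖ then ‖c m‖ₑ else 0) := by
  classical
  set c1 := c.filter fun m => ‖c m‖ ≤ t with hc1
  set c2 := c.filter fun m => ¬ ‖c m‖ ≤ t with hc2
  have hadd : c1 + c2 = c := Finsupp.filter_add_filter_not _ _
  have hsub : {n : ℤ | t < ‖conv K c n‖ / 2} ⊆
      {n : ℤ | t < ‖conv K c1 n‖} ∪ {n : ℤ | t < ‖conv K c2 n‖} := by
    intro n hn
    have hn' : t < ‖conv K c n‖ / 2 := hn
    by_contra hcon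
    simp only [mem_union, mem_ofPred_eq, not_or, not_lt] at hcon
    have h3 : ‖conv K c n‖ ≤ ‖conv K c1 n‖ + ‖conv K c2 n‖ := by
      rw [← hadd, conv_add_fun]
      exact norm_add_le _ _
    linarith [hcon.1, hcon.2]
  refine le_trans (measure_mono hsub) (le_trans (measure_union_le _ _) ?_)
  apply add_le_add
  · refine le_trans (meas_low h2 c1 ht) (le_of_eq ?_)
    rw [hc1, sum_filter_support]
  · refine le_trans (meas_high h1 c2 ht) (le_of_eq ?_)
    congr 1
    have := sum_filter_support c (fun m => ¬ ‖c m‖ ≤ t) (q := 1)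
    simp only [ENNReal.rpow_one, not_le] at this
    rw [hc2]
    simp only [not_le]
    exact this

theorem marc {K : ℤ → ℂ} {A W : ℝ≥0}
    (h2 : ∀ c : ℤ →₀ ℂ, eLpNorm (conv K c) 2 Measure.count ≤ A * eLpNorm (c : ℤ → ℂ) 2 Measure.count)
    (h1 : ∀ c : ℤ →₀ ℂ, ∀ t : ℝ≥0, 0 < t →
      (t : ℝ≥0∞) * Measure.count {n : ℤ | t < ‖conv K c n‖₊} ≤ W * ∑ m ∈ c.support, ‖c m‖ₑ)
    {p : ℝ} (hp1 : 1 < p) (hp2 : p < 2) :
    ∃ C : ℝ≥0, ∀ c : ℤ →₀ ℂ, eLpNorm (conv K c) (ENNReal.ofReal p) Measure.count ≤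
      C * eLpNorm (c : ℤ → ℂ) (ENNReal.ofReal p) Measure.count := by
  have hp0 : 0 < p := by linarith
  set D : ℝ≥0 := Real.toNNReal (2 ^ p * p) * (A ^ 2 * Real.toNNReal (1 / (2 - p)) +
    W * Real.toNNReal (1 / (p - 1))) with hD
  have key : ∀ c : ℤ →₀ ℂ, ∫⁻ n, ‖conv K c n‖ₑ ^ p ∂(Measure.count : Measure ℤ) ≤
      D * ∑ m ∈ c.support, ‖c m‖ₑ ^ p := by
    intro c
    have e1 : ∫⁻ n, ‖conv K c n‖ₑ ^ p ∂(Measure.count : Measure ℤ) =
        ENNReal.ofReal (2 ^ p) *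
          ∫⁻ n, ENNReal.ofReal ((‖conv K c n‖ / 2) ^ p) ∂(Measure.count : Measure ℤ) := by
      rw [← lintegral_const_mul _ (measurable_of_countable _)]
      congr 1
      funext n
      rw [← ENNReal.ofReal_mul (by positivity), ← Real.mul_rpow (by norm_num) (by positivity),
        mul_div_cancel₀ _ (by norm_num : (2 : ℝ) ≠ 0), ← ofReal_norm,
        ENNReal.ofReal_rpow_of_nonneg (norm_nonneg _) hp0.le]
    have e2 := lintegral_rpow_eq_lintegral_meas_lt_mul (μ := (Measure.count : Measure ℤ))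
      (f := fun n => ‖conv K c n‖ / 2) (Filter.Eventually.of_forall fun n => by positivity)
      (measurable_of_countable _).aemeasurable hp0
    have e3 : ∫⁻ t in Ioi (0 : ℝ), (Measure.count : Measure ℤ) {n : ℤ | t < ‖conv K c n‖ / 2} *
        ENNReal.ofReal (t ^ (p - 1)) ≤
        ∫⁻ t in Ioi (0 : ℝ), ((A : ℝ≥0∞) ^ 2 *
          (∑ m ∈ c.support, ‖c m‖ₑ ^ (2 : ℝ) *
            if ‖c m‖ ≤ t then ENNReal.ofReal (t ^ (p - 3)) else 0) +
          (W : ℝ≥0∞) * (∑ m ∈ c.support, ‖c m‖ₑ *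
            if t < ‖c m‖ then ENNReal.ofReal (t ^ (p - 2)) else 0)) := by
      apply setLIntegral_mono' measurableSet_Ioi
      intro t ht
      have ht0 : 0 < t := ht
      refine le_trans (mul_le_mul_left (meas_both h2 h1 c ht0) _) (le_of_eq ?_)
      have r1 : ENNReal.ofReal (t ^ (p - 3)) =
          ENNReal.ofReal (t ^ (-2 : ℝ)) * ENNReal.ofReal (t ^ (p - 1)) := by
        rw [← ENNReal.ofReal_mul (by positivity), ← Real.rpow_add ht0]
        congr 2
        ring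
      have r2 : ENNReal.ofReal (t ^ (p - 2)) =
          ENNReal.ofReal (t ^ (-1 : ℝ)) * ENNReal.ofReal (t ^ (p - 1)) := by
        rw [← ENNReal.ofReal_mul (by positivity), ← Real.rpow_add ht0]
        congr 2
        ring
      rw [add_mul]
      congr 1
      · rw [mul_assoc, mul_assoc]
        congr 1
        rw [mul_comm (∑ m ∈ c.support, _) (ENNReal.ofReal (t ^ (p - 1))), ← mul_assoc, ← r1,
          Finset.mul_sum]
        apply Finset.sum_congr rfl
        intro m _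
        split_ifs
        · rw [mul_comm]
        · simp
      · rw [mul_assoc, mul_assoc]
        congr 1
        rw [mul_comm (∑ m ∈ c.support, _) (ENNReal.ofReal (t ^ (p - 1))), ← mul_assoc, ← r2,
          Finset.mul_sum]
        apply Finset.sum_congr rfl
        intro m _
        split_ifs
        · rw [mul_comm]
        · simp
    have m1 : ∀ m : ℤ, Measurable fun t : ℝ =>
        ‖c m‖ₑ ^ (2 : ℝ) * if ‖c m‖ ≤ t then ENNReal.ofReal (t ^ (p - 3)) else 0 := by
      intro m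
      apply Measurable.const_mul
      exact Measurable.ite measurableSet_Ici (by fun_prop) measurable_const
    have m2 : ∀ m : ℤ, Measurable fun t : ℝ =>
        ‖c m‖ₑ * if t < ‖c m‖ then ENNReal.ofReal (t ^ (p - 2)) else 0 := by
      intro m
      apply Measurable.const_mul
      exact Measurable.ite measurableSet_Iio (by fun_prop) measurable_const
    have e4 : ∫⁻ t in Ioi (0 : ℝ), ((A : ℝ≥0∞) ^ 2 *
          (∑ m ∈ c.support, ‖c m‖ₑ ^ (2 : ℝ) *
            if ‖c m‖ ≤ t then ENNReal.ofReal (t ^ (p - 3)) else 0) +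
          (W : ℝ≥0∞) * (∑ m ∈ c.support, ‖c m‖ₑ *
            if t < ‖c m‖ then ENNReal.ofReal (t ^ (p - 2)) else 0)) =
        ((A : ℝ≥0∞) ^ 2 * ENNReal.ofReal (1 / (2 - p)) + W * ENNReal.ofReal (1 / (p - 1))) *
          ∑ m ∈ c.support, ‖c m‖ₑ ^ p := by
      rw [lintegral_add_left (Measurable.const_mul (Finset.measurable_sum _ fun m _ => m1 m) _),
        lintegral_const_mul _ (Finset.measurable_sum _ fun m _ => m1 m),
        lintegral_const_mul _ (Finset.measurable_sum _ fun m _ => m2 m),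
        lintegral_finsetSum _ fun m _ => m1 m, lintegral_finsetSum _ fun m _ => m2 m, add_mul]
      congr 1
      · rw [mul_assoc]
        congr 1
        rw [Finset.mul_sum]
        apply Finset.sum_congr rfl
        intro m hm
        have hm0 : c m ≠ 0 := Finsupp.mem_support_iff.mp hm
        have hpos : 0 < ‖c m‖ := norm_pos_iff.mpr hm0
        rw [lintegral_const_mul _ (Measurable.ite measurableSet_Ici (by fun_prop)
          measurable_const), lintegral_tail hpos hp2, ← ofReal_norm,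
          ENNReal.ofReal_rpow_of_pos hpos, ENNReal.ofReal_rpow_of_pos hpos,
          ← ENNReal.ofReal_mul (by positivity), ← ENNReal.ofReal_mul (by
            apply div_nonneg <;> linarith)]
        congr 1
        rw [show p - 2 = p + (-2) by ring, Real.rpow_add hpos, Real.rpow_neg hpos.le]
        have : ‖c m‖ ^ (2 : ℝ) ≠ 0 := by positivity
        have h2p : 2 - p ≠ 0 := by intro h; linarith
        field_simp
      · rw [mul_assoc]
        congr 1
        rw [Finset.mul_sum]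
        apply Finset.sum_congr rfl
        intro m hm
        have hm0 : c m ≠ 0 := Finsupp.mem_support_iff.mp hm
        have hpos : 0 < ‖c m‖ := norm_pos_iff.mpr hm0
        rw [lintegral_const_mul _ (Measurable.ite measurableSet_Iio (by fun_prop)
          measurable_const), lintegral_head hpos hp1, ← ofReal_norm,
          ENNReal.ofReal_rpow_of_pos hpos,
          ← ENNReal.ofReal_mul (by positivity), ← ENNReal.ofReal_mul (by
            apply div_nonneg <;> linarith)]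
        congr 1
        rw [Real.rpow_sub hpos, Real.rpow_one]
        have h2p : p - 1 ≠ 0 := by intro h; linarith
        field_simp
    rw [e1, e2]
    calc ENNReal.ofReal (2 ^ p) * (ENNReal.ofReal p *
          ∫⁻ t in Ioi (0 : ℝ), (Measure.count : Measure ℤ) {n : ℤ | t < ‖conv K c n‖ / 2} *
            ENNReal.ofReal (t ^ (p - 1)))
        ≤ ENNReal.ofReal (2 ^ p) * (ENNReal.ofReal p *
          (((A : ℝ≥0∞) ^ 2 * ENNReal.ofReal (1 / (2 - p)) + W * ENNReal.ofReal (1 / (p - 1))) *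
          ∑ m ∈ c.support, ‖c m‖ₑ ^ p)) := by
          gcongr
          exact le_trans e3 (le_of_eq e4)
      _ = D * ∑ m ∈ c.support, ‖c m‖ₑ ^ p := by
          rw [hD, ENNReal.coe_mul, ENNReal.coe_add, ENNReal.coe_mul, ENNReal.coe_mul,
            ENNReal.coe_pow]
          change _ = ENNReal.ofReal (2 ^ p * p) * ((A : ℝ≥0∞) ^ 2 * ENNReal.ofReal (1 / (2 - p)) +
            W * ENNReal.ofReal (1 / (p - 1))) * _
          rw [ENNReal.ofReal_mul (by positivity)]
          ring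
  refine ⟨D ^ (1 / p), fun c => ?_⟩
  have hp0' : ENNReal.ofReal p ≠ 0 := by simp [hp0]
  rw [eLpNorm_eq_lintegral_rpow_enorm_toReal hp0' ENNReal.ofReal_ne_top,
    eLpNorm_eq_lintegral_rpow_enorm_toReal hp0' ENNReal.ofReal_ne_top,
    ENNReal.toReal_ofReal hp0.le, lintegral_finsupp_rpow c hp0,
    ENNReal.coe_rpow_of_nonneg _ (by positivity), ← ENNReal.mul_rpow_of_nonneg _ _ (by positivity)]
  exact ENNReal.rpow_le_rpow (key c) (by positivity)

end Pool.Agent.Work.MP_bd9a46_an
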