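import Mathlib
import Pool.Agent.Work.MP_bd9a46_an.Defs

/-!
# Weak type (1,1) of a Calderon-Zygmund convolution on the integers
-/

set_option autoImplicit false

open MeasureTheory
open scoped ENNReal NNReal

namespace Pool.Agent.Work.MP_bd9a46_an

namespace WeakOne

/-- the `l^1` norm -/
noncomputable def N1 (c : ℤ →₀ ℂ) : ℝ≥0∞ := ∑' m : ℤ, ‖c m‖ₑ

theorem N1_eq_sum (c : ℤ →₀ ℂ) : N1 c = ∑ m ∈ c.support, ‖c m‖ₑ := by
  unfold N1
  apply tsum_eq_sum
  intro m hm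
  rw [Finsupp.notMem_support_iff.1 hm]; simp

theorem N1_add_le (c c' : ℤ →₀ ℂ) : N1 (c + c') ≤ N1 c + N1 c' := by
  unfold N1
  rw [← ENNReal.tsum_add]
  exact ENNReal.tsum_le_tsum (fun m => by rw [Finsupp.add_apply]; exact enorm_add_le _ _)

theorem conv_add (K : ℤ → ℂ) (b b' : ℤ →₀ ℂ) (n : ℤ) :
    conv K (b + b') n = conv K b n + conv K b' n := by
  unfold conv
  rw [Finsupp.sum_add_index']
  · intro m; simp
  · intro m x y; ring

theorem conv_zero (K : ℤ → ℂ) (n : ℤ) : conv K 0 n = 0 := by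
  unfold conv; simp

theorem conv_eq_sum (K : ℤ → ℂ) (b : ℤ →₀ ℂ) (I : Finset ℤ) (hI : b.support ⊆ I) (n : ℤ) :
    conv K b n = ∑ m ∈ I, K (n - m) * b m := by
  unfold conv
  rw [Finsupp.sum_of_support_subset b hI]
  intro m _; simp

/-- bad intervals -/
theorem bad_interval {K : ℤ → ℂ} {B : ℝ≥0}
    (hB : ∀ y : ℤ, ∑' n : ℤ, (if 2 * |y| ≤ |n| then ‖K (n - y) - K n‖ₑ else 0) ≤ B)
    (a : ℤ) (L : ℕ) (hL : 1 ≤ L) (b : ℤ →₀ ℂ) (hb : b.support ⊆ Finset.Ico a (a + L))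
    (h0 : ∑ m ∈ Finset.Ico a (a + L), b m = 0) :
    ∑' n : ℤ, (if n ∈ Finset.Ioo (a - 2 * L) (a + 2 * L) then 0 else ‖conv K b n‖ₑ) ≤
      B * N1 b := by
  set I := Finset.Ico a (a + (L : ℤ)) with hI
  have hconv : ∀ n, conv K b n = ∑ m ∈ I, (K (n - m) - K (n - a)) * b m := by
    intro n
    rw [conv_eq_sum K b I hb n]
    have : ∑ m ∈ I, (K (n - m) - K (n - a)) * b m =
        ∑ m ∈ I, K (n - m) * b m - K (n - a) * ∑ m ∈ I, b m := by
      rw [Finset.mul_sum, ← Finset.sum_sub_distrib]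
      apply Finset.sum_congr rfl
      intro m _; ring
    rw [this, h0]; ring
  have hone : ∀ m ∈ I, ∑' n : ℤ, (if n ∈ Finset.Ioo (a - 2 * L) (a + 2 * L) then 0 else
      ‖K (n - m) - K (n - a)‖ₑ) ≤ B := by
    intro m hm
    rw [hI, Finset.mem_Ico] at hm
    refine le_trans ?_ (hB (m - a))
    rw [← (Equiv.addRight a).tsum_eq]
    apply ENNReal.tsum_le_tsum
    intro n
    simp only [Equiv.coe_addRight, Finset.mem_Ioo]
    by_cases h1 : a - 2 * (L : ℤ) < n + a ∧ n + a < a + 2 * (L : ℤ)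
    · rw [if_pos h1]; exact zero_le
    · rw [if_neg h1, if_pos]
      · rw [show n + a - m = n - (m - a) by ring, show n + a - a = n by ring]
      · have h2 : |m - a| = m - a := abs_of_nonneg (by omega)
        rw [h2]
        rcases abs_cases n with ⟨h3, h4⟩ | ⟨h3, h4⟩ <;> omega
  calc ∑' n : ℤ, (if n ∈ Finset.Ioo (a - 2 * L) (a + 2 * L) then 0 else ‖conv K b n‖ₑ)
      ≤ ∑' n : ℤ, ∑ m ∈ I, (if n ∈ Finset.Ioo (a - 2 * (L : ℤ)) (a + 2 * L) then 0 else
          ‖K (n - m) - K (n - a)‖ₑ) * ‖b m‖ₑ := by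
        apply ENNReal.tsum_le_tsum
        intro n
        by_cases h1 : n ∈ Finset.Ioo (a - 2 * (L : ℤ)) (a + 2 * L)
        · rw [if_pos h1]; exact zero_le
        · rw [if_neg h1, hconv n]
          refine (enorm_sum_le _ _).trans ?_
          apply Finset.sum_le_sum
          intro m _
          rw [if_neg h1, enorm_mul]
    _ = ∑ m ∈ I, (∑' n : ℤ, (if n ∈ Finset.Ioo (a - 2 * (L : ℤ)) (a + 2 * L) then 0 else
          ‖K (n - m) - K (n - a)‖ₑ)) * ‖b m‖ₑ := by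
        rw [Summable.tsum_finsetSum (fun _ _ => ENNReal.summable)]
        apply Finset.sum_congr rfl
        intro m _
        rw [ENNReal.tsum_mul_right]
    _ ≤ ∑ m ∈ I, (B : ℝ≥0∞) * ‖b m‖ₑ := by
        apply Finset.sum_le_sum
        intro m hm
        exact mul_le_mul_left (hone m hm) _
    _ = B * ∑ m ∈ I, ‖b m‖ₑ := by rw [Finset.mul_sum]
    _ ≤ B * N1 b := by
        apply mul_le_mul_right
        unfold N1
        exact ENNReal.sum_le_tsum I

/-- the Calderon-Zygmund decomposition, by induction on the size of the interval. -/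
theorem decomp {K : ℤ → ℂ} {B : ℝ≥0}
    (hB : ∀ y : ℤ, ∑' n : ℤ, (if 2 * |y| ≤ |n| then ‖K (n - y) - K n‖ₑ else 0) ≤ B)
    (l : ℝ≥0) : ∀ (k : ℕ) (a : ℤ) (c : ℤ →₀ ℂ),
      (∀ m, c m ≠ 0 → a ≤ m ∧ m < a + 2 ^ k) → N1 c ≤ l * 2 ^ k →
      ∃ (g b : ℤ →₀ ℂ) (Ω : Finset ℤ), c = g + b ∧
        (∀ m, g m ≠ 0 → a ≤ m ∧ m < a + 2 ^ k) ∧ (∀ m, ‖g m‖ₑ ≤ 2 * l) ∧ N1 g ≤ N1 c ∧
        (l : ℝ≥0∞) * Ω.card ≤ 4 * N1 c ∧
        ∑' n : ℤ, (if n ∈ Ω then 0 else ‖conv K b n‖ₑ) ≤ 2 * B * N1 c := by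
  intro k
  induction k with
  | zero =>
    intro a c hc hN
    refine ⟨c, 0, ∅, by simp, hc, ?_, le_rfl, by simp, ?_⟩
    · intro m
      have h1 : ‖c m‖ₑ ≤ N1 c := ENNReal.le_tsum m
      refine h1.trans (hN.trans ?_)
      rw [pow_zero, mul_one, two_mul]
      exact le_add_self
    · simp [conv_zero]
  | succ k ih =>
    intro a c hc hN
    -- any function on an interval of length `2^k` with `N1 ≤ l 2^(k+1)` decomposes
    have half : ∀ (a' : ℤ) (c' : ℤ →₀ ℂ), (∀ m, c' m ≠ 0 → a' ≤ m ∧ m < a' + 2 ^ k) →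
        N1 c' ≤ l * 2 ^ (k + 1) →
        ∃ (g b : ℤ →₀ ℂ) (Ω : Finset ℤ), c' = g + b ∧
        (∀ m, g m ≠ 0 → a' ≤ m ∧ m < a' + 2 ^ k) ∧ (∀ m, ‖g m‖ₑ ≤ 2 * l) ∧ N1 g ≤ N1 c' ∧
        (l : ℝ≥0∞) * Ω.card ≤ 4 * N1 c' ∧
        ∑' n : ℤ, (if n ∈ Ω then 0 else ‖conv K b n‖ₑ) ≤ 2 * B * N1 c' := by
      intro a' c' hc' hN'
      by_cases hsmall : N1 c' ≤ l * 2 ^ k
      · exact ih a' c' hc' hsmall
      · push Not at hsmall
        set L : ℕ := 2 ^ k with hL
        have hL1 : 1 ≤ L := Nat.one_le_two_pow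
        have hLz : ((L : ℕ) : ℤ) = 2 ^ k := by rw [hL]; push_cast; rfl
        have hLe : ((L : ℕ) : ℝ≥0∞) = 2 ^ k := by rw [hL]; push_cast; rfl
        set I := Finset.Ico a' (a' + (L : ℤ)) with hI
        have hIcard : I.card = L := by rw [hI, Int.card_Ico]; simp
        set μ : ℂ := (∑ m ∈ I, c' m) / L with hμ
        set g : ℤ →₀ ℂ := Finsupp.indicator I (fun _ _ => μ) with hg
        have hgv : ∀ m, g m = if m ∈ I then μ else 0 := by
          intro m
          rw [hg, Finsupp.indicator_apply]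
          by_cases hm : m ∈ I <;> simp [hm]
        set b : ℤ →₀ ℂ := c' - g with hb
        have hcI : c'.support ⊆ I := by
          intro m hm
          have := hc' m (Finsupp.mem_support_iff.1 hm)
          rw [hI, Finset.mem_Ico, hLz]; exact this
        have hbI : b.support ⊆ I := by
          intro m hm
          by_contra hmI
          apply Finsupp.mem_support_iff.1 hm
          rw [hb, Finsupp.sub_apply, hgv, if_neg hmI]
          rw [Finsupp.notMem_support_iff.1 (fun h => hmI (hcI h))]; ring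
        have hLc : (L : ℂ) ≠ 0 := by
          have : L ≠ 0 := by omega
          exact_mod_cast this
        have hb0 : ∑ m ∈ I, b m = 0 := by
          have : ∀ m ∈ I, b m = c' m - μ := by
            intro m hm; rw [hb, Finsupp.sub_apply, hgv, if_pos hm]
          rw [Finset.sum_congr rfl this, Finset.sum_sub_distrib, Finset.sum_const, hIcard, hμ,
            nsmul_eq_mul]
          field_simp
          ring
        have hN1g : N1 g = L * ‖μ‖ₑ := by
          unfold N1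
          rw [tsum_eq_sum (s := I)]
          · rw [Finset.sum_congr rfl (fun m hm => by rw [hgv, if_pos hm]), Finset.sum_const,
              hIcard, nsmul_eq_mul]
          · intro m hm; rw [hgv, if_neg hm]; simp
        have hLμ : (L : ℝ≥0∞) * ‖μ‖ₑ = ‖∑ m ∈ I, c' m‖ₑ := by
          have h1 : (∑ m ∈ I, c' m) = (L : ℂ) * μ := by rw [hμ]; field_simp
          rw [h1, enorm_mul]
          congr 1
          rw [← ofReal_norm]
          simp
        have hsumle : ‖∑ m ∈ I, c' m‖ₑ ≤ N1 c' :=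
          (enorm_sum_le _ _).trans (ENNReal.sum_le_tsum I)
        have hN1g' : N1 g ≤ N1 c' := by rw [hN1g, hLμ]; exact hsumle
        have hμle : ‖μ‖ₑ ≤ 2 * l := by
          have h1 : (L : ℝ≥0∞) * ‖μ‖ₑ ≤ L * (2 * l) := by
            rw [hLμ]
            refine hsumle.trans (hN'.trans ?_)
            rw [hLe, pow_succ]
            apply le_of_eq; ring
          have hL0 : (L : ℝ≥0∞) ≠ 0 := by
            have : L ≠ 0 := by omega
            exact_mod_cast this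
          exact (ENNReal.mul_le_mul_iff_right hL0 (ENNReal.natCast_ne_top L)).1 h1
        have hN1b : N1 b ≤ 2 * N1 c' := by
          unfold N1
          calc ∑' m, ‖b m‖ₑ ≤ ∑' m, (‖c' m‖ₑ + ‖g m‖ₑ) := by
                apply ENNReal.tsum_le_tsum
                intro m; rw [hb, Finsupp.sub_apply]; exact enorm_sub_le
            _ = N1 c' + N1 g := ENNReal.tsum_add
            _ ≤ 2 * N1 c' := by rw [two_mul]; exact add_le_add_right hN1g' _
        refine ⟨g, b, Finset.Ioo (a' - 2 * L) (a' + 2 * L), by rw [hb]; abel, ?_, ?_, hN1g', ?_, ?_⟩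
        · intro m hm
          rw [hgv] at hm
          have hmI : m ∈ I := by
            by_contra h; rw [if_neg h] at hm; exact hm rfl
          rw [hI, Finset.mem_Ico, hLz] at hmI
          exact hmI
        · intro m
          rw [hgv]
          by_cases hm : m ∈ I
          · rw [if_pos hm]; exact hμle
          · rw [if_neg hm]; simp
        · have hcard : (Finset.Ioo (a' - 2 * (L : ℤ)) (a' + 2 * L)).card ≤ 4 * L := by
            rw [Int.card_Ioo]; omega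
          calc (l : ℝ≥0∞) * ((Finset.Ioo (a' - 2 * (L : ℤ)) (a' + 2 * L)).card : ℝ≥0∞)
              ≤ l * ((4 * L : ℕ) : ℝ≥0∞) := by
                apply mul_le_mul_right
                exact_mod_cast hcard
            _ = 4 * (l * 2 ^ k) := by push_cast; rw [hLe]; ring
            _ ≤ 4 * N1 c' := mul_le_mul_right hsmall.le _
        · refine (bad_interval hB a' L hL1 b hbI hb0).trans ?_
          calc (B : ℝ≥0∞) * N1 b ≤ B * (2 * N1 c') := mul_le_mul_right hN1b _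
            _ = 2 * B * N1 c' := by ring
    -- split
    set c1 := c.filter (fun m => m < a + 2 ^ k) with hc1
    set c2 := c.filter (fun m => ¬ m < a + 2 ^ k) with hc2
    have hsplit : c = c1 + c2 := (Finsupp.filter_add_filter_not c _).symm
    have hNsplit : N1 c = N1 c1 + N1 c2 := by
      unfold N1
      rw [← ENNReal.tsum_add]
      congr 1
      funext m
      rw [hc1, hc2, Finsupp.filter_apply, Finsupp.filter_apply]
      by_cases hm : m < a + 2 ^ k
      · rw [if_pos hm, if_neg (by simpa using hm)]; simp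
      · rw [if_neg hm, if_pos hm]; simp
    have h1 : ∀ m, c1 m ≠ 0 → a ≤ m ∧ m < a + 2 ^ k := by
      intro m hm
      rw [hc1, Finsupp.filter_apply] at hm
      by_cases h : m < a + 2 ^ k
      · rw [if_pos h] at hm; exact ⟨(hc m hm).1, h⟩
      · rw [if_neg h] at hm; exact absurd rfl hm
    have h2 : ∀ m, c2 m ≠ 0 → a + 2 ^ k ≤ m ∧ m < a + 2 ^ k + 2 ^ k := by
      intro m hm
      rw [hc2, Finsupp.filter_apply] at hm
      by_cases h : m < a + 2 ^ k
      · rw [if_neg (by simpa using h)] at hm; exact absurd rfl hm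
      · rw [if_pos h] at hm
        have := (hc m hm).2
        rw [pow_succ] at this
        constructor
        · omega
        · omega
    have hN1 : N1 c1 ≤ l * 2 ^ (k + 1) := le_trans (by rw [hNsplit]; exact le_self_add) hN
    have hN2 : N1 c2 ≤ l * 2 ^ (k + 1) := le_trans (by rw [hNsplit]; exact le_add_self) hN
    obtain ⟨g1, b1, Ω1, e1, s1, u1, n1, m1, t1⟩ := half a c1 h1 hN1
    obtain ⟨g2, b2, Ω2, e2, s2, u2, n2, m2, t2⟩ := half (a + 2 ^ k) c2 h2 hN2
    have hpow : (0 : ℤ) < 2 ^ k := by positivity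
    refine ⟨g1 + g2, b1 + b2, Ω1 ∪ Ω2, ?_, ?_, ?_, ?_, ?_, ?_⟩
    · rw [hsplit, e1, e2]; abel
    · intro m hm
      rw [Finsupp.add_apply] at hm
      by_cases hm1 : g1 m ≠ 0
      · have := s1 m hm1
        rw [pow_succ]; omega
      · push Not at hm1
        rw [hm1, zero_add] at hm
        have := s2 m hm
        rw [pow_succ]; omega
    · intro m
      rw [Finsupp.add_apply]
      by_cases hm1 : g1 m ≠ 0
      · have hm2 : g2 m = 0 := by
          by_contra hm2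
          have h3 := s1 m hm1
          have h4 := s2 m hm2
          omega
        rw [hm2, add_zero]; exact u1 m
      · push Not at hm1
        rw [hm1, zero_add]; exact u2 m
    · refine (N1_add_le _ _).trans ?_
      rw [hNsplit]; exact add_le_add n1 n2
    · calc (l : ℝ≥0∞) * ((Ω1 ∪ Ω2).card : ℝ≥0∞) ≤ l * ((Ω1.card + Ω2.card : ℕ) : ℝ≥0∞) := by
            apply mul_le_mul_right
            exact_mod_cast Finset.card_union_le _ _
        _ = l * Ω1.card + l * Ω2.card := by push_cast; ring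
        _ ≤ 4 * N1 c1 + 4 * N1 c2 := add_le_add m1 m2
        _ = 4 * N1 c := by rw [hNsplit]; ring
    · calc ∑' n : ℤ, (if n ∈ Ω1 ∪ Ω2 then 0 else ‖conv K (b1 + b2) n‖ₑ)
          ≤ ∑' n : ℤ, ((if n ∈ Ω1 then 0 else ‖conv K b1 n‖ₑ) +
            (if n ∈ Ω2 then 0 else ‖conv K b2 n‖ₑ)) := by
            apply ENNReal.tsum_le_tsum
            intro n
            by_cases hn : n ∈ Ω1 ∪ Ω2
            · rw [if_pos hn]; exact zero_le
            · rw [if_neg hn]
              rw [Finset.mem_union, not_or] at hn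
              rw [if_neg hn.1, if_neg hn.2, conv_add]
              exact enorm_add_le _ _
        _ = _ := ENNReal.tsum_add
        _ ≤ 2 * B * N1 c1 + 2 * B * N1 c2 := add_le_add t1 t2
        _ = 2 * B * N1 c := by rw [hNsplit]; ring

/-- Chebyshev on the counting measure. -/
theorem cheb (f : ℤ → ℝ≥0∞) (t : ℝ≥0∞) :
    t * Measure.count {n : ℤ | t ≤ f n} ≤ ∑' n, f n := by
  rw [← lintegral_count]
  exact mul_meas_ge_le_lintegral (Measurable.of_discrete) t

end WeakOne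

open WeakOne in
theorem weak_one {K : ℤ → ℂ} {A B : ℝ≥0}
    (h2 : ∀ c : ℤ →₀ ℂ, eLpNorm (conv K c) 2 Measure.count ≤
      A * eLpNorm (c : ℤ → ℂ) 2 Measure.count)
    (hB : ∀ y : ℤ, ∑' n : ℤ, (if 2 * |y| ≤ |n| then ‖K (n - y) - K n‖ₑ else 0) ≤ B) :
    ∃ C : ℝ≥0, ∀ c : ℤ →₀ ℂ, ∀ t : ℝ≥0, 0 < t →
      (t : ℝ≥0∞) * Measure.count {n : ℤ | t < ‖conv K c n‖₊} ≤ C * ∑ m ∈ c.support, ‖c m‖ₑ := by
  refine ⟨8 * A ^ 2 + 4 + 4 * B, ?_⟩
  intro c t ht
  rw [← N1_eq_sum]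
  have ht0 : (t : ℝ≥0∞) ≠ 0 := by
    simpa using ht.ne'
  have htt : (t : ℝ≥0∞) ≠ ∞ := ENNReal.coe_ne_top
  have hN1top : N1 c ≠ ∞ := by
    rw [N1_eq_sum]
    exact (ENNReal.sum_lt_top.2 (fun m _ => enorm_lt_top)).ne
  -- a big interval
  obtain ⟨k, hk1, hk2⟩ : ∃ k : ℕ, (∀ m, c m ≠ 0 → -(2 ^ k : ℤ) ≤ m ∧ m < 2 ^ k) ∧
      N1 c ≤ t * 2 ^ (k + 1) := by
    -- bound for the support
    obtain ⟨R, hR⟩ : ∃ R : ℕ, ∀ m ∈ c.support, m.natAbs < R := by
      refine ⟨(c.support.sup Int.natAbs) + 1, ?_⟩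
      intro m hm
      exact Nat.lt_succ_of_le (Finset.le_sup (f := Int.natAbs) hm)
    obtain ⟨q, hq⟩ : ∃ q : ℕ, N1 c / t ≤ q := by
      have : N1 c / t ≠ ∞ := (ENNReal.div_lt_top hN1top ht0).ne
      obtain ⟨q, hq⟩ := ENNReal.exists_nat_gt this
      exact ⟨q, hq.le⟩
    refine ⟨R + q, ?_, ?_⟩
    · intro m hm
      have h1 := hR m (Finsupp.mem_support_iff.2 hm)
      have h3 : R + q < 2 ^ (R + q) := Nat.lt_two_pow_self
      have h4 : ((R + q : ℕ) : ℤ) < 2 ^ (R + q) := by exact_mod_cast h3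
      push_cast at h4
      omega
    · have h3 : q < 2 ^ (R + q + 1) := by
        calc q < 2 ^ q := Nat.lt_two_pow_self
          _ ≤ 2 ^ (R + q + 1) := Nat.pow_le_pow_right (by norm_num) (by omega)
      have h4 : (q : ℝ≥0∞) ≤ 2 ^ (R + q + 1) := by exact_mod_cast h3.le
      rw [ENNReal.div_le_iff ht0 htt] at hq
      refine hq.trans ?_
      rw [mul_comm]
      exact mul_le_mul_right h4 _
  obtain ⟨g, b, Ω, hc, _, hg2, hg3, hΩ, hb⟩ := decomp hB t (k + 1) (-(2 ^ k)) c (by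
    intro m hm
    have := hk1 m hm
    rw [pow_succ]
    omega) hk2
  -- the level set
  have hsub : {n : ℤ | t < ‖conv K c n‖₊} ⊆
      {n : ℤ | (t : ℝ≥0∞) / 2 ≤ ‖conv K g n‖ₑ} ∪ (Ω : Set ℤ) ∪
        {n : ℤ | (t : ℝ≥0∞) / 2 ≤ (if n ∈ Ω then 0 else ‖conv K b n‖ₑ)} := by
    intro n hn
    simp only [Set.mem_setOf_eq] at hn
    simp only [Set.mem_union, Set.mem_setOf_eq, Finset.mem_coe]
    by_contra hcon
    push Not at hcon
    obtain ⟨⟨h3, h4⟩, h5⟩ := hcon
    rw [if_neg h4] at h5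
    have h6 : (t : ℝ≥0∞) < ‖conv K c n‖ₑ := by
      rw [enorm_eq_nnnorm]; exact_mod_cast hn
    have h7 : ‖conv K c n‖ₑ ≤ ‖conv K g n‖ₑ + ‖conv K b n‖ₑ := by
      rw [hc, conv_add]; exact enorm_add_le _ _
    have h8 : ‖conv K g n‖ₑ + ‖conv K b n‖ₑ < (t : ℝ≥0∞) / 2 + t / 2 := ENNReal.add_lt_add h3 h5
    rw [ENNReal.add_halves] at h8
    exact absurd (h6.trans_le (h7.trans h8.le)) (lt_irrefl _)
  -- L2 part
  have hL2 : (t : ℝ≥0∞) * Measure.count {n : ℤ | (t : ℝ≥0∞) / 2 ≤ ‖conv K g n‖ₑ} ≤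
      8 * A ^ 2 * N1 c := by
    have e2 : ∀ f : ℤ → ℂ, eLpNorm f 2 Measure.count ^ 2 = ∑' n, ‖f n‖ₑ ^ 2 := by
      intro f
      rw [eLpNorm_eq_lintegral_rpow_enorm_toReal (by norm_num) (by norm_num), lintegral_count]
      rw [← ENNReal.rpow_natCast, ← ENNReal.rpow_mul]
      simp
    have h3 : ∑' n, ‖conv K g n‖ₑ ^ 2 ≤ A ^ 2 * (2 * t * N1 c) := by
      rw [← e2]
      calc eLpNorm (conv K g) 2 Measure.count ^ 2
          ≤ (A * eLpNorm (g : ℤ → ℂ) 2 Measure.count) ^ 2 := by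
            exact pow_le_pow_left' (h2 g) 2
        _ = A ^ 2 * ∑' n, ‖g n‖ₑ ^ 2 := by rw [mul_pow, e2]
        _ ≤ A ^ 2 * ∑' n, (2 * t) * ‖g n‖ₑ := by
            apply mul_le_mul_right
            apply ENNReal.tsum_le_tsum
            intro n
            rw [pow_two]
            exact mul_le_mul_left (hg2 n) _
        _ = A ^ 2 * (2 * t * N1 g) := by rw [ENNReal.tsum_mul_left]; rfl
        _ ≤ A ^ 2 * (2 * t * N1 c) := by
            apply mul_le_mul_right
            exact mul_le_mul_right hg3 _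
    have h4 : ((t : ℝ≥0∞) / 2) ^ 2 * Measure.count {n : ℤ | (t : ℝ≥0∞) / 2 ≤ ‖conv K g n‖ₑ} ≤
        A ^ 2 * (2 * t * N1 c) := by
      refine le_trans ?_ h3
      refine le_trans ?_ (cheb (fun n => ‖conv K g n‖ₑ ^ 2) (((t : ℝ≥0∞) / 2) ^ 2))
      apply mul_le_mul_right
      apply measure_mono
      intro n hn
      simp only [Set.mem_setOf_eq] at hn ⊢
      exact pow_le_pow_left' hn 2
    have h5 : (t : ℝ≥0∞) * (t * Measure.count {n : ℤ | (t : ℝ≥0∞) / 2 ≤ ‖conv K g n‖ₑ}) ≤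
        t * (8 * A ^ 2 * N1 c) := by
      have h6 : (t : ℝ≥0∞) = 2 * (t / 2) := by
        rw [ENNReal.mul_div_cancel (by norm_num) (by norm_num)]
      calc (t : ℝ≥0∞) * (t * Measure.count {n : ℤ | (t : ℝ≥0∞) / 2 ≤ ‖conv K g n‖ₑ})
          = 4 * (((t : ℝ≥0∞) / 2) ^ 2 *
              Measure.count {n : ℤ | (t : ℝ≥0∞) / 2 ≤ ‖conv K g n‖ₑ}) := by
            have : (t : ℝ≥0∞) * t = 4 * ((t : ℝ≥0∞) / 2) ^ 2 := by
              conv_lhs => rw [h6]
              ring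
            rw [← mul_assoc, this, mul_assoc]
        _ ≤ 4 * (A ^ 2 * (2 * t * N1 c)) := mul_le_mul_right h4 _
        _ = t * (8 * A ^ 2 * N1 c) := by ring
    exact (ENNReal.mul_le_mul_iff_right ht0 htt).1 h5
  have hbad : (t : ℝ≥0∞) *
      Measure.count {n : ℤ | (t : ℝ≥0∞) / 2 ≤ (if n ∈ Ω then 0 else ‖conv K b n‖ₑ)} ≤
      4 * B * N1 c := by
    have h3 := (cheb (fun n => if n ∈ Ω then 0 else ‖conv K b n‖ₑ) ((t : ℝ≥0∞) / 2)).trans hb
    have h6 : (t : ℝ≥0∞) = 2 * (t / 2) := by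
      rw [ENNReal.mul_div_cancel (by norm_num) (by norm_num)]
    calc (t : ℝ≥0∞) *
      Measure.count {n : ℤ | (t : ℝ≥0∞) / 2 ≤ (if n ∈ Ω then 0 else ‖conv K b n‖ₑ)}
        = 2 * ((t : ℝ≥0∞) / 2 *
      Measure.count {n : ℤ | (t : ℝ≥0∞) / 2 ≤ (if n ∈ Ω then 0 else ‖conv K b n‖ₑ)}) := by
          rw [← mul_assoc, ← h6]
      _ ≤ 2 * (2 * B * N1 c) := mul_le_mul_right h3 _
      _ = 4 * B * N1 c := by ring
  have hOm : (t : ℝ≥0∞) * Measure.count (Ω : Set ℤ) ≤ 4 * N1 c := by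
    rw [Measure.count_apply_finset]; exact hΩ
  calc (t : ℝ≥0∞) * Measure.count {n : ℤ | t < ‖conv K c n‖₊}
      ≤ t * (Measure.count {n : ℤ | (t : ℝ≥0∞) / 2 ≤ ‖conv K g n‖ₑ} + Measure.count (Ω : Set ℤ) +
        Measure.count {n : ℤ | (t : ℝ≥0∞) / 2 ≤ (if n ∈ Ω then 0 else ‖conv K b n‖ₑ)}) := by
        apply mul_le_mul_right
        refine (measure_mono hsub).trans ((measure_union_le _ _).trans ?_)
        exact add_le_add_left (measure_union_le _ _) _
    _ = t * Measure.count {n : ℤ | (t : ℝ≥0∞) / 2 ≤ ‖conv K g n‖ₑ} +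
        t * Measure.count (Ω : Set ℤ) +
        t * Measure.count {n : ℤ | (t : ℝ≥0∞) / 2 ≤ (if n ∈ Ω then 0 else ‖conv K b n‖ₑ)} := by
        ring
    _ ≤ 8 * A ^ 2 * N1 c + 4 * N1 c + 4 * B * N1 c := add_le_add (add_le_add hL2 hOm) hbad
    _ = ((8 * A ^ 2 + 4 + 4 * B : ℝ≥0) : ℝ≥0∞) * N1 c := by push_cast; ring

end Pool.Agent.Work.MP_bd9a46_an
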