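import Pool.Agent.Work.MP_bd9a46_an.Seq
import Pool.Agent.Work.MP_bd9a46_an.WeakOne
import Pool.Agent.Work.MP_bd9a46_an.Marc
import Pool.Agent.Work.MP_bd9a46_an.Dual

/-!
# The function `u` is a multiplier of `ℓ_p` for all `1 < p < ∞`
-/

open MeasureTheory AddCircle
open scoped ENNReal NNReal ComplexConjugate

namespace Pool.Agent.Work.MP_bd9a46_an

/-- The shifts. -/
def kk (i : ℕ) : ℤ := 4 * 2 ^ nn i

/-- The modulations of `u`. -/
noncomputable def modu (i : ℕ) (x : UnitAddCircle) : ℂ := (fourier (-kk i) x : ℂ)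

lemma modu_le (i : ℕ) (x : UnitAddCircle) : ‖modu i x‖ ≤ 1 := (norm_fourier _ _).le

lemma modu_cont (i : ℕ) : Continuous (modu i) := map_continuous (fourier (-kk i))

/-- The function `u`. -/
noncomputable def uu : UnitAddCircle → ℂ := sup modu

lemma uu_linf : IsLinf uu := linf_sup modu_le modu_cont

/-- The pieces of the kernel. -/
noncomputable def ker (i : ℕ) (n : ℤ) : ℂ :=
  bc (2 ^ ll i) (n + kk i) - bc (64 * 2 ^ ll i) (n + kk i)

lemma integrable_dir (L : ℕ) : Integrable (dir L) haarAddCircle :=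
  (dir_cont L).integrable_of_hasCompactSupport (HasCompactSupport.of_compactSpace _)

lemma fourierCoeff_sub' {f g : UnitAddCircle → ℂ} (hf : Integrable f haarAddCircle)
    (hg : Integrable g haarAddCircle) (n : ℤ) :
    fourierCoeff (fun x => f x - g x) n = fourierCoeff f n - fourierCoeff g n := by
  have h1 : (fun x => f x - g x) = f + (fun x => (-1 : ℂ) * g x) := by
    funext x; simp only [Pi.add_apply]; ring
  rw [h1, fourierCoeff.add hf (hg.const_mul _), Pi.add_apply, fourierCoeff.const_mul]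
  ring

lemma fourierCoeff_bump (i : ℕ) (n : ℤ) :
    fourierCoeff (bump i) n = bc (2 ^ ll i) n - bc (64 * 2 ^ ll i) n := by
  have h : bump i = fun x => dir (2 ^ ll i) x - dir (64 * 2 ^ ll i) x := rfl
  rw [h, fourierCoeff_sub' (integrable_dir _) (integrable_dir _), fourierCoeff_dir,
    fourierCoeff_dir]

lemma hasSum_ker (n : ℤ) : HasSum (fun i => ker i n) (fourierCoeff uu n) := by
  have h := fourierCoeff_sup modu_le modu_cont n
  have e : ∀ i, fourierCoeff (fun x => bump i x * modu i x) n = ker i n := by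
    intro i
    unfold modu
    rw [fourierCoeff_mul_fourier, sub_neg_eq_add, fourierCoeff_bump]
    rfl
  simp only [e] at h
  exact h

/-! ### Estimates for one block -/

lemma enorm_bc_le (L : ℕ) (n : ℤ) : ‖bc L n‖ₑ ≤ ENNReal.ofReal (1 / L) := by
  unfold bc
  split_ifs
  · rw [← ofReal_norm]
    simp
  · simp

lemma tsum_bc_le {L : ℕ} (hL : 0 < L) : ∑' n : ℤ, ‖bc L n‖ₑ ≤ 1 := by
  have hL' : (0 : ℝ) < L := by exact_mod_cast hL
  rw [tsum_eq_sum (s := Finset.Ico (0 : ℤ) L)]
  · calc ∑ n ∈ Finset.Ico (0 : ℤ) L, ‖bc L n‖ₑ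
        ≤ ∑ n ∈ Finset.Ico (0 : ℤ) L, ENNReal.ofReal (1 / L) :=
          Finset.sum_le_sum fun n _ => enorm_bc_le L n
      _ = 1 := by
          rw [Finset.sum_const, Int.card_Ico, nsmul_eq_mul, sub_zero, Int.toNat_natCast,
            ← ENNReal.ofReal_natCast, ← ENNReal.ofReal_mul (by positivity)]
          rw [mul_one_div_cancel hL'.ne', ENNReal.ofReal_one]
  · intro n hn
    unfold bc
    rw [if_neg]
    · simp
    · intro h
      exact hn (Finset.mem_Ico.2 h)

lemma tsum_bc_diff {L : ℕ} (hL : 0 < L) (y : ℤ) :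
    ∑' n : ℤ, ‖bc L (n - y) - bc L n‖ₑ ≤ ENNReal.ofReal (2 * |(y : ℝ)| / L) := by
  have hL' : (0 : ℝ) < L := by exact_mod_cast hL
  set S : Finset ℤ := Finset.Ico (min 0 y) (max 0 y) ∪ Finset.Ico (L + min 0 y) (L + max 0 y)
    with hS
  have hcard : (S.card : ℝ) ≤ 2 * |(y : ℝ)| := by
    have h1 : S.card ≤ (Finset.Ico (min 0 y) (max 0 y)).card +
        (Finset.Ico ((L : ℤ) + min 0 y) (L + max 0 y)).card := Finset.card_union_le _ _
    rw [Int.card_Ico, Int.card_Ico] at h1
    have h2 : (max 0 y - min 0 y) = |y| := by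
      rcases le_total 0 y with h | h
      · rw [max_eq_right h, min_eq_left h, abs_of_nonneg h, sub_zero]
      · rw [max_eq_left h, min_eq_right h, abs_of_nonpos h, zero_sub]
    have h3 : ((L : ℤ) + max 0 y - (L + min 0 y)) = |y| := by rw [← h2]; ring
    rw [h2, h3] at h1
    have h4 : (S.card : ℤ) ≤ 2 * |y| := by
      have : ((|y|).toNat : ℤ) = |y| := Int.toNat_of_nonneg (abs_nonneg y)
      omega
    have h5 : ((S.card : ℤ) : ℝ) ≤ ((2 * |y| : ℤ) : ℝ) := by exact_mod_cast h4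
    push_cast at h5
    exact h5
  rw [tsum_eq_sum (s := S)]
  · calc ∑ n ∈ S, ‖bc L (n - y) - bc L n‖ₑ ≤ ∑ n ∈ S, ENNReal.ofReal (1 / L) := by
          apply Finset.sum_le_sum
          intro n _
          rw [← ofReal_norm]
          apply ENNReal.ofReal_le_ofReal
          have h1 : ∀ m : ℤ, bc L m = 1 / (L : ℂ) ∨ bc L m = 0 := by
            intro m; unfold bc; split_ifs <;> simp
          have h2 : ‖(1 / (L : ℂ))‖ = 1 / L := by simp
          rcases h1 (n - y) with h | h <;> rcases h1 n with h' | h' <;> rw [h, h']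
          · rw [sub_self, norm_zero]; positivity
          · rw [sub_zero, h2]
          · rw [zero_sub, norm_neg, h2]
          · rw [sub_zero, norm_zero]; positivity
      _ = ENNReal.ofReal (S.card * (1 / L)) := by
          rw [Finset.sum_const, nsmul_eq_mul, ← ENNReal.ofReal_natCast,
            ← ENNReal.ofReal_mul (by positivity)]
      _ ≤ ENNReal.ofReal (2 * |(y : ℝ)| / L) := by
          apply ENNReal.ofReal_le_ofReal
          rw [mul_one_div]
          gcongr
  · intro n hn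
    have : bc L (n - y) = bc L n := by
      unfold bc
      congr 1
      rw [hS, Finset.mem_union, Finset.mem_Ico, Finset.mem_Ico] at hn
      push Not at hn
      obtain ⟨h1, h2⟩ := hn
      apply propext
      rcases le_total 0 y with h | h
      · rw [min_eq_left h, max_eq_right h] at h1 h2
        constructor
        · rintro ⟨h3, h4⟩
          constructor
          · omega
          · by_contra hcon
            have := h2 (by omega)
            omega
        · rintro ⟨h3, h4⟩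
          have := h1 h3
          omega
      · rw [min_eq_right h, max_eq_left h] at h1 h2
        constructor
        · rintro ⟨h3, h4⟩
          constructor
          · by_contra hcon
            have := h1 (by omega)
            omega
          · omega
        · rintro ⟨h3, h4⟩
          constructor
          · omega
          · by_contra hcon
            have := h2 (by omega)
            omega
    rw [this, sub_self]
    simp

lemma tsum_ker_le (i : ℕ) : ∑' n : ℤ, ‖ker i n‖ₑ ≤ 2 := by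
  have key : ∀ L : ℕ, 0 < L → ∑' n : ℤ, ‖bc L (n + kk i)‖ₑ ≤ 1 := by
    intro L hL
    have := (Equiv.addRight (kk i)).tsum_eq (fun n => ‖bc L n‖ₑ)
    simp only [Equiv.coe_addRight] at this
    rw [this]
    exact tsum_bc_le hL
  calc ∑' n : ℤ, ‖ker i n‖ₑ
      ≤ ∑' n : ℤ, (‖bc (2 ^ ll i) (n + kk i)‖ₑ + ‖bc (64 * 2 ^ ll i) (n + kk i)‖ₑ) :=
        ENNReal.tsum_le_tsum fun n => enorm_sub_le
    _ = (∑' n : ℤ, ‖bc (2 ^ ll i) (n + kk i)‖ₑ) + ∑' n : ℤ, ‖bc (64 * 2 ^ ll i) (n + kk i)‖ₑ :=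
        ENNReal.tsum_add
    _ ≤ 1 + 1 := add_le_add (key _ (by positivity)) (key _ (by positivity))
    _ = 2 := by norm_num

lemma tsum_ker_diff (i : ℕ) (y : ℤ) :
    ∑' n : ℤ, ‖ker i (n - y) - ker i n‖ₑ ≤ ENNReal.ofReal (4 * |(y : ℝ)| / 2 ^ ll i) := by
  have key : ∀ L : ℕ, 0 < L → ∑' n : ℤ, ‖bc L (n - y + kk i) - bc L (n + kk i)‖ₑ ≤
      ENNReal.ofReal (2 * |(y : ℝ)| / L) := by
    intro L hL
    have := (Equiv.addRight (kk i)).tsum_eq (fun n => ‖bc L (n - y) - bc L n‖ₑ)
    simp only [Equiv.coe_addRight] at this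
    refine le_trans (le_of_eq ?_) (tsum_bc_diff hL y)
    rw [← this]
    apply tsum_congr
    intro n
    congr 3
    ring
  calc ∑' n : ℤ, ‖ker i (n - y) - ker i n‖ₑ
      ≤ ∑' n : ℤ, (‖bc (2 ^ ll i) (n - y + kk i) - bc (2 ^ ll i) (n + kk i)‖ₑ +
          ‖bc (64 * 2 ^ ll i) (n - y + kk i) - bc (64 * 2 ^ ll i) (n + kk i)‖ₑ) := by
        apply ENNReal.tsum_le_tsum
        intro n
        have : ker i (n - y) - ker i n = (bc (2 ^ ll i) (n - y + kk i) -
            bc (2 ^ ll i) (n + kk i)) - (bc (64 * 2 ^ ll i) (n - y + kk i) -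
            bc (64 * 2 ^ ll i) (n + kk i)) := by unfold ker; ring
        rw [this]
        exact enorm_sub_le
    _ = _ := ENNReal.tsum_add
    _ ≤ ENNReal.ofReal (2 * |(y : ℝ)| / (2 ^ ll i : ℕ)) +
          ENNReal.ofReal (2 * |(y : ℝ)| / (64 * 2 ^ ll i : ℕ)) :=
        add_le_add (key _ (by positivity)) (key _ (by positivity))
    _ ≤ ENNReal.ofReal (4 * |(y : ℝ)| / 2 ^ ll i) := by
        rw [← ENNReal.ofReal_add (by positivity) (by positivity)]
        apply ENNReal.ofReal_le_ofReal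
        push_cast
        have h1 : 2 * |(y : ℝ)| / (64 * 2 ^ ll i) ≤ 2 * |(y : ℝ)| / 2 ^ ll i := by
          have h64 : (2 : ℝ) ^ ll i ≤ 64 * 2 ^ ll i := by
            have : (0 : ℝ) < 2 ^ ll i := by positivity
            linarith
          gcongr
        have h2 : 4 * |(y : ℝ)| / 2 ^ ll i = 2 * |(y : ℝ)| / 2 ^ ll i + 2 * |(y : ℝ)| / 2 ^ ll i := by
          ring
        rw [h2]
        linarith

lemma two_pow_ll_le (i : ℕ) : (64 : ℤ) * 2 ^ ll i ≤ kk i := by
  unfold kk
  have h1 : ll i + 6 ≤ nn i + 2 := by have := ll_le_nn i; omega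
  calc (64 : ℤ) * 2 ^ ll i = 2 ^ (ll i + 6) := by rw [pow_add]; ring
    _ ≤ 2 ^ (nn i + 2) := pow_le_pow_right₀ (by norm_num) h1
    _ = 4 * 2 ^ nn i := by rw [pow_add]; ring

lemma kk_lt (i : ℕ) : kk i < 2 ^ yy (i + 1) := by
  rw [yy_succ]
  unfold kk
  rw [pow_add]
  have : (0 : ℤ) < 2 ^ nn i := by positivity
  linarith

lemma kk_pos (i : ℕ) : 0 < kk i := by unfold kk; positivity

lemma ker_eq_zero {i : ℕ} {n : ℤ} (h : kk i < |n|) : ker i n = 0 := by
  have h64 := two_pow_ll_le i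
  have hpos : (0 : ℤ) < 2 ^ ll i := by positivity
  have hk := kk_pos i
  have key : ∀ L : ℕ, (L : ℤ) ≤ kk i → bc L (n + kk i) = 0 := by
    intro L hL
    unfold bc
    rw [if_neg]
    rintro ⟨h1, h2⟩
    rcases lt_abs.1 h with h' | h' <;> omega
  unfold ker
  rw [key (2 ^ ll i) (by push_cast; linarith), key (64 * 2 ^ ll i) (by push_cast; linarith),
    sub_zero]

/-- The Hörmander condition for one block. -/
lemma block_sum (i : ℕ) (y : ℤ) :
    ∑' n : ℤ, (if 2 * |y| ≤ |n| then ‖ker i (n - y) - ker i n‖ₑ else 0) ≤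
      (if |y| ≤ 2 ^ yy i then ENNReal.ofReal ((1 / 4) ^ i)
        else if |y| ≤ 2 ^ yy (i + 1) then 4 else 0) := by
  have hle : ∑' n : ℤ, (if 2 * |y| ≤ |n| then ‖ker i (n - y) - ker i n‖ₑ else 0) ≤
      ∑' n : ℤ, ‖ker i (n - y) - ker i n‖ₑ := by
    apply ENNReal.tsum_le_tsum
    intro n
    split_ifs
    · exact le_rfl
    · exact bot_le
  split_ifs with h1 h2
  · refine hle.trans ((tsum_ker_diff i y).trans ?_)
    apply ENNReal.ofReal_le_ofReal
    have h2 : |(y : ℝ)| ≤ 2 ^ yy i := by exact_mod_cast h1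
    have h3 : (2 : ℝ) ^ ll i = 4 * 16 ^ i * 2 ^ yy i := by
      unfold ll
      rw [pow_add, pow_add, pow_mul]
      norm_num
      ring
    rw [h3]
    have h16 : (16 : ℝ) ^ i = 4 ^ i * 4 ^ i := by rw [← mul_pow]; norm_num
    have h41 : (1 : ℝ) ≤ 4 ^ i := one_le_pow₀ (by norm_num)
    rw [div_le_iff₀ (by positivity), one_div, inv_pow]
    have h5 : ((4 : ℝ) ^ i)⁻¹ * (4 * 16 ^ i * 2 ^ yy i) = 4 * 4 ^ i * 2 ^ yy i := by
      rw [h16]; field_simp
    rw [h5]
    have hy0 := abs_nonneg (y : ℝ)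
    nlinarith
  · refine hle.trans ?_
    calc ∑' n : ℤ, ‖ker i (n - y) - ker i n‖ₑ ≤ ∑' n : ℤ, (‖ker i (n - y)‖ₑ + ‖ker i n‖ₑ) :=
          ENNReal.tsum_le_tsum fun n => enorm_sub_le
      _ = (∑' n : ℤ, ‖ker i (n - y)‖ₑ) + ∑' n : ℤ, ‖ker i n‖ₑ := ENNReal.tsum_add
      _ ≤ 2 + 2 := by
          apply add_le_add _ (tsum_ker_le i)
          have := (Equiv.subRight y).tsum_eq (fun n => ‖ker i n‖ₑ)
          simp only [Equiv.subRight_apply] at this
          rw [this]
          exact tsum_ker_le i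
      _ = 4 := by norm_num
  · push Not at h2
    apply le_of_eq
    rw [ENNReal.tsum_eq_zero]
    intro n
    split_ifs with h3
    · have hk := kk_lt i
      have ha : kk i < |n| := by have := abs_nonneg y; omega
      have hb : kk i < |n - y| := by
        have : |n| - |y| ≤ |n - y| := abs_sub_abs_le_abs_sub n y
        omega
      rw [ker_eq_zero ha, ker_eq_zero hb, sub_zero]
      simp
    · rfl

/-- The Hörmander condition for the kernel of `u`. -/
lemma hormander (y : ℤ) : ∑' n : ℤ, (if 2 * |y| ≤ |n| then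
    ‖fourierCoeff uu (n - y) - fourierCoeff uu n‖ₑ else 0) ≤ ((6 : ℝ≥0) : ℝ≥0∞) := by
  have h1 : ∀ n : ℤ, (if 2 * |y| ≤ |n| then
      ‖fourierCoeff uu (n - y) - fourierCoeff uu n‖ₑ else 0) ≤
      ∑' i : ℕ, (if 2 * |y| ≤ |n| then ‖ker i (n - y) - ker i n‖ₑ else 0) := by
    intro n
    split_ifs with h
    · have hs := ((hasSum_ker (n - y)).sub (hasSum_ker n)).tsum_eq
      rw [← hs]
      exact enorm_tsum_le_tsum_enorm
    · exact bot_le
  refine (ENNReal.tsum_le_tsum h1).trans ?_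
  rw [ENNReal.tsum_comm]
  refine (ENNReal.tsum_le_tsum fun i => block_sum i y).trans ?_
  -- the critical index
  have hex : ∃ n : ℕ, |y| ≤ 2 ^ yy (n + 1) := by
    refine ⟨y.natAbs, ?_⟩
    have h2 : y.natAbs ≤ yy (y.natAbs + 1) := by
      rw [yy_succ]
      have := mm_le_nn y.natAbs
      omega
    have h3 : y.natAbs < 2 ^ yy (y.natAbs + 1) :=
      lt_of_le_of_lt h2 Nat.lt_two_pow_self
    have h4 : (y.natAbs : ℤ) < 2 ^ yy (y.natAbs + 1) := by exact_mod_cast h3
    rw [Int.natCast_natAbs] at h4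
    exact h4.le
  classical
  set i0 := Nat.find hex with hi0
  have hi1 : |y| ≤ 2 ^ yy (i0 + 1) := Nat.find_spec hex
  have hterm : ∀ i : ℕ, (if |y| ≤ 2 ^ yy i then ENNReal.ofReal ((1 / 4) ^ i)
        else if |y| ≤ 2 ^ yy (i + 1) then 4 else 0) ≤
      ENNReal.ofReal ((1 / 4) ^ i) + (if i = i0 then 4 else 0) := by
    intro i
    split_ifs with h2 h3 h4 h4 h5
    · exact le_self_add
    · exact le_self_add
    · exact le_add_self
    · exfalso
      rcases lt_trichotomy i i0 with h | h | h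
      · exact Nat.find_min hex h ‹|y| ≤ 2 ^ yy (i + 1)›
      · contradiction
      · apply h2
        refine hi1.trans ?_
        exact pow_le_pow_right₀ (by norm_num) (yy_mono (by omega))
    · exact bot_le
    · exact bot_le
  refine (ENNReal.tsum_le_tsum hterm).trans ?_
  rw [ENNReal.tsum_add, tsum_ite_eq, ← ENNReal.ofReal_tsum_of_nonneg (fun i => by positivity)
    (summable_geometric_of_lt_one (by norm_num) (by norm_num)),
    tsum_geometric_of_lt_one (by norm_num) (by norm_num)]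
  have : ENNReal.ofReal ((1 - 1 / 4 : ℝ)⁻¹) ≤ ENNReal.ofReal 2 := by
    apply ENNReal.ofReal_le_ofReal; norm_num
  calc ENNReal.ofReal ((1 - 1 / 4 : ℝ)⁻¹) + 4 ≤ ENNReal.ofReal 2 + 4 := by gcongr
    _ = ((6 : ℝ≥0) : ℝ≥0∞) := by norm_num

lemma exists_l2_const {f : UnitAddCircle → ℂ} (hf : IsLinf f) : ∃ A : ℝ≥0, ∀ c : ℤ →₀ ℂ,
    eLpNorm (conv (fourierCoeff f) c) 2 Measure.count ≤
      A * eLpNorm (c : ℤ → ℂ) 2 Measure.count := by
  refine ⟨(eLpNorm f ∞ haarAddCircle).toNNReal, fun c => ?_⟩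
  rw [ENNReal.coe_toNNReal hf.2.ne]
  exact l2_bound hf c

/-- Duality. -/
lemma IsMult.dual' {p q : ℝ} (hpq : p.HolderConjugate q) {f : UnitAddCircle → ℂ}
    (h : IsMult (ENNReal.ofReal p) f) : IsMult (ENNReal.ofReal q) f := by
  obtain ⟨hf, C, hC⟩ := h
  exact ⟨hf, C, dual hpq hC⟩

lemma isMult_two {f : UnitAddCircle → ℂ} (hf : IsLinf f) : IsMult 2 f :=
  ⟨hf, exists_l2_const hf⟩

/-- `u` is a multiplier of `ℓ_p` for all `1 < p < ∞`. -/
theorem uu_mult {p : ℝ} (hp : 1 < p) : IsMult (ENNReal.ofReal p) uu := by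
  have key : ∀ q : ℝ, 1 < q → q < 2 → IsMult (ENNReal.ofReal q) uu := by
    intro q hq1 hq2
    obtain ⟨A, hA⟩ := exists_l2_const uu_linf
    obtain ⟨W, hW⟩ := weak_one hA hormander
    exact ⟨uu_linf, marc hA hW hq1 hq2⟩
  rcases lt_trichotomy p 2 with h | h | h
  · exact key p hp h
  · rw [h]
    have : ENNReal.ofReal 2 = 2 := by norm_num
    rw [this]
    exact isMult_two uu_linf
  · have hpq := Real.HolderConjugate.conjExponent hp
    apply IsMult.dual' hpq.symm
    apply key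
    · exact hpq.symm.lt
    · have h1 := hpq.inv_add_inv_eq_one
      have hq0 := hpq.symm.pos
      have hp0 : 0 < p := by linarith
      have h2 : p⁻¹ < 2⁻¹ := by gcongr
      have h3 : (2 : ℝ)⁻¹ < (Real.conjExponent p)⁻¹ := by
        have : (2 : ℝ)⁻¹ = 1 - 2⁻¹ := by norm_num
        linarith
      exact (inv_lt_inv₀ (by norm_num) hq0).1 h3

end Pool.Agent.Work.MP_bd9a46_an
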