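import Pool.Agent.Work.MP_bd9a46_an.Defs

/-!
# Parseval and the `ℓ²` bound
-/

open MeasureTheory AddCircle
open scoped ENNReal NNReal

namespace Pool.Agent.Work.MP_bd9a46_an

/-- The trigonometric polynomial with coefficients `c`. -/
noncomputable def tp (c : ℤ →₀ ℂ) (x : UnitAddCircle) : ℂ := c.sum fun m a => a * fourier m x

lemma tp_cont (c : ℤ →₀ ℂ) : Continuous (tp c) := by
  unfold tp Finsupp.sum
  apply continuous_finsetSum
  intro m _
  exact continuous_const.mul (map_continuous (fourier m))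

lemma isLinf_of_bound {f : UnitAddCircle → ℂ} (hf : AEStronglyMeasurable f haarAddCircle) {C : ℝ}
    (h : ∀ x, ‖f x‖ ≤ C) : IsLinf f :=
  memLp_top_of_bound hf C (Filter.Eventually.of_forall h)

lemma IsLinf.integrable {f : UnitAddCircle → ℂ} (hf : IsLinf f) : Integrable f haarAddCircle :=
  (hf.mono_exponent le_top : MemLp f 1 haarAddCircle).integrable le_rfl

lemma IsLinf.memLp {f : UnitAddCircle → ℂ} (hf : IsLinf f) (p : ℝ≥0∞) : MemLp f p haarAddCircle :=
  hf.mono_exponent le_top

lemma tp_linf (c : ℤ →₀ ℂ) : IsLinf (tp c) := by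
  obtain ⟨C, hC⟩ := isCompact_univ.exists_bound_of_continuousOn (tp_cont c).continuousOn
  exact isLinf_of_bound (tp_cont c).aestronglyMeasurable fun x => hC x (Set.mem_univ x)

lemma fourierCoeff_mul_fourier (f : UnitAddCircle → ℂ) (m n : ℤ) :
    fourierCoeff (fun x => f x * fourier m x) n = fourierCoeff f (n - m) := by
  unfold fourierCoeff
  apply integral_congr_ae
  filter_upwards with x
  have : (fourier (-(n - m)) x : ℂ) = fourier (-n) x * fourier m x := by
    rw [← fourier_add]; congr 2; ring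
  simp only [smul_eq_mul]
  rw [this]; ring

lemma integrable_mul_fourier {f : UnitAddCircle → ℂ} (hf : Integrable f haarAddCircle) (m : ℤ) :
    Integrable (fun x => f x * fourier m x) haarAddCircle := by
  have := hf.fourier_smul m
  refine this.congr (Filter.Eventually.of_forall fun x => ?_)
  simp only [smul_eq_mul]; ring

lemma fourierCoeff_mul_tp {f : UnitAddCircle → ℂ} (hf : Integrable f haarAddCircle) (c : ℤ →₀ ℂ)
    (n : ℤ) : fourierCoeff (fun x => f x * tp c x) n = conv (fourierCoeff f) c n := by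
  have e1 : (fun x => f x * tp c x) = ∑ m ∈ c.support, fun x => c m * (f x * fourier m x) := by
    funext x
    rw [Finset.sum_apply]
    unfold tp Finsupp.sum
    rw [Finset.mul_sum]
    apply Finset.sum_congr rfl
    intro m _
    ring
  rw [e1, fourierCoeff.sum _ _ (fun m _ => (integrable_mul_fourier hf m).const_mul _),
    Finset.sum_apply]
  unfold conv Finsupp.sum
  apply Finset.sum_congr rfl
  intro m _
  rw [fourierCoeff.const_mul, fourierCoeff_mul_fourier]
  ring

lemma fourierCoeff_one (n : ℤ) : fourierCoeff (fun _ : UnitAddCircle => (1 : ℂ)) n =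
    if n = 0 then 1 else 0 := by
  have h := congrFun (fourierCoeff_fourier (T := 1) 0) n
  have e : (fun _ : UnitAddCircle => (1 : ℂ)) = (fourier 0 : C(UnitAddCircle, ℂ)) := by
    funext x; simp
  rw [e, h, Pi.single_apply]

lemma fourierCoeff_tp (c : ℤ →₀ ℂ) (n : ℤ) : fourierCoeff (tp c) n = c n := by
  have h := fourierCoeff_mul_tp (f := fun _ => 1) (integrable_const _) c n
  simp only [one_mul] at h
  rw [show tp c = fun x => tp c x from rfl, h]
  unfold conv Finsupp.sum
  simp only [fourierCoeff_one, sub_eq_zero]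
  rw [Finset.sum_eq_single n]
  · simp
  · intro m _ hm
    rw [if_neg (fun h => hm h.symm), zero_mul]
  · intro hn
    rw [Finsupp.notMem_support_iff.1 hn, mul_zero]

lemma parseval {f : UnitAddCircle → ℂ} (hf : MemLp f 2 haarAddCircle) :
    eLpNorm (fourierCoeff f) 2 Measure.count = eLpNorm f 2 haarAddCircle := by
  have h1 := hasSum_sq_fourierCoeff hf.toLp
  have h2 : fourierCoeff (hf.toLp : UnitAddCircle → ℂ) = fourierCoeff f :=
    fourierCoeff_congr_ae hf.coeFn_toLp
  rw [h2] at h1
  have h3 : ∫ t, ‖(hf.toLp : UnitAddCircle → ℂ) t‖ ^ 2 ∂haarAddCircle =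
      ∫ t, ‖f t‖ ^ 2 ∂haarAddCircle := by
    apply integral_congr_ae
    filter_upwards [hf.coeFn_toLp] with x hx
    rw [hx]
  rw [h3] at h1
  rw [eLpNorm_eq_lintegral_rpow_enorm_toReal (by norm_num) (by norm_num),
    eLpNorm_eq_lintegral_rpow_enorm_toReal (by norm_num) (by norm_num), lintegral_count]
  congr 1
  have e : ∀ z : ℂ, ‖z‖ₑ ^ (2 : ℝ≥0∞).toReal = ENNReal.ofReal (‖z‖ ^ 2) := by
    intro z
    rw [← ofReal_norm, ENNReal.toReal_ofNat, ENNReal.ofReal_rpow_of_nonneg (norm_nonneg _)
      (by norm_num)]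
    norm_num
  simp only [e]
  rw [← ENNReal.ofReal_tsum_of_nonneg (fun n => by positivity) h1.summable, h1.tsum_eq,
    ofReal_integral_eq_lintegral_ofReal _ (Filter.Eventually.of_forall fun x => by positivity)]
  exact (memLp_two_iff_integrable_sq_norm hf.1).1 hf

theorem l2_bound {f : UnitAddCircle → ℂ} (hf : IsLinf f) (c : ℤ →₀ ℂ) :
    eLpNorm (conv (fourierCoeff f) c) 2 Measure.count ≤
      eLpNorm f ∞ haarAddCircle * eLpNorm (c : ℤ → ℂ) 2 Measure.count := by
  have e1 : conv (fourierCoeff f) c = fourierCoeff (f • tp c) := by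
    funext n
    exact (fourierCoeff_mul_tp hf.integrable c n).symm
  have e2 : (c : ℤ → ℂ) = fourierCoeff (tp c) := by
    funext n; exact (fourierCoeff_tp c n).symm
  have hm : MemLp (f • tp c) 2 haarAddCircle := by
    refine MemLp.mono_exponent (q := ∞) ?_ le_top
    exact (tp_linf c).smul hf
  rw [e1, e2, parseval hm, parseval ((tp_linf c).memLp 2)]
  exact eLpNorm_smul_le_eLpNorm_top_mul_eLpNorm 2 (tp_cont c).aestronglyMeasurable f

end Pool.Agent.Work.MP_bd9a46_an
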