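import Mathlib

/-!
# Rudin–Shapiro polynomials
-/

namespace Pool.Agent.Work.MP_bd9a46_an

lemma sum_range_double (n : ℕ) (a b : ℕ → ℂ) (z : ℂ) :
    ∑ l ∈ Finset.range (2 ^ (n + 1)), (if l < 2 ^ n then a l else b (l - 2 ^ n)) * z ^ l =
      ∑ l ∈ Finset.range (2 ^ n), a l * z ^ l +
        z ^ (2 ^ n) * ∑ l ∈ Finset.range (2 ^ n), b l * z ^ l := by
  rw [pow_succ, mul_two, Finset.sum_range_add]
  congr 1
  · apply Finset.sum_congr rfl
    intro l hl
    rw [if_pos (Finset.mem_range.1 hl)]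
  · rw [Finset.mul_sum]
    apply Finset.sum_congr rfl
    intro l _
    rw [if_neg (by omega), Nat.add_sub_cancel_left, pow_add]
    ring

theorem rudin_shapiro (n : ℕ) : ∃ a b : ℕ → ℂ, (∀ l, ‖a l‖ ≤ 1) ∧ (∀ l, ‖b l‖ ≤ 1) ∧
    ∀ z : ℂ, ‖z‖ = 1 → ‖∑ l ∈ Finset.range (2 ^ n), a l * z ^ l‖ ^ 2 +
      ‖∑ l ∈ Finset.range (2 ^ n), b l * z ^ l‖ ^ 2 = 2 * 2 ^ n := by
  induction n with
  | zero =>
    refine ⟨fun _ => 1, fun _ => 1, fun _ => by simp, fun _ => by simp, fun z _ => ?_⟩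
    simp
    norm_num
  | succ n ih =>
    obtain ⟨a, b, ha, hb, h⟩ := ih
    refine ⟨fun l => if l < 2 ^ n then a l else b (l - 2 ^ n),
      fun l => if l < 2 ^ n then a l else (fun l => - b l) (l - 2 ^ n), ?_, ?_, ?_⟩
    · intro l
      simp only
      split_ifs
      · exact ha l
      · exact hb _
    · intro l
      simp only
      split_ifs
      · exact ha l
      · rw [norm_neg]; exact hb _
    · intro z hz
      have e1 := sum_range_double n a b z
      have e2 := sum_range_double n a (fun l => - b l) z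
      simp only at e1 e2 ⊢
      rw [e1, e2]
      have hneg : ∑ l ∈ Finset.range (2 ^ n), -b l * z ^ l =
          - ∑ l ∈ Finset.range (2 ^ n), b l * z ^ l := by
        rw [← Finset.sum_neg_distrib]
        apply Finset.sum_congr rfl
        intro l _; ring
      rw [hneg]
      set P := ∑ l ∈ Finset.range (2 ^ n), a l * z ^ l
      set Q := ∑ l ∈ Finset.range (2 ^ n), b l * z ^ l
      have hpar := parallelogram_law_with_norm ℂ P (z ^ (2 ^ n) * Q)
      have hn : ‖z ^ (2 ^ n) * Q‖ = ‖Q‖ := by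
        rw [norm_mul, norm_pow, hz, one_pow, one_mul]
      have hsub : P + z ^ (2 ^ n) * -Q = P - z ^ (2 ^ n) * Q := by ring
      rw [hsub]
      rw [hn] at hpar
      have h' := h z hz
      have e3 : (2 : ℝ) * 2 ^ (n + 1) = 2 * (2 * 2 ^ n) := by ring
      rw [e3, ← h']
      nlinarith [hpar]

end Pool.Agent.Work.MP_bd9a46_an
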