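import Pool.Agent.Work.MP_bd9a46_an.Seq
import Pool.Agent.Work.MP_bd9a46_an.RS

/-!
# The points `x_i` and the bumps near them
-/

open MeasureTheory AddCircle
open scoped ENNReal NNReal ComplexConjugate

namespace Pool.Agent.Work.MP_bd9a46_an

/-- The point `x_i = 1 / (32 L_i)`. -/
noncomputable def xx (i : ℕ) : UnitAddCircle := ((1 / (32 * 2 ^ ll i) : ℝ) : UnitAddCircle)

lemma tau_xx (i : ℕ) : tau (xx i) = 2 * Real.sin (Real.pi / (32 * 2 ^ ll i)) := by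
  unfold tau xx zz
  rw [fourier_coe_apply]
  have h1 : Complex.exp (2 * Real.pi * Complex.I * (1 : ℤ) * ((1 / (32 * 2 ^ ll i) : ℝ) : ℂ) / (1 : ℝ)) =
      Complex.exp (Complex.I * ((2 * Real.pi / (32 * 2 ^ ll i) : ℝ) : ℂ)) := by
    congr 1
    push_cast
    ring
  rw [h1, norm_sub_rev, Complex.norm_exp_I_mul_ofReal_sub_one]
  have h2 : 2 * Real.pi / (32 * 2 ^ ll i) / 2 = Real.pi / (32 * 2 ^ ll i) := by ring
  rw [h2, Real.norm_of_nonneg]
  apply mul_nonneg (by norm_num)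
  apply Real.sin_nonneg_of_nonneg_of_le_pi
  · positivity
  · rw [div_le_iff₀ (by positivity)]
    have h3 : (1 : ℝ) ≤ 32 * 2 ^ ll i := by
      have : (1 : ℝ) ≤ 2 ^ ll i := one_le_pow₀ (by norm_num)
      linarith
    have := Real.pi_pos
    nlinarith

lemma tau_xx_le (i : ℕ) : tau (xx i) ≤ 1 / (4 * 2 ^ ll i) := by
  rw [tau_xx]
  have h1 : Real.sin (Real.pi / (32 * 2 ^ ll i)) ≤ Real.pi / (32 * 2 ^ ll i) :=
    Real.sin_le (by positivity)
  have h2 : Real.pi < 4 := by have := Real.pi_lt_d2; linarith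
  have hL : (0 : ℝ) < 2 ^ ll i := by positivity
  calc 2 * Real.sin (Real.pi / (32 * 2 ^ ll i)) ≤ 2 * (Real.pi / (32 * 2 ^ ll i)) := by linarith
    _ ≤ 2 * (4 / (32 * 2 ^ ll i)) := by gcongr
    _ = 1 / (4 * 2 ^ ll i) := by field_simp; norm_num

lemma le_tau_xx (i : ℕ) : 1 / (8 * 2 ^ ll i) ≤ tau (xx i) := by
  rw [tau_xx]
  have hL : (1 : ℝ) ≤ 2 ^ ll i := one_le_pow₀ (by norm_num)
  have h1 : 2 / Real.pi * (Real.pi / (32 * 2 ^ ll i)) ≤ Real.sin (Real.pi / (32 * 2 ^ ll i)) := by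
    apply Real.mul_le_sin (by positivity)
    have := Real.pi_pos
    gcongr
    linarith
  have h2 : 2 / Real.pi * (Real.pi / (32 * 2 ^ ll i)) = 1 / (16 * 2 ^ ll i) := by
    have := Real.pi_pos.ne'
    field_simp
    norm_num
  rw [h2] at h1
  calc (1 : ℝ) / (8 * 2 ^ ll i) = 2 * (1 / (16 * 2 ^ ll i)) := by field_simp; norm_num
    _ ≤ _ := by gcongr

/-- The bump is at least `1/2` at `x_i`. -/
lemma bump_xx (i : ℕ) : 1 / 2 ≤ ‖bump i (xx i)‖ := by
  have hL : (0 : ℝ) < 2 ^ ll i := by positivity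
  have h1 := dir_near (L := 2 ^ ll i) (by positivity) (xx i)
  have h2 := dir_decay (L := 64 * 2 ^ ll i) (by positivity) (xx i)
  push_cast at h1 h2
  have h3 := tau_xx_le i
  have h4 := le_tau_xx i
  have h5 : (2 : ℝ) ^ ll i * tau (xx i) ≤ 1 / 4 := by
    calc (2 : ℝ) ^ ll i * tau (xx i) ≤ 2 ^ ll i * (1 / (4 * 2 ^ ll i)) := by gcongr
      _ = 1 / 4 := by field_simp
  have h6 : 8 ≤ 64 * 2 ^ ll i * tau (xx i) := by
    calc (8 : ℝ) = 64 * 2 ^ ll i * (1 / (8 * 2 ^ ll i)) := by field_simp; norm_num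
      _ ≤ _ := by gcongr
  have h7 : 8 * ‖dir (64 * 2 ^ ll i) (xx i)‖ ≤ 2 := by
    refine le_trans ?_ h2
    gcongr
  have h8 : ‖(1 : ℂ)‖ ≤ ‖1 - dir (2 ^ ll i) (xx i)‖ + ‖bump i (xx i)‖ +
      ‖dir (64 * 2 ^ ll i) (xx i)‖ := by
    have : (1 : ℂ) = (1 - dir (2 ^ ll i) (xx i)) + bump i (xx i) + dir (64 * 2 ^ ll i) (xx i) := by
      unfold bump; ring
    calc ‖(1 : ℂ)‖ = ‖(1 - dir (2 ^ ll i) (xx i)) + bump i (xx i) +
          dir (64 * 2 ^ ll i) (xx i)‖ := by rw [← this]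
      _ ≤ _ := norm_add₃_le
  rw [norm_one] at h8
  linarith

lemma tau_triangle (x y : UnitAddCircle) : tau x ≤ tau y + tau (x - y) := by
  rw [tau_sub]
  unfold tau
  calc ‖1 - zz x‖ = ‖(1 - zz y) - (zz x - zz y)‖ := by ring_nf
    _ ≤ _ := norm_sub_le _ _

lemma tau_triangle' (x y : UnitAddCircle) : tau y ≤ tau x + tau (x - y) := by
  rw [tau_sub]
  unfold tau
  calc ‖1 - zz y‖ = ‖(1 - zz x) + (zz x - zz y)‖ := by ring_nf
    _ ≤ _ := norm_add_le _ _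

/-- The radius `ρ_i`. -/
noncomputable def rr (i : ℕ) : ℝ := 1 / (128 * 4 ^ i * 2 ^ ll i)

lemma rr_pos (i : ℕ) : 0 < rr i := by unfold rr; positivity

lemma rr_le (i : ℕ) : rr i ≤ 1 / (16 * 2 ^ ll i) := by
  unfold rr
  have h1 : (1 : ℝ) ≤ 4 ^ i := one_le_pow₀ (by norm_num)
  have hL : (0 : ℝ) < 2 ^ ll i := by positivity
  apply one_div_le_one_div_of_le (by positivity)
  nlinarith

/-- Near `x_i` the bump is almost constant. -/
lemma bump_near_xx {i : ℕ} {x : UnitAddCircle} (h : tau (x - xx i) ≤ rr i) :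
    ‖bump i x - bump i (xx i)‖ ≤ (1 / 4) ^ i := by
  have hL : (0 : ℝ) < 2 ^ ll i := by positivity
  calc ‖bump i x - bump i (xx i)‖ ≤ 65 * 2 ^ ll i * tau (x - xx i) := bump_lip i x (xx i)
    _ ≤ 65 * 2 ^ ll i * rr i := by gcongr
    _ = 65 / 128 * (1 / 4) ^ i := by
        unfold rr
        rw [one_div_pow]
        field_simp
    _ ≤ 1 * (1 / 4) ^ i := by gcongr; norm_num
    _ = _ := one_mul _

/-- Near `x_i` the other bumps are small. -/
lemma bump_other {i j : ℕ} (hij : j ≠ i) {x : UnitAddCircle} (h : tau (x - xx i) ≤ rr i) :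
    ‖bump j x‖ ≤ (1 / 2) ^ i * (1 / 2) ^ j := by
  have hL : (0 : ℝ) < 2 ^ ll i := by positivity
  have h1 := tau_triangle x (xx i)
  have h2 := tau_triangle' x (xx i)
  have h3 := tau_xx_le i
  have h4 := le_tau_xx i
  have h5 := rr_le i
  have hup : tau x ≤ 1 / (2 * 2 ^ ll i) := by
    calc tau x ≤ 1 / (4 * 2 ^ ll i) + 1 / (16 * 2 ^ ll i) := by linarith
      _ ≤ 1 / (4 * 2 ^ ll i) + 1 / (4 * 2 ^ ll i) := by gcongr; norm_num
      _ = 1 / (2 * 2 ^ ll i) := by field_simp; norm_num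
  have hlow : 1 / (16 * 2 ^ ll i) ≤ tau x := by
    have : 1 / (8 * (2 : ℝ) ^ ll i) = 1 / (16 * 2 ^ ll i) + 1 / (16 * 2 ^ ll i) := by
      field_simp; norm_num
    linarith
  have hq : ∀ n : ℕ, (1 / 4 : ℝ) ^ n = (1 / 2) ^ n * (1 / 2) ^ n := by
    intro n; rw [← mul_pow]; norm_num
  rcases lt_or_gt_of_ne hij with h' | h'
  · have h6 : 4 ^ i * 2 ^ yy i * tau x ≤ 1 := by
      have hLe : (2 : ℝ) ^ ll i = 4 * 16 ^ i * 2 ^ yy i := by
        unfold ll
        rw [pow_add, pow_add, pow_mul]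
        norm_num
        ring
      have h16 : (4 : ℝ) ^ i ≤ 16 ^ i := by gcongr; norm_num
      calc 4 ^ i * 2 ^ yy i * tau x ≤ 4 ^ i * 2 ^ yy i * (1 / (2 * 2 ^ ll i)) := by gcongr
        _ ≤ 16 ^ i * 2 ^ yy i * (1 / (2 * 2 ^ ll i)) := by gcongr
        _ = 1 / 8 := by rw [hLe]; field_simp; norm_num
        _ ≤ 1 := by norm_num
    refine (bump_close h' h6).trans ?_
    rw [hq]
    have : (1 / 2 : ℝ) ^ i ≤ (1 / 2) ^ j := pow_le_pow_of_le_one (by norm_num) (by norm_num) h'.le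
    gcongr
  · have h6 : 1 ≤ 4 ^ j * 2 ^ yy j * tau x := by
      have h7 := scale_mono (i := i + 1) (j := j) h'
      have h8 : 16 * (2 : ℝ) ^ ll i ≤ 4 ^ (i + 1) * 2 ^ yy (i + 1) := by
        rw [yy_succ]
        have h9 : ll i + 4 ≤ nn i + 6 := by have := ll_le_nn i; omega
        have h10 : (1 : ℝ) ≤ 4 ^ (i + 1) := one_le_pow₀ (by norm_num)
        calc 16 * (2 : ℝ) ^ ll i = 2 ^ (ll i + 4) := by rw [pow_add]; norm_num; ring
          _ ≤ 2 ^ (nn i + 6) := pow_le_pow_right₀ (by norm_num) h9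
          _ ≤ 4 ^ (i + 1) * 2 ^ (nn i + 6) := le_mul_of_one_le_left (by positivity) h10
      calc (1 : ℝ) = 16 * 2 ^ ll i * (1 / (16 * 2 ^ ll i)) := by field_simp
        _ ≤ 16 * 2 ^ ll i * tau x := by gcongr
        _ ≤ 4 ^ j * 2 ^ yy j * tau x := by
            have := tau_nonneg x
            have h9 := h8.trans h7
            gcongr
    refine (bump_far h6).trans ?_
    rw [hq]
    have : (1 / 2 : ℝ) ^ j ≤ (1 / 2) ^ i := pow_le_pow_of_le_one (by norm_num) (by norm_num) h'.le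
    gcongr

/-- Near `x_i` a superposition is close to its `i`-th term. -/
lemma sup_near {g : ℕ → UnitAddCircle → ℂ} (hg : ∀ i x, ‖g i x‖ ≤ 1) {i : ℕ}
    {x : UnitAddCircle} (h : tau (x - xx i) ≤ rr i) :
    ‖sup g x - bump i x * g i x‖ ≤ 2 * (1 / 2) ^ i := by
  classical
  have hs := summable_term hg x
  have h1 : sup g x - bump i x * g i x = ∑' j, (if j = i then 0 else bump j x * g j x) := by
    unfold sup
    rw [hs.tsum_eq_add_tsum_ite i]
    ring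
  rw [h1]
  have hgeo : HasSum (fun j : ℕ => (1 / 2 : ℝ) ^ i * (1 / 2) ^ j) ((1 / 2) ^ i * 2) :=
    hasSum_geometric_two.mul_left _
  refine (tsum_of_norm_bounded hgeo fun j => ?_).trans (by linarith)
  split_ifs with hj
  · rw [norm_zero]; positivity
  · exact (norm_term_le hg j x).trans (bump_other hj h)

/-- The mass of the Fejér kernel of order `2 ^ mm i` outside the radius `ρ_i`. -/
lemma fej_out {i : ℕ} {x : UnitAddCircle} (h : rr i ≤ tau (x - xx i)) :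
    fej (2 ^ mm i) (xx i) x ≤ (1 / 4) ^ i := by
  refine (fej_far (by positivity) (rr_pos i) h).trans (le_of_eq ?_)
  unfold rr mm
  push_cast
  have h1 : (2 : ℝ) ^ (2 * ll i + 6 * i + 16) = (2 ^ ll i) ^ 2 * (4 ^ i) ^ 3 * 2 ^ 16 := by
    rw [pow_add, pow_add, pow_mul, pow_mul, ← pow_mul 4 i 3, mul_comm i 3, pow_mul 4 3 i]
    congr 2
    · rw [← pow_mul, ← pow_mul, mul_comm]
    · norm_num
  rw [h1, one_div_pow, div_pow]
  field_simp
  norm_num

end Pool.Agent.Work.MP_bd9a46_an
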