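import Pool.Agent.Work.MP_bd9a46_an.Vfun

/-!
# The product `u v` is not in `X_p`
-/

open MeasureTheory AddCircle Filter Topology
open scoped ENNReal NNReal ComplexConjugate

namespace Pool.Agent.Work.MP_bd9a46_an

/-- Pointwise error bound. -/
lemma point_bound (i : ℕ) (x : UnitAddCircle) :
    ‖uu x * vv x * (fourier (kk i) x : ℂ) * conj (hh i x) -
      bump i (xx i) ^ 2 * ((‖hh i x‖ ^ 2 : ℝ) : ℂ)‖ * fej (2 ^ mm i) (xx i) x ≤
      (4 * (1 / 4) ^ i + 12 * (1 / 2) ^ i) * fej (2 ^ mm i) (xx i) x + 20 * (1 / 4) ^ i := by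
  have hf0 := fej_nonneg (2 ^ mm i) (xx i) x
  have hb2 := bump_le_two i x
  have hb02 := bump_le_two i (xx i)
  have hh1 := hh_le i x
  have hη : (0 : ℝ) ≤ (1 / 4) ^ i := by positivity
  have hδ : (0 : ℝ) ≤ (1 / 2) ^ i := by positivity
  have hδ1 : (1 / 2 : ℝ) ^ i ≤ 1 := pow_le_one₀ (by norm_num) (by norm_num)
  by_cases hx : tau (x - xx i) ≤ rr i
  · set b := bump i x
    set b0 := bump i (xx i)
    set h := hh i x
    set r1 : ℂ := (uu x - b * modu i x) * (fourier (kk i) x : ℂ) with hr1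
    set r2 : ℂ := vv x - b * h with hr2
    have e1 : uu x * (fourier (kk i) x : ℂ) = b + r1 := by
      have : modu i x * (fourier (kk i) x : ℂ) = 1 := by
        unfold modu
        rw [← fourier_add, neg_add_cancel, fourier_zero]
      rw [hr1, sub_mul, mul_assoc, this]
      ring
    have e2 : vv x = b * h + r2 := by rw [hr2]; ring
    have n1 : ‖r1‖ ≤ 2 * (1 / 2) ^ i := by
      rw [hr1, norm_mul, norm_fourier, mul_one]
      exact sup_near modu_le hx
    have n2 : ‖r2‖ ≤ 2 * (1 / 2) ^ i := sup_near hh_le hx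
    have n3 : ‖b - b0‖ ≤ (1 / 4) ^ i := bump_near_xx hx
    have e3 : ((‖h‖ ^ 2 : ℝ) : ℂ) = h * conj h := by
      rw [Complex.mul_conj, Complex.normSq_eq_norm_sq]
    have e4 : uu x * vv x * (fourier (kk i) x : ℂ) * conj h - b0 ^ 2 * ((‖h‖ ^ 2 : ℝ) : ℂ) =
        (b - b0) * (b + b0) * (h * conj h) + b * r2 * conj h + r1 * b * (h * conj h) +
          r1 * r2 * conj h := by
      rw [e3]
      calc uu x * vv x * (fourier (kk i) x : ℂ) * conj h - b0 ^ 2 * (h * conj h)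
          = (uu x * (fourier (kk i) x : ℂ)) * vv x * conj h - b0 ^ 2 * (h * conj h) := by ring
        _ = _ := by rw [e1, e2]; ring
    have hch : ‖conj h‖ ≤ 1 := by rw [RCLike.norm_conj]; exact hh1
    have hhh : ‖h * conj h‖ ≤ 1 := by
      rw [norm_mul]
      exact mul_le_one₀ hh1 (norm_nonneg _) hch
    have t1 : ‖(b - b0) * (b + b0) * (h * conj h)‖ ≤ (1 / 4) ^ i * 4 * 1 := by
      rw [norm_mul, norm_mul]
      have : ‖b + b0‖ ≤ 4 := (norm_add_le _ _).trans (by linarith)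
      gcongr
    have t2 : ‖b * r2 * conj h‖ ≤ 2 * (2 * (1 / 2) ^ i) * 1 := by
      rw [norm_mul, norm_mul]; gcongr
    have t3 : ‖r1 * b * (h * conj h)‖ ≤ (2 * (1 / 2) ^ i) * 2 * 1 := by
      rw [norm_mul, norm_mul]; gcongr
    have t4 : ‖r1 * r2 * conj h‖ ≤ (2 * (1 / 2) ^ i) * (2 * (1 / 2) ^ i) * 1 := by
      rw [norm_mul, norm_mul]; gcongr
    have t5 : ‖uu x * vv x * (fourier (kk i) x : ℂ) * conj h - b0 ^ 2 * ((‖h‖ ^ 2 : ℝ) : ℂ)‖ ≤
        4 * (1 / 4) ^ i + 12 * (1 / 2) ^ i := by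
      rw [e4]
      refine (norm_add_le _ _).trans ?_
      have := (norm_add₃_le (a := (b - b0) * (b + b0) * (h * conj h)) (b := b * r2 * conj h)
        (c := r1 * b * (h * conj h)))
      nlinarith
    have t6 := mul_le_mul_of_nonneg_right t5 hf0
    exact t6.trans (le_add_of_nonneg_right (mul_nonneg (by norm_num) hη))
  · push Not at hx
    have hfe : fej (2 ^ mm i) (xx i) x ≤ (1 / 4) ^ i := fej_out hx.le
    have hu : ‖uu x‖ ≤ 4 := norm_sup_le modu_le x
    have hv : ‖vv x‖ ≤ 4 := norm_sup_le hh_le x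
    generalize fej (2 ^ mm i) (xx i) x = w at hf0 hfe ⊢
    generalize uu x = U at hu ⊢
    generalize vv x = V at hv ⊢
    generalize hh i x = H at hh1 ⊢
    generalize bump i (xx i) = b0 at hb02 ⊢
    have hfo : ‖(fourier (kk i) x : ℂ)‖ = 1 := norm_fourier _ _
    generalize (fourier (kk i) x : ℂ) = Z at hfo ⊢
    have t1 : ‖U * V * Z * conj H - b0 ^ 2 * ((‖H‖ ^ 2 : ℝ) : ℂ)‖ ≤ 20 := by
      refine (norm_sub_le _ _).trans ?_
      have a0 : ‖U * V * Z * conj H‖ = ‖U‖ * ‖V‖ * ‖H‖ := by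
        rw [norm_mul, norm_mul, norm_mul, hfo, RCLike.norm_conj, mul_one]
      have a0' : ‖b0 ^ 2 * ((‖H‖ ^ 2 : ℝ) : ℂ)‖ = ‖b0‖ ^ 2 * ‖H‖ ^ 2 := by
        rw [norm_mul, norm_pow, Complex.norm_real, Real.norm_of_nonneg (by positivity)]
      rw [a0, a0']
      have a1 : ‖U‖ * ‖V‖ * ‖H‖ ≤ 4 * 4 * 1 := by gcongr
      have a2 : ‖b0‖ ^ 2 * ‖H‖ ^ 2 ≤ 2 ^ 2 * 1 ^ 2 := by gcongr
      linarith
    have t2 : ‖U * V * Z * conj H - b0 ^ 2 * ((‖H‖ ^ 2 : ℝ) : ℂ)‖ * w ≤ 20 * (1 / 4) ^ i :=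
      mul_le_mul t1 hfe hf0 (by norm_num)
    have t3 : 0 ≤ (4 * (1 / 4) ^ i + 12 * (1 / 2) ^ i) * w :=
      mul_nonneg (by positivity) hf0
    linarith

lemma uv_integrable : Integrable (uu * vv) haarAddCircle := by
  have : IsLinf (uu * vv) := by
    have h := MemLp.smul (p := ∞) (q := ∞) (r := ∞) vv_linf uu_linf
    exact h
  exact this.integrable

/-- The lower bound for the test functionals on `u v`. -/
lemma test_uv (i : ℕ) :
    1 / 8 - (24 * (1 / 4) ^ i + 12 * (1 / 2) ^ i) ≤ ‖test i (uu * vv)‖ := by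
  set b0 := bump i (xx i) with hb0
  have hint1 := test_integrable' uv_integrable i
  have hc : Continuous (fun x => fej (2 ^ mm i) (xx i) x * ‖hh i x‖ ^ 2) :=
    (fej_cont _ _).mul ((hh_cont i).norm.pow 2)
  have hint2 : Integrable (fun x => ((fej (2 ^ mm i) (xx i) x * ‖hh i x‖ ^ 2 : ℝ) : ℂ))
      haarAddCircle := continuous_integrable (Complex.continuous_ofReal.comp hc)
  have hI : ‖test i (uu * vv) - b0 ^ 2 *
      ∫ x, ((fej (2 ^ mm i) (xx i) x * ‖hh i x‖ ^ 2 : ℝ) : ℂ) ∂haarAddCircle‖ ≤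
      24 * (1 / 4) ^ i + 12 * (1 / 2) ^ i := by
    unfold test
    rw [← integral_const_mul, ← integral_sub hint1 (hint2.const_mul _)]
    have hbound : ∀ᵐ x ∂(haarAddCircle : Measure UnitAddCircle),
        ‖((uu * vv) x * (fourier (kk i) x : ℂ) * conj (hh i x)) *
        (fej (2 ^ mm i) (xx i) x : ℂ) - b0 ^ 2 *
          ((fej (2 ^ mm i) (xx i) x * ‖hh i x‖ ^ 2 : ℝ) : ℂ)‖ ≤
        (4 * (1 / 4) ^ i + 12 * (1 / 2) ^ i) * fej (2 ^ mm i) (xx i) x + 20 * (1 / 4) ^ i := by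
      filter_upwards with x
      refine le_trans (le_of_eq ?_) (point_bound i x)
      have : ((uu * vv) x * (fourier (kk i) x : ℂ) * conj (hh i x)) *
        (fej (2 ^ mm i) (xx i) x : ℂ) - b0 ^ 2 *
          ((fej (2 ^ mm i) (xx i) x * ‖hh i x‖ ^ 2 : ℝ) : ℂ) =
          (uu x * vv x * (fourier (kk i) x : ℂ) * conj (hh i x) -
      b0 ^ 2 * ((‖hh i x‖ ^ 2 : ℝ) : ℂ)) * (fej (2 ^ mm i) (xx i) x : ℂ) := by
        simp only [Pi.mul_apply]
        push_cast
        ring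
      rw [this, norm_mul, Complex.norm_real, Real.norm_of_nonneg (fej_nonneg _ _ _)]
    refine (norm_integral_le_of_norm_le ?_ hbound).trans ?_
    · exact ((integrable_fej _ _).const_mul _).add (integrable_const _)
    · rw [integral_add ((integrable_fej _ _).const_mul _) (integrable_const _),
        integral_const_mul, integral_fej (by positivity), integral_const]
      simp only [probReal_univ, smul_eq_mul, one_mul, mul_one]
      linarith
  have hlow : 1 / 8 ≤ ‖b0 ^ 2 *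
      ∫ x, ((fej (2 ^ mm i) (xx i) x * ‖hh i x‖ ^ 2 : ℝ) : ℂ) ∂haarAddCircle‖ := by
    rw [integral_complex_ofReal, norm_mul, norm_pow, Complex.norm_real]
    have h1 := hh_mass i
    have h2 := bump_xx i
    have h3 : (1 / 2 : ℝ) ^ 2 ≤ ‖b0‖ ^ 2 := by gcongr
    have h4 : (1 / 2 : ℝ) ≤ ‖∫ x, fej (2 ^ mm i) (xx i) x * ‖hh i x‖ ^ 2 ∂haarAddCircle‖ :=
      h1.trans (le_abs_self _)
    calc (1 / 8 : ℝ) = (1 / 2) ^ 2 * (1 / 2) := by norm_num
      _ ≤ _ := by gcongr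
  have h5 := norm_sub_norm_le (b0 ^ 2 *
      ∫ x, ((fej (2 ^ mm i) (xx i) x * ‖hh i x‖ ^ 2 : ℝ) : ℂ) ∂haarAddCircle) (test i (uu * vv))
  rw [norm_sub_rev] at h5
  linarith

/-- The Fourier coefficients of a multiplier of `ℓ_p` are in `ℓ_p`. -/
lemma coeff_sum {p : ℝ} (hp : 1 < p) {m : UnitAddCircle → ℂ} (hm : IsMult (ENNReal.ofReal p) m) :
    ∃ B : ℝ, 0 ≤ B ∧ ∀ s : Finset ℤ, ∑ n ∈ s, ‖fourierCoeff m n‖ ^ p ≤ B := by
  have hp0 : 0 < p := by linarith
  obtain ⟨-, C, hC⟩ := hm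
  have h := hC (Finsupp.single 0 1)
  have e1 : conv (fourierCoeff m) (Finsupp.single 0 1) = fourierCoeff m := by
    funext n
    unfold conv
    rw [Finsupp.sum_single_index] <;> simp
  rw [e1] at h
  have hp1 : ENNReal.ofReal p ≠ 0 := by
    rw [Ne, ENNReal.ofReal_eq_zero, not_le]; exact hp0
  have htr : (ENNReal.ofReal p).toReal = p := ENNReal.toReal_ofReal hp0.le
  rw [eLpNorm_eq_lintegral_rpow_enorm_toReal hp1 ENNReal.ofReal_ne_top,
    eLpNorm_eq_lintegral_rpow_enorm_toReal hp1 ENNReal.ofReal_ne_top, htr, lintegral_count,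
    lintegral_count] at h
  have e2 : ∑' n : ℤ, ‖(Finsupp.single (0 : ℤ) (1 : ℂ)) n‖ₑ ^ p = 1 := by
    rw [tsum_eq_single 0]
    · simp
    · intro n hn
      rw [Finsupp.single_apply, if_neg hn.symm]
      simp [hp0]
  rw [e2, ENNReal.one_rpow, mul_one] at h
  have h2 : ∑' n : ℤ, ‖fourierCoeff m n‖ₑ ^ p ≤ (C : ℝ≥0∞) ^ p := by
    calc ∑' n : ℤ, ‖fourierCoeff m n‖ₑ ^ p
        = ((∑' n : ℤ, ‖fourierCoeff m n‖ₑ ^ p) ^ (1 / p)) ^ p := by
          rw [← ENNReal.rpow_mul, one_div_mul_cancel hp0.ne', ENNReal.rpow_one]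
      _ ≤ _ := by gcongr
  refine ⟨(C : ℝ) ^ p, by positivity, fun s => ?_⟩
  have h3 : ∑ n ∈ s, ‖fourierCoeff m n‖ₑ ^ p ≤ (C : ℝ≥0∞) ^ p :=
    (ENNReal.sum_le_tsum s).trans h2
  have h4 : ∑ n ∈ s, ‖fourierCoeff m n‖ₑ ^ p = ENNReal.ofReal (∑ n ∈ s, ‖fourierCoeff m n‖ ^ p) := by
    rw [ENNReal.ofReal_sum_of_nonneg (fun n _ => by positivity)]
    apply Finset.sum_congr rfl
    intro n _
    rw [← ofReal_norm, ENNReal.ofReal_rpow_of_nonneg (norm_nonneg _) hp0.le]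
  have h5 : (C : ℝ≥0∞) ^ p = ENNReal.ofReal ((C : ℝ) ^ p) := by
    rw [← ENNReal.ofReal_rpow_of_nonneg (NNReal.coe_nonneg C) hp0.le, ENNReal.ofReal_coe_nnreal]
  rw [h4, h5] at h3
  exact (ENNReal.ofReal_le_ofReal_iff (by positivity)).1 h3

lemma coeff_sum_one {p B : ℝ} (hp : 1 < p) (hB : 0 ≤ B) {m : UnitAddCircle → ℂ}
    (h : ∀ s : Finset ℤ, ∑ n ∈ s, ‖fourierCoeff m n‖ ^ p ≤ B) (N : ℕ) (t : ℤ) :
    ∑ l ∈ Finset.range N, ‖fourierCoeff m (t + l)‖ ≤ (N : ℝ) ^ (1 - 1 / p) * B ^ (1 / p) := by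
  have hp0 : 0 < p := by linarith
  have h1 := Real.rpow_sum_le_const_mul_sum_rpow (s := Finset.range N)
    (f := fun l => ‖fourierCoeff m (t + l)‖) hp.le
  simp only [abs_norm, Finset.card_range] at h1
  have h2 : ∑ l ∈ Finset.range N, ‖fourierCoeff m (t + l)‖ ^ p ≤ B := by
    refine le_trans (le_of_eq ?_) (h ((Finset.range N).image fun l : ℕ => t + (l : ℤ)))
    rw [Finset.sum_image]
    intro a _ b _ hab
    simpa using hab
  have h3 : (∑ l ∈ Finset.range N, ‖fourierCoeff m (t + l)‖) ^ p ≤ (N : ℝ) ^ (p - 1) * B := by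
    refine h1.trans ?_
    gcongr
  have h0 : 0 ≤ ∑ l ∈ Finset.range N, ‖fourierCoeff m (t + l)‖ :=
    Finset.sum_nonneg fun l _ => norm_nonneg _
  calc ∑ l ∈ Finset.range N, ‖fourierCoeff m (t + l)‖
      = ((∑ l ∈ Finset.range N, ‖fourierCoeff m (t + l)‖) ^ p) ^ (1 / p) := by
        rw [← Real.rpow_mul h0, mul_one_div_cancel hp0.ne', Real.rpow_one]
    _ ≤ ((N : ℝ) ^ (p - 1) * B) ^ (1 / p) := by gcongr
    _ = _ := by
        rw [Real.mul_rpow (by positivity) hB, ← Real.rpow_mul (by positivity)]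
        congr 2
        field_simp

/-- The test functionals tend to `0` on multipliers of `ℓ_p`, `1 < p < 2`. -/
lemma test_mult {p : ℝ} (hp1 : 1 < p) (hp2 : p < 2) {m : UnitAddCircle → ℂ}
    (hm : IsMult (ENNReal.ofReal p) m) : Tendsto (fun i => ‖test i m‖) atTop (𝓝 0) := by
  obtain ⟨B, hB, hs⟩ := coeff_sum hp1 hm
  have hp0 : 0 < p := by linarith
  set θ : ℝ := 1 / p - 1 / 2 with hθ
  have hθ0 : 0 < θ := by
    have : 1 / 2 < 1 / p := one_div_lt_one_div_of_lt hp0 hp2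
    linarith
  have hmi : Integrable m haarAddCircle := hm.1.integrable
  have key : ∀ i : ℕ, ‖test i m‖ ≤ 2 ^ mm i * ((2 : ℝ) ^ (-(nn i * θ)) * B ^ (1 / p)) := by
    intro i
    have h := norm_integral_mul_fej_le (test_integrable hmi i) (M := 2 ^ mm i)
      (by positivity) (xx i) (δ := (2 : ℝ) ^ (-(nn i * θ)) * B ^ (1 / p)) (by
        intro n _
        rw [fourierCoeff_test hmi, norm_mul, Complex.norm_real, Real.norm_of_nonneg (by positivity)]
        set N : ℕ := 2 ^ nn i with hN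
        have hN0 : (0 : ℝ) < N := by rw [hN]; push_cast; positivity
        have e1 : ‖∑ l ∈ Finset.range N, conj (aa i l) *
            fourierCoeff m (n + ((N : ℤ) + l) - kk i)‖ ≤
            (N : ℝ) ^ (1 - 1 / p) * B ^ (1 / p) := by
          refine (norm_sum_le _ _).trans ?_
          refine le_trans ?_ (coeff_sum_one hp1 hB hs N (n + N - kk i))
          apply Finset.sum_le_sum
          intro l _
          rw [norm_mul, RCLike.norm_conj]
          have e : n + ((N : ℤ) + l) - kk i = n + N - kk i + l := by ring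
          rw [e]
          calc _ ≤ 1 * ‖fourierCoeff m (n + N - kk i + l)‖ := by
                gcongr
                exact aa_le i l
            _ = _ := one_mul _
        have e2 : 1 / √(2 * (N : ℝ)) ≤ (N : ℝ) ^ (-(1 / 2 : ℝ)) := by
          rw [Real.rpow_neg hN0.le, ← Real.sqrt_eq_rpow, one_div]
          apply inv_anti₀ (by positivity)
          apply Real.sqrt_le_sqrt
          linarith
        calc 1 / √(2 * (N : ℝ)) * ‖∑ l ∈ Finset.range N, conj (aa i l) *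
            fourierCoeff m (n + ((N : ℤ) + l) - kk i)‖
            ≤ (N : ℝ) ^ (-(1 / 2 : ℝ)) * ((N : ℝ) ^ (1 - 1 / p) * B ^ (1 / p)) := by gcongr
          _ = (N : ℝ) ^ (-(1 / 2 : ℝ) + (1 - 1 / p)) * B ^ (1 / p) := by
              rw [← mul_assoc, ← Real.rpow_add hN0]
          _ = (N : ℝ) ^ (-θ) * B ^ (1 / p) := by
              congr 2
              rw [hθ]; ring
          _ = (2 : ℝ) ^ (-(nn i * θ)) * B ^ (1 / p) := by
              congr 1
              rw [hN]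
              push_cast
              rw [← Real.rpow_natCast, ← Real.rpow_mul (by norm_num)]
              congr 1
              ring)
    refine h.trans (le_of_eq ?_)
    push_cast
    rfl
  have key2 : ∀ᶠ i in atTop, ‖test i m‖ ≤ B ^ (1 / p) * (1 / 2) ^ i := by
    obtain ⟨I, hI⟩ := exists_nat_ge (1 / θ)
    filter_upwards [eventually_ge_atTop I] with i hi
    refine (key i).trans ?_
    have h1 : (1 : ℝ) ≤ (i + 1) * θ := by
      have : (I : ℝ) ≤ i := by exact_mod_cast hi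
      have h2 : 1 / θ ≤ i + 1 := by linarith
      rwa [div_le_iff₀ hθ0] at h2
    have h2 : (i : ℝ) + mm i ≤ nn i * θ := by
      unfold nn
      push_cast
      have h3 : (0 : ℝ) ≤ (i : ℝ) + mm i := by positivity
      nlinarith
    calc (2 : ℝ) ^ mm i * ((2 : ℝ) ^ (-(nn i * θ)) * B ^ (1 / p))
        ≤ (2 : ℝ) ^ mm i * ((2 : ℝ) ^ (-((i : ℝ) + mm i)) * B ^ (1 / p)) := by
          gcongr
          norm_num
      _ = B ^ (1 / p) * (1 / 2) ^ i := by
          rw [Real.rpow_neg (by norm_num), Real.rpow_add (by norm_num), Real.rpow_natCast,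
            Real.rpow_natCast, one_div_pow]
          field_simp
  have hlim : Tendsto (fun i : ℕ => B ^ (1 / p) * (1 / 2 : ℝ) ^ i) atTop (𝓝 (B ^ (1 / p) * 0)) :=
    (tendsto_pow_atTop_nhds_zero_of_lt_one (by norm_num) (by norm_num)).const_mul _
  rw [mul_zero] at hlim
  exact squeeze_zero' (Eventually.of_forall fun i => norm_nonneg _) key2 hlim

/-- For `1 < p < 2` the product is not in `X_p`. -/
theorem not_inX {p : ℝ} (hp1 : 1 < p) (hp2 : p < 2) : ¬ InX (ENNReal.ofReal p) (uu * vv) := by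
  rintro ⟨-, h⟩
  obtain ⟨g, m, hg, hm, hle⟩ := h (1 / 16) (by norm_num)
  have hgi := hg.1.integrable
  have hmi := hm.1.integrable
  have hGi : Integrable (uu * vv - (g + m)) haarAddCircle := uv_integrable.sub (hgi.add hmi)
  have hae : ∀ᵐ x ∂(haarAddCircle : Measure UnitAddCircle), ‖(uu * vv - (g + m)) x‖ ≤ 1 / 16 := by
    have h1 := ae_le_eLpNormEssSup (f := uu * vv - (g + m)) (μ := haarAddCircle)
    rw [← eLpNorm_exponent_top] at h1
    filter_upwards [h1] with x hx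
    have h2 := hx.trans hle
    rw [← ofReal_norm] at h2
    have h3 : (((1 / 16 : ℝ≥0) : ℝ≥0∞)) = ENNReal.ofReal (1 / 16) := by
      rw [← ENNReal.ofReal_coe_nnreal]
      norm_num
    rw [h3] at h2
    exact (ENNReal.ofReal_le_ofReal_iff (by norm_num)).1 h2
  have hdec : ∀ i, ‖test i (uu * vv)‖ ≤ 1 / 16 + ‖test i m‖ := by
    intro i
    have e : uu * vv = (uu * vv - (g + m)) + (g + m) := by abel
    rw [e, test_add hGi (hgi.add hmi), test_add hgi hmi, test_hinf hg, zero_add]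
    exact (norm_add_le _ _).trans (add_le_add_left (test_le i (by norm_num) hae) _)
  have hlow : ∀ i, 1 / 8 - (24 * (1 / 4) ^ i + 12 * (1 / 2) ^ i) ≤ 1 / 16 + ‖test i m‖ :=
    fun i => (test_uv i).trans (hdec i)
  have l1 : Tendsto (fun i : ℕ => (1 / 8 : ℝ) - (24 * (1 / 4) ^ i + 12 * (1 / 2) ^ i)) atTop
      (𝓝 (1 / 8 - (24 * 0 + 12 * 0))) := by
    apply Tendsto.const_sub
    apply Tendsto.add
    · exact (tendsto_pow_atTop_nhds_zero_of_lt_one (by norm_num) (by norm_num)).const_mul _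
    · exact (tendsto_pow_atTop_nhds_zero_of_lt_one (by norm_num) (by norm_num)).const_mul _
  have l2 : Tendsto (fun i : ℕ => 1 / 16 + ‖test i m‖) atTop (𝓝 (1 / 16 + 0)) :=
    (test_mult hp1 hp2 hm).const_add _
  have := le_of_tendsto_of_tendsto' l1 l2 hlow
  norm_num at this

lemma conj_lt_two {p : ℝ} (hp : 2 < p) : ∃ q : ℝ, p.HolderConjugate q ∧ 1 < q ∧ q < 2 := by
  have hp1 : 1 < p := by linarith
  have hpq := Real.HolderConjugate.conjExponent hp1
  refine ⟨_, hpq, hpq.symm.lt, ?_⟩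
  have h1 := hpq.inv_add_inv_eq_one
  have hq0 := hpq.symm.pos
  have h2 : p⁻¹ < 2⁻¹ := by gcongr
  have h3 : (2 : ℝ)⁻¹ < (Real.conjExponent p)⁻¹ := by
    have : (2 : ℝ)⁻¹ = 1 - 2⁻¹ := by norm_num
    linarith
  exact (inv_lt_inv₀ (by norm_num) hq0).1 h3

/-- The product is not in `X_p` for any `1 < p < ∞`, `p ≠ 2`. -/
theorem not_inX' {p : ℝ} (hp1 : 1 < p) (hp2 : p ≠ 2) : ¬ InX (ENNReal.ofReal p) (uu * vv) := by
  rcases lt_or_gt_of_ne hp2 with h | h
  · exact not_inX hp1 h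
  · obtain ⟨q, hpq, hq1, hq2⟩ := conj_lt_two h
    rintro ⟨hl, hx⟩
    apply not_inX hq1 hq2
    refine ⟨hl, fun ε hε => ?_⟩
    obtain ⟨g, m, hg, hm, hle⟩ := hx ε hε
    exact ⟨g, m, hg, hm.dual' hpq, hle⟩

lemma IsHinf.zero : IsHinf 0 := by
  refine ⟨MemLp.zero, fun n _ => ?_⟩
  unfold fourierCoeff
  simp

lemma IsMult.zero (p : ℝ≥0∞) : IsMult p 0 := by
  refine ⟨MemLp.zero, 0, fun c => ?_⟩
  have : conv (fourierCoeff (0 : UnitAddCircle → ℂ)) c = 0 := by
    funext n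
    unfold conv fourierCoeff
    simp
  rw [this]
  simp

lemma IsHinf.inX {g : UnitAddCircle → ℂ} (hg : IsHinf g) (p : ℝ≥0∞) : InX p g :=
  ⟨hg.1, fun ε _ => ⟨g, 0, hg, IsMult.zero p, by simp⟩⟩

lemma IsMult.inX {p : ℝ≥0∞} {m : UnitAddCircle → ℂ} (hm : IsMult p m) : InX p m :=
  ⟨hm.1, fun ε _ => ⟨0, m, IsHinf.zero, hm, by simp⟩⟩

/-- One pair of functions works for all exponents. -/
theorem main : ∃ u v : UnitAddCircle → ℂ,
    (∀ p : ℝ, 1 < p → IsMult (ENNReal.ofReal p) u) ∧ IsHinf v ∧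
    ∀ p : ℝ, 1 < p → p ≠ 2 → ¬ InX (ENNReal.ofReal p) (u * v) :=
  ⟨uu, vv, fun _ hp => uu_mult hp, vv_hinf, fun _ hp hp2 => not_inX' hp hp2⟩

end Pool.Agent.Work.MP_bd9a46_an
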