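import Pool.Agent.Work.MP_bd9a46_an.Dir

/-!
# The rapidly growing sequences and the bumps
-/

open MeasureTheory AddCircle
open scoped ENNReal NNReal ComplexConjugate

namespace Pool.Agent.Work.MP_bd9a46_an

/-- The exponent of the basic rapidly growing sequence `Y i = 2 ^ yy i`. -/
def yy : ℕ → ℕ
  | 0 => 0
  | i + 1 => (i + 1) * (i + (2 * (yy i + 4 * i + 2) + 6 * i + 16)) + 6

/-- `L i = 2 ^ ll i = 4 * 16 ^ i * Y i`. -/
def ll (i : ℕ) : ℕ := yy i + 4 * i + 2

/-- The order of the Fejér kernel is `2 ^ mm i`. -/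
def mm (i : ℕ) : ℕ := 2 * ll i + 6 * i + 16

/-- The Rudin–Shapiro polynomial has length `2 ^ nn i`. -/
def nn (i : ℕ) : ℕ := (i + 1) * (i + mm i)

lemma yy_succ (i : ℕ) : yy (i + 1) = nn i + 6 := by
  simp only [yy, nn, mm, ll]

lemma mm_le_nn (i : ℕ) : i + mm i ≤ nn i := by
  unfold nn
  nlinarith [Nat.zero_le i, Nat.zero_le (i + mm i)]

lemma ll_le_nn (i : ℕ) : ll i + 16 ≤ nn i := by
  have := mm_le_nn i
  unfold mm at this
  omega

lemma yy_le_succ (i : ℕ) : yy i ≤ yy (i + 1) := by
  rw [yy_succ]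
  have := ll_le_nn i
  unfold ll at this
  omega

lemma yy_mono : Monotone yy := monotone_nat_of_le_succ yy_le_succ

/-- The bump `e_i`. -/
noncomputable def bump (i : ℕ) (x : UnitAddCircle) : ℂ :=
  dir (2 ^ ll i) x - dir (64 * 2 ^ ll i) x

lemma bump_cont (i : ℕ) : Continuous (bump i) := (dir_cont _).sub (dir_cont _)

lemma bump_le_two (i : ℕ) (x : UnitAddCircle) : ‖bump i x‖ ≤ 2 := by
  unfold bump
  calc _ ≤ ‖dir (2 ^ ll i) x‖ + ‖dir (64 * 2 ^ ll i) x‖ := norm_sub_le _ _
    _ ≤ 1 + 1 := add_le_add (norm_dir_le _ _) (norm_dir_le _ _)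
    _ = 2 := by norm_num

lemma bump_decay (i : ℕ) (x : UnitAddCircle) : 2 ^ ll i * tau x * ‖bump i x‖ ≤ 4 := by
  have h1 := dir_decay (L := 2 ^ ll i) (by positivity) x
  have h2 := dir_decay (L := 64 * 2 ^ ll i) (by positivity) x
  push_cast at h1 h2
  have h3 : ‖bump i x‖ ≤ ‖dir (2 ^ ll i) x‖ + ‖dir (64 * 2 ^ ll i) x‖ := norm_sub_le _ _
  have h0 : 0 ≤ 2 ^ ll i * tau x := mul_nonneg (by positivity) (tau_nonneg x)
  have h4 : 0 ≤ 2 ^ ll i * tau x * ‖dir (64 * 2 ^ ll i) x‖ := mul_nonneg h0 (norm_nonneg _)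
  nlinarith

lemma bump_near (i : ℕ) (x : UnitAddCircle) : ‖bump i x‖ ≤ 65 * 2 ^ ll i * tau x := by
  have h1 := dir_near (L := 2 ^ ll i) (by positivity) x
  have h2 := dir_near (L := 64 * 2 ^ ll i) (by positivity) x
  push_cast at h1 h2
  have h3 : bump i x = (1 - dir (64 * 2 ^ ll i) x) - (1 - dir (2 ^ ll i) x) := by
    unfold bump; ring
  rw [h3]
  refine (norm_sub_le _ _).trans ?_
  linarith

lemma bump_lip (i : ℕ) (x y : UnitAddCircle) :
    ‖bump i x - bump i y‖ ≤ 65 * 2 ^ ll i * tau (x - y) := by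
  have h1 := dir_lip (L := 2 ^ ll i) (by positivity) x y
  have h2 := dir_lip (L := 64 * 2 ^ ll i) (by positivity) x y
  push_cast at h1 h2
  have h3 : bump i x - bump i y = (dir (2 ^ ll i) x - dir (2 ^ ll i) y) -
      (dir (64 * 2 ^ ll i) x - dir (64 * 2 ^ ll i) y) := by
    unfold bump; ring
  rw [h3]
  refine (norm_sub_le _ _).trans ?_
  linarith

/-- Away from `0` the bump is small. -/
lemma bump_far {i : ℕ} {x : UnitAddCircle} (h : 1 ≤ 4 ^ i * 2 ^ yy i * tau x) :
    ‖bump i x‖ ≤ (1 / 4) ^ i := by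
  have h1 := bump_decay i x
  have h2 : (2 : ℝ) ^ ll i = 4 * 16 ^ i * 2 ^ yy i := by
    unfold ll
    rw [pow_add, pow_add, pow_mul]
    norm_num
    ring
  rw [h2] at h1
  have h3 : 4 * 4 ^ i * ‖bump i x‖ ≤ 4 := by
    calc 4 * 4 ^ i * ‖bump i x‖ ≤ 4 * 4 ^ i * ‖bump i x‖ * (4 ^ i * 2 ^ yy i * tau x) := by
          apply le_mul_of_one_le_right (by positivity) h
      _ = 4 * 16 ^ i * 2 ^ yy i * tau x * ‖bump i x‖ := by
          have : (16 : ℝ) ^ i = 4 ^ i * 4 ^ i := by rw [← mul_pow]; norm_num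
          rw [this]; ring
      _ ≤ 4 := h1
  rw [one_div, inv_pow, ← one_div, le_div_iff₀ (by positivity)]
  linarith

/-- Close to `0` the bump is small. -/
lemma bump_close {i j : ℕ} (hij : i < j) {x : UnitAddCircle} (h : 4 ^ j * 2 ^ yy j * tau x ≤ 1) :
    ‖bump i x‖ ≤ (1 / 4) ^ j := by
  have h1 := bump_near i x
  have h2 : 65 * (2 : ℝ) ^ ll i ≤ 2 ^ yy j := by
    have h3 : ll i + 7 ≤ yy j := by
      have := yy_mono (Nat.succ_le_of_lt hij)
      rw [Nat.succ_eq_add_one, yy_succ] at this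
      have := ll_le_nn i
      omega
    calc 65 * (2 : ℝ) ^ ll i ≤ 2 ^ 7 * 2 ^ ll i := by gcongr; norm_num
      _ = 2 ^ (ll i + 7) := by rw [pow_add]; ring
      _ ≤ 2 ^ yy j := pow_le_pow_right₀ (by norm_num) h3
  have h4 : ‖bump i x‖ ≤ 2 ^ yy j * tau x := by
    refine h1.trans ?_
    have := tau_nonneg x
    gcongr
  rw [one_div, inv_pow, ← one_div, le_div_iff₀ (by positivity)]
  calc ‖bump i x‖ * 4 ^ j ≤ 2 ^ yy j * tau x * 4 ^ j := by gcongr
    _ = 4 ^ j * 2 ^ yy j * tau x := by ring
    _ ≤ 1 := h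

lemma scale_mono {i j : ℕ} (hij : i ≤ j) : (4 : ℝ) ^ i * 2 ^ yy i ≤ 4 ^ j * 2 ^ yy j := by
  have h1 := yy_mono hij
  have h2 : (4 : ℝ) ^ i ≤ 4 ^ j := pow_le_pow_right₀ (by norm_num) hij
  have h3 : (2 : ℝ) ^ yy i ≤ 2 ^ yy j := pow_le_pow_right₀ (by norm_num) h1
  gcongr

/-- At each point at most one bump is not small. -/
lemma bump_sparse (x : UnitAddCircle) : ∃ i0 : ℕ, ∀ i : ℕ,
    ‖bump i x‖ ≤ (1 / 4) ^ i + (if i = i0 then 2 else 0) := by
  have key : ∀ i : ℕ, (0 : ℝ) ≤ (1 / 4) ^ i := fun i => by positivity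
  rcases (tau_nonneg x).eq_or_lt with h0 | h0
  · refine ⟨0, fun i => ?_⟩
    have := bump_near i x
    rw [← h0, mul_zero] at this
    have h2 := key i
    split_ifs <;> linarith
  · by_cases hbig : 1 < tau x
    · refine ⟨0, fun i => ?_⟩
      have h1 : ‖bump i x‖ ≤ (1 / 4) ^ i := by
        apply bump_far
        have h2 : (1 : ℝ) ≤ 4 ^ i * 2 ^ yy i := by
          have : (1 : ℝ) ≤ 4 ^ i := one_le_pow₀ (by norm_num)
          have : (1 : ℝ) ≤ 2 ^ yy i := one_le_pow₀ (by norm_num)
          nlinarith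
        nlinarith
      split_ifs <;> linarith
    · push Not at hbig
      -- the last index whose scale is below `1 / tau x`
      have hex : ∃ n : ℕ, 1 < 4 ^ n * 2 ^ yy n * tau x := by
        obtain ⟨n, hn⟩ := pow_unbounded_of_one_lt (1 / tau x) (by norm_num : (1 : ℝ) < 4)
        refine ⟨n, ?_⟩
        rw [div_lt_iff₀ h0] at hn
        have : (1 : ℝ) ≤ 2 ^ yy n := one_le_pow₀ (by norm_num)
        have h4 : 0 < 4 ^ n * tau x := by positivity
        nlinarith
      classical
      set n := Nat.find hex with hn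
      have hn1 : 1 < 4 ^ n * 2 ^ yy n * tau x := Nat.find_spec hex
      have hn0 : n ≠ 0 := by
        intro h
        rw [h] at hn1
        simp [yy] at hn1
        linarith
      obtain ⟨k, hk⟩ := Nat.exists_eq_succ_of_ne_zero hn0
      have hk1 : 4 ^ k * 2 ^ yy k * tau x ≤ 1 := by
        by_contra hcon
        push Not at hcon
        have := Nat.find_min' hex hcon
        omega
      refine ⟨k, fun i => ?_⟩
      rcases lt_trichotomy i k with h | h | h
      · rw [if_neg h.ne, add_zero]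
        refine (bump_close h hk1).trans ?_
        exact pow_le_pow_of_le_one (by norm_num) (by norm_num) h.le
      · rw [if_pos h]
        have := bump_le_two i x
        have := key i
        linarith
      · rw [if_neg h.ne', add_zero]
        apply bump_far
        have h5 : n ≤ i := by omega
        have h6 := scale_mono h5
        refine hn1.le.trans ?_
        gcongr

lemma summable_sparse (i0 : ℕ) : Summable fun i : ℕ => ((1 / 4 : ℝ) ^ i + (if i = i0 then 2 else 0)) := by
  apply Summable.add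
  · exact summable_geometric_of_lt_one (by norm_num) (by norm_num)
  · exact (hasSum_ite_eq i0 (2 : ℝ)).summable

lemma tsum_sparse (i0 : ℕ) : ∑' i : ℕ, ((1 / 4 : ℝ) ^ i + (if i = i0 then 2 else 0)) ≤ 4 := by
  rw [Summable.tsum_add (summable_geometric_of_lt_one (by norm_num) (by norm_num))
    (hasSum_ite_eq i0 (2 : ℝ)).summable, tsum_geometric_of_lt_one (by norm_num) (by norm_num),
    tsum_ite_eq]
  norm_num

lemma summable_bump (x : UnitAddCircle) : Summable fun i => ‖bump i x‖ := by
  obtain ⟨i0, h⟩ := bump_sparse x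
  exact Summable.of_nonneg_of_le (fun i => norm_nonneg _) h (summable_sparse i0)

lemma tsum_bump_le (x : UnitAddCircle) : ∑' i, ‖bump i x‖ ≤ 4 := by
  obtain ⟨i0, h⟩ := bump_sparse x
  exact ((summable_bump x).tsum_le_tsum h (summable_sparse i0)).trans (tsum_sparse i0)

/-- The superposition of the bumps modulated by functions `g i`. -/
noncomputable def sup (g : ℕ → UnitAddCircle → ℂ) (x : UnitAddCircle) : ℂ :=
  ∑' i, bump i x * g i x

section

variable {g : ℕ → UnitAddCircle → ℂ} (hg : ∀ i x, ‖g i x‖ ≤ 1)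

include hg

lemma norm_term_le (i : ℕ) (x : UnitAddCircle) : ‖bump i x * g i x‖ ≤ ‖bump i x‖ := by
  rw [norm_mul]
  calc ‖bump i x‖ * ‖g i x‖ ≤ ‖bump i x‖ * 1 := by gcongr; exact hg i x
    _ = _ := mul_one _

lemma summable_term (x : UnitAddCircle) : Summable fun i => bump i x * g i x :=
  Summable.of_norm_bounded (summable_bump x) fun i => norm_term_le hg i x

lemma norm_sup_le (x : UnitAddCircle) : ‖sup g x‖ ≤ 4 := by
  unfold sup
  refine (tsum_of_norm_bounded (summable_bump x).hasSum fun i => norm_term_le hg i x).trans ?_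
  exact tsum_bump_le x

lemma measurable_sup (hc : ∀ i, Continuous (g i)) : Measurable (sup g) := by
  have h1 : ∀ n : ℕ, Measurable (fun x => ∑ i ∈ Finset.range n, bump i x * g i x) := by
    intro n
    apply Continuous.measurable
    apply continuous_finsetSum
    intro i _
    exact (bump_cont i).mul (hc i)
  refine measurable_of_tendsto_metrizable h1 ?_
  rw [tendsto_pi_nhds]
  intro x
  exact (summable_term hg x).hasSum.tendsto_sum_nat

lemma linf_sup (hc : ∀ i, Continuous (g i)) : IsLinf (sup g) :=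
  isLinf_of_bound (measurable_sup hg hc).aestronglyMeasurable (norm_sup_le hg)

lemma fourierCoeff_sup (hc : ∀ i, Continuous (g i)) (n : ℤ) :
    HasSum (fun i => fourierCoeff (fun x => bump i x * g i x) n) (fourierCoeff (sup g) n) := by
  unfold fourierCoeff
  apply hasSum_integral_of_dominated_convergence (fun i x => ‖bump i x‖)
  · intro i
    apply Continuous.aestronglyMeasurable
    exact (map_continuous (fourier (-n))).smul ((bump_cont i).mul (hc i))
  · intro i
    filter_upwards with x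
    rw [norm_smul, norm_fourier, one_mul]
    exact norm_term_le hg i x
  · filter_upwards with x using summable_bump x
  · refine Integrable.mono' (integrable_const (4 : ℝ)) ?_ ?_
    · apply Measurable.aestronglyMeasurable
      have h1 : ∀ n : ℕ, Measurable (fun x => ∑ i ∈ Finset.range n, ‖bump i x‖) := by
        intro n
        apply Continuous.measurable
        apply continuous_finsetSum
        intro i _
        exact (bump_cont i).norm
      refine measurable_of_tendsto_metrizable h1 ?_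
      rw [tendsto_pi_nhds]
      intro x
      exact (summable_bump x).hasSum.tendsto_sum_nat
    · filter_upwards with x
      rw [Real.norm_of_nonneg (tsum_nonneg fun i => norm_nonneg _)]
      exact tsum_bump_le x
  · filter_upwards with x
    exact (summable_term hg x).hasSum.const_smul _

end

end Pool.Agent.Work.MP_bd9a46_an
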