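import Pool.Agent.Work.MP_bd9a46_an.Kernel
import Pool.Agent.Work.MP_bd9a46_an.Local

/-!
# The function `v` in `H^∞` and the test functionals
-/

open MeasureTheory AddCircle
open scoped ENNReal NNReal ComplexConjugate

namespace Pool.Agent.Work.MP_bd9a46_an

/-- The normalised and shifted polynomial with coefficients `a`. -/
noncomputable def hp (N : ℕ) (a : ℕ → ℂ) (x : UnitAddCircle) : ℂ :=
  ((1 / √(2 * N) : ℝ) : ℂ) * (zz x ^ N * ∑ l ∈ Finset.range N, a l * zz x ^ l)

lemma hp_cont (N : ℕ) (a : ℕ → ℂ) : Continuous (hp N a) := by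
  unfold hp
  have := zz_cont
  apply continuous_const.mul
  apply (this.pow N).mul
  apply continuous_finsetSum
  intro l _
  exact continuous_const.mul (this.pow l)

lemma norm_hp (N : ℕ) (a : ℕ → ℂ) (x : UnitAddCircle) :
    ‖hp N a x‖ = 1 / √(2 * N) * ‖∑ l ∈ Finset.range N, a l * zz x ^ l‖ := by
  unfold hp
  rw [norm_mul, norm_mul, norm_pow, norm_zz, one_pow, one_mul, Complex.norm_real,
    Real.norm_of_nonneg (by positivity)]

lemma continuous_integrable {E : Type*} [NormedAddCommGroup E] {f : UnitAddCircle → E}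
    (hf : Continuous f) : Integrable f haarAddCircle :=
  hf.integrable_of_hasCompactSupport (HasCompactSupport.of_compactSpace _)

/-- Existence of a good polynomial. -/
lemma exists_hp (i : ℕ) : ∃ a : ℕ → ℂ, (∀ l, ‖a l‖ ≤ 1) ∧ (∀ x, ‖hp (2 ^ nn i) a x‖ ≤ 1) ∧
    1 / 2 ≤ ∫ x, fej (2 ^ mm i) (xx i) x * ‖hp (2 ^ nn i) a x‖ ^ 2 ∂haarAddCircle := by
  obtain ⟨a, b, ha, hb, h⟩ := rudin_shapiro (nn i)
  set N : ℕ := 2 ^ nn i with hN
  have hN0 : (0 : ℝ) < N := by rw [hN]; push_cast; positivity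
  have hsq : √(2 * (N : ℝ)) ^ 2 = 2 * N := Real.sq_sqrt (by positivity)
  have hsum : ∀ x, ‖hp N a x‖ ^ 2 + ‖hp N b x‖ ^ 2 = 1 := by
    intro x
    rw [norm_hp, norm_hp, mul_pow, mul_pow, ← mul_add, h (zz x) (norm_zz x), one_div, inv_pow,
      hsq, hN]
    push_cast
    field_simp
  have hbound : ∀ (c d : ℕ → ℂ), (∀ x, ‖hp N c x‖ ^ 2 + ‖hp N d x‖ ^ 2 = 1) →
      ∀ x, ‖hp N c x‖ ≤ 1 := by
    intro c d hcd x
    have h1 := hcd x
    have h2 : ‖hp N c x‖ ^ 2 ≤ 1 := by nlinarith [sq_nonneg ‖hp N d x‖]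
    have h3 := norm_nonneg (hp N c x)
    nlinarith
  have hsum' : ∀ x, ‖hp N b x‖ ^ 2 + ‖hp N a x‖ ^ 2 = 1 := fun x => by rw [add_comm]; exact hsum x
  have hint : ∀ c : ℕ → ℂ, Integrable (fun x => fej (2 ^ mm i) (xx i) x * ‖hp N c x‖ ^ 2)
      haarAddCircle := by
    intro c
    apply continuous_integrable
    exact (fej_cont _ _).mul ((hp_cont N c).norm.pow 2)
  have hI : (∫ x, fej (2 ^ mm i) (xx i) x * ‖hp N a x‖ ^ 2 ∂haarAddCircle) +
      ∫ x, fej (2 ^ mm i) (xx i) x * ‖hp N b x‖ ^ 2 ∂haarAddCircle = 1 := by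
    rw [← integral_add (hint a) (hint b)]
    refine Eq.trans ?_ (integral_fej (M := 2 ^ mm i) (by positivity) (xx i))
    apply integral_congr_ae
    filter_upwards with x
    rw [← mul_add, hsum x, mul_one]
  by_cases hcase : 1 / 2 ≤ ∫ x, fej (2 ^ mm i) (xx i) x * ‖hp N a x‖ ^ 2 ∂haarAddCircle
  · exact ⟨a, ha, hbound a b hsum, hcase⟩
  · refine ⟨b, hb, hbound b a hsum', ?_⟩
    push Not at hcase
    linarith

/-- The coefficients of the chosen polynomials. -/
noncomputable def aa (i : ℕ) : ℕ → ℂ := (exists_hp i).choose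

/-- The chosen polynomials. -/
noncomputable def hh (i : ℕ) : UnitAddCircle → ℂ := hp (2 ^ nn i) (aa i)

lemma aa_le (i l : ℕ) : ‖aa i l‖ ≤ 1 := (exists_hp i).choose_spec.1 l

lemma hh_le (i : ℕ) (x : UnitAddCircle) : ‖hh i x‖ ≤ 1 := (exists_hp i).choose_spec.2.1 x

lemma hh_mass (i : ℕ) :
    1 / 2 ≤ ∫ x, fej (2 ^ mm i) (xx i) x * ‖hh i x‖ ^ 2 ∂haarAddCircle :=
  (exists_hp i).choose_spec.2.2

lemma hh_cont (i : ℕ) : Continuous (hh i) := hp_cont _ _

/-- The function `v`. -/
noncomputable def vv : UnitAddCircle → ℂ := sup hh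

lemma vv_linf : IsLinf vv := linf_sup hh_le hh_cont

/-- Fourier coefficients of a product with `hp`. -/
lemma fourierCoeff_mul_hp {f : UnitAddCircle → ℂ} (hf : Integrable f haarAddCircle) (N : ℕ)
    (a : ℕ → ℂ) (n : ℤ) : fourierCoeff (fun x => f x * hp N a x) n =
      ((1 / √(2 * N) : ℝ) : ℂ) * ∑ l ∈ Finset.range N, a l * fourierCoeff f (n - (N + l)) := by
  have e1 : (fun x => f x * hp N a x) = ∑ l ∈ Finset.range N, fun x =>
      (((1 / √(2 * N) : ℝ) : ℂ) * a l) * (f x * (fourier ((N : ℤ) + l) x : ℂ)) := by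
    funext x
    rw [Finset.sum_apply]
    unfold hp
    rw [Finset.mul_sum, Finset.mul_sum, Finset.mul_sum]
    apply Finset.sum_congr rfl
    intro l _
    have : (fourier ((N : ℤ) + l) x : ℂ) = zz x ^ N * zz x ^ l := by
      rw [fourier_add, fourier_nat, fourier_nat]
    rw [this]
    ring
  rw [e1, fourierCoeff.sum _ _ (fun l _ => (integrable_mul_fourier hf _).const_mul _),
    Finset.sum_apply, Finset.mul_sum]
  apply Finset.sum_congr rfl
  intro l _
  rw [fourierCoeff.const_mul, fourierCoeff_mul_fourier, mul_assoc]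

/-- Fourier coefficients of a product with the conjugate of `hp`. -/
lemma fourierCoeff_mul_conj_hp {f : UnitAddCircle → ℂ} (hf : Integrable f haarAddCircle) (N : ℕ)
    (a : ℕ → ℂ) (n : ℤ) : fourierCoeff (fun x => f x * conj (hp N a x)) n =
      ((1 / √(2 * N) : ℝ) : ℂ) * ∑ l ∈ Finset.range N, conj (a l) * fourierCoeff f (n + (N + l)) := by
  have e1 : (fun x => f x * conj (hp N a x)) = ∑ l ∈ Finset.range N, fun x =>
      (((1 / √(2 * N) : ℝ) : ℂ) * conj (a l)) * (f x * (fourier (-((N : ℤ) + l)) x : ℂ)) := by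
    funext x
    rw [Finset.sum_apply]
    unfold hp
    rw [map_mul, map_mul, map_sum, Complex.conj_ofReal, Finset.mul_sum, Finset.mul_sum,
      Finset.mul_sum]
    apply Finset.sum_congr rfl
    intro l _
    have : (fourier (-((N : ℤ) + l)) x : ℂ) = conj (zz x ^ N) * conj (zz x ^ l) := by
      rw [fourier_neg, fourier_add, fourier_nat, fourier_nat, map_mul]
    rw [this, map_mul]
    ring
  rw [e1, fourierCoeff.sum _ _ (fun l _ => (integrable_mul_fourier hf _).const_mul _),
    Finset.sum_apply, Finset.mul_sum]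
  apply Finset.sum_congr rfl
  intro l _
  rw [fourierCoeff.const_mul, fourierCoeff_mul_fourier, mul_assoc, sub_neg_eq_add]

/-- `v` is in `H^∞`. -/
theorem vv_hinf : IsHinf vv := by
  refine ⟨vv_linf, fun n hn => ?_⟩
  have h := fourierCoeff_sup hh_le hh_cont n
  have e : ∀ i, fourierCoeff (fun x => bump i x * hh i x) n = 0 := by
    intro i
    unfold hh
    rw [fourierCoeff_mul_hp (continuous_integrable (bump_cont i))]
    rw [Finset.sum_eq_zero, mul_zero]
    intro l _
    rw [fourierCoeff_bump]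
    have : ∀ L : ℕ, bc L (n - (((2 ^ nn i : ℕ) : ℤ) + l)) = 0 := by
      intro L
      unfold bc
      rw [if_neg]
      intro hc
      have : (0 : ℤ) < ((2 ^ nn i : ℕ) : ℤ) := by positivity
      omega
    rw [this, this, sub_zero, mul_zero]
  simp only [e] at h
  exact h.unique hasSum_zero

/-- The test functional. -/
noncomputable def test (i : ℕ) (G : UnitAddCircle → ℂ) : ℂ :=
  ∫ x, (G x * (fourier (kk i) x : ℂ) * conj (hh i x)) * (fej (2 ^ mm i) (xx i) x : ℂ) ∂haarAddCircle

lemma test_integrable {G : UnitAddCircle → ℂ} (hG : Integrable G haarAddCircle) (i : ℕ) :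
    Integrable (fun x => G x * (fourier (kk i) x : ℂ) * conj (hh i x)) haarAddCircle := by
  have h1 := integrable_mul_fourier hG (kk i)
  apply h1.mul_bdd (c := 1)
  · exact (Complex.continuous_conj.comp (hh_cont i)).aestronglyMeasurable
  · filter_upwards with x
    rw [RCLike.norm_conj]
    exact hh_le i x

lemma test_integrable' {G : UnitAddCircle → ℂ} (hG : Integrable G haarAddCircle) (i : ℕ) :
    Integrable (fun x => (G x * (fourier (kk i) x : ℂ) * conj (hh i x)) *
      (fej (2 ^ mm i) (xx i) x : ℂ)) haarAddCircle := by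
  have hc : Continuous (fun x => ((fej (2 ^ mm i) (xx i) x : ℝ) : ℂ)) :=
    Complex.continuous_ofReal.comp (fej_cont _ _)
  obtain ⟨C, hC⟩ := isCompact_univ.exists_bound_of_continuousOn hc.continuousOn
  exact (test_integrable hG i).mul_bdd (c := C) hc.aestronglyMeasurable
    (Filter.Eventually.of_forall fun x => hC x (Set.mem_univ x))

lemma fourierCoeff_test {G : UnitAddCircle → ℂ} (hG : Integrable G haarAddCircle) (i : ℕ) (n : ℤ) :
    fourierCoeff (fun x => G x * (fourier (kk i) x : ℂ) * conj (hh i x)) n =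
      ((1 / √(2 * (2 ^ nn i : ℕ)) : ℝ) : ℂ) * ∑ l ∈ Finset.range (2 ^ nn i),
        conj (aa i l) * fourierCoeff G (n + (((2 ^ nn i : ℕ) : ℤ) + l) - kk i) := by
  unfold hh
  rw [fourierCoeff_mul_conj_hp (integrable_mul_fourier hG _)]
  congr 1
  apply Finset.sum_congr rfl
  intro l _
  rw [fourierCoeff_mul_fourier]

/-- The test functionals vanish on `H^∞`. -/
lemma test_hinf {g : UnitAddCircle → ℂ} (hg : IsHinf g) (i : ℕ) : test i g = 0 := by
  have h := norm_integral_mul_fej_le (test_integrable hg.1.integrable i) (M := 2 ^ mm i)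
    (by positivity) (xx i) (δ := 0) (by
      intro n hn
      rw [fourierCoeff_test hg.1.integrable, Finset.sum_eq_zero, mul_zero, norm_zero]
      intro l hl
      rw [hg.2, mul_zero]
      have hl' := Finset.mem_range.1 hl
      have h1 : (2 : ℤ) ^ mm i ≤ 2 ^ nn i :=
        pow_le_pow_right₀ (by norm_num) (by have := mm_le_nn i; omega)
      have h2 := (abs_lt.1 hn).2
      unfold kk
      push_cast at hl' h2 ⊢
      have h3 : (l : ℤ) < 2 ^ nn i := by exact_mod_cast hl'
      linarith)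
  rw [mul_zero] at h
  exact norm_le_zero_iff.1 h

lemma test_add {f g : UnitAddCircle → ℂ} (hf : Integrable f haarAddCircle)
    (hg : Integrable g haarAddCircle) (i : ℕ) : test i (f + g) = test i f + test i g := by
  unfold test
  rw [← integral_add (test_integrable' hf i) (test_integrable' hg i)]
  apply integral_congr_ae
  filter_upwards with x
  simp only [Pi.add_apply]
  ring

/-- The test functionals are contractions on `L^∞`. -/
lemma test_le {G : UnitAddCircle → ℂ} (i : ℕ) {ε : ℝ} (hε : 0 ≤ ε)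
    (h : ∀ᵐ x ∂haarAddCircle, ‖G x‖ ≤ ε) : ‖test i G‖ ≤ ε := by
  unfold test
  calc ‖∫ x, (G x * (fourier (kk i) x : ℂ) * conj (hh i x)) *
        (fej (2 ^ mm i) (xx i) x : ℂ) ∂haarAddCircle‖
      ≤ ∫ x, ε * fej (2 ^ mm i) (xx i) x ∂haarAddCircle := by
        apply norm_integral_le_of_norm_le ((integrable_fej _ _).const_mul ε)
        filter_upwards [h] with x hx
        rw [norm_mul, norm_mul, norm_mul, norm_fourier, RCLike.norm_conj, Complex.norm_real,
          Real.norm_of_nonneg (fej_nonneg _ _ _)]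
        have h1 := hh_le i x
        have h2 := fej_nonneg (2 ^ mm i) (xx i) x
        have h3 : ‖G x‖ * 1 * ‖hh i x‖ ≤ ε := by
          calc ‖G x‖ * 1 * ‖hh i x‖ ≤ ε * 1 * 1 := by gcongr
            _ = ε := by ring
        gcongr
    _ = ε := by
        rw [integral_const_mul, integral_fej (by positivity), mul_one]

end Pool.Agent.Work.MP_bd9a46_an
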